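import Pool.Agent.P.MP_530519_al.Gal

/-! Characters of subgroups, as functions on the ambient group. -/

namespace Pool.Agent.P.MP_530519_al

open Set
open scoped Classical

variable {G : Type} [Group G] [Fintype G]

def Ch (H : Subgroup G) (χ : G → ℂ) : Prop := RepCh (fun x : H => χ x)

def Ir (H : Subgroup G) (χ : G → ℂ) : Prop := (fun x : H => χ x) ∈ Irr H

def Cl (H : Subgroup G) (c : G → ℂ) : Prop := ∀ g ∈ H, ∀ x ∈ H, c (g * x * g⁻¹) = c x

def Nm (N H : Subgroup G) : Prop := N ≤ H ∧ ∀ g ∈ H, ∀ x ∈ N, g * x * g⁻¹ ∈ N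

noncomputable def ipH (H : Subgroup G) (a b : G → ℂ) : ℂ :=
  (Nat.card H : ℂ)⁻¹ * ∑ g, if g ∈ H then a g * b g⁻¹ else 0

noncomputable def mu (H : Subgroup G) (a b : G → ℂ) : ℕ := ⌊(ipH H a b).re⌋₊

def cj (y : G) (a : G → ℂ) : G → ℂ := fun x => a (y * x * y⁻¹)

noncomputable def ind (K H : Subgroup G) (ψ : G → ℂ) : G → ℂ := fun x =>
  (Nat.card K : ℂ)⁻¹ * ∑ y, if y ∈ H ∧ y * x * y⁻¹ ∈ K then ψ (y * x * y⁻¹) else 0

noncomputable def IrS (H : Subgroup G) : Finset (G → ℂ) :=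
  (irr_finite (G := H)).toFinset.image fun η g => if h : g ∈ H then η ⟨g, h⟩ else 0

variable {H K N : Subgroup G} {a b c d χ ψ θ η : G → ℂ}

theorem cardH_ne (H : Subgroup G) : (Nat.card H : ℂ) ≠ 0 := card_ne

theorem sum_ite_mem_sub (H : Subgroup G) (f : G → ℂ) :
    (∑ g, if g ∈ H then f g else 0) = ∑ x : H, f x := by
  rw [← Finset.sum_filter]
  exact Finset.sum_subtype _ (by simp) f

theorem sum_ite_one (H : Subgroup G) (r : ℂ) :
    (∑ g, if g ∈ H then r else 0) = Nat.card H * r := by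
  rw [sum_ite_mem_sub H (fun _ => r)]; simp

theorem ipH_eq (H : Subgroup G) (a b : G → ℂ) :
    ipH H a b = ip (fun x : H => a x) (fun x : H => b x) := by
  unfold ipH ip
  rw [sum_ite_mem_sub H (fun g => a g * b g⁻¹)]; rfl

theorem ipH_comm (H : Subgroup G) (a b : G → ℂ) : ipH H a b = ipH H b a := by
  rw [ipH_eq, ipH_eq, ip_comm]

theorem mu_comm (H : Subgroup G) (a b : G → ℂ) : mu H a b = mu H b a := by
  unfold mu; rw [ipH_comm]

theorem res_congr (h : EqOn a b H) : (fun x : H => a x) = fun x : H => b x :=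
  funext fun x => h x.2

theorem ipH_congr (h : EqOn a b H) (h' : EqOn c d H) : ipH H a c = ipH H b d := by
  rw [ipH_eq, ipH_eq, res_congr h, res_congr h']

theorem mu_congr (h : EqOn a b H) (h' : EqOn c d H) : mu H a c = mu H b d := by
  unfold mu; rw [ipH_congr h h']

theorem Ch.congr (h : Ch H a) (h' : EqOn a b H) : Ch H b := by
  unfold Ch at *; rwa [← res_congr h']

theorem Ir.congr (h : Ir H a) (h' : EqOn a b H) : Ir H b := by
  unfold Ir at *; rwa [← res_congr h']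

theorem Ir.ch (h : Ir H a) : Ch H a := RepCh.of_irr h

theorem Ch.cl (h : Ch H a) : Cl H a := fun g hg x hx => RepCh.conj h ⟨g, hg⟩ ⟨x, hx⟩

theorem Ch.mono (h : Ch H a) (hK : K ≤ H) : Ch K a := RepCh.comp h (Subgroup.inclusion hK)

theorem Ch.mul (h : Ch H a) (h' : Ch H b) : Ch H (fun x => a x * b x) := RepCh.mul h h'

theorem Ch.inv (h : Ch H a) : Ch H (fun x => a x⁻¹) := RepCh.inv h

theorem Ch.of_mul (h1 : a 1 = 1) (h : ∀ x ∈ H, ∀ y ∈ H, a (x * y) = a x * a y) : Ch H a :=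
  RepCh.hom (G := H) ⟨⟨fun x => a x, h1⟩, fun x y => h x x.2 y y.2⟩

theorem Ch.one (H : Subgroup G) : Ch H (fun _ => 1) := Ch.of_mul rfl (by simp)

theorem Ch.ipH_eq_mu (h : Ch H a) (h' : Ch H b) : ipH H a b = mu H a b := by
  obtain ⟨n, hn⟩ := RepCh.ip_nat h h'
  unfold mu
  rw [ipH_eq, hn]; simp

theorem Ir.ipH_self (h : Ir H a) : ipH H a a = 1 := by rw [ipH_eq]; exact irr_ip_self h

theorem mu_of_ipH {n : ℕ} (h : ipH H a b = n) : mu H a b = n := by unfold mu; rw [h]; simp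

theorem Ir.mu_self (h : Ir H a) : mu H a a = 1 := mu_of_ipH (by simpa using h.ipH_self)

theorem Ch.ir (h : Ch H a) (h1 : ipH H a a = 1) : Ir H a :=
  irr_of_ip_self h (by rw [← ipH_eq]; exact h1)

theorem Ir.eqOn (h : Ir H a) (h' : Ir H b) (h0 : ipH H a b ≠ 0) : EqOn a b H := by
  by_contra hc
  apply h0
  rw [ipH_eq]
  exact irr_ip_ne h h' fun he => hc fun x hx => congrFun he ⟨x, hx⟩

theorem Ir.eqOn' (h : Ir H a) (h' : Ir H b) (h0 : mu H a b ≠ 0) : EqOn a b H :=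
  h.eqOn h' (by rw [h.ch.ipH_eq_mu h'.ch]; exact_mod_cast h0)

theorem Ir.one_ne (h : Ir H a) : a 1 ≠ 0 := irr_one_ne (G := H) h

theorem Ir.of_mul (h1 : a 1 = 1) (h : ∀ x ∈ H, ∀ y ∈ H, a (x * y) = a x * a y) : Ir H a := by
  refine (Ch.of_mul h1 h).ir ?_
  unfold ipH
  rw [Finset.sum_congr rfl (g := fun g => if g ∈ H then 1 else 0), sum_ite_one]
  · simp [cardH_ne H, -Nat.card_eq_fintype_card]
  · intro g _
    split_ifs with hg
    · rw [← h g hg _ (H.inv_mem hg), mul_inv_cancel, h1]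
    · rfl

theorem Ir.one (H : Subgroup G) : Ir H (fun _ => 1) := Ir.of_mul rfl (by simp)

theorem IrS_ir (h : η ∈ IrS H) : Ir H η := by
  obtain ⟨ξ, hξ, rfl⟩ := Finset.mem_image.mp h
  unfold Ir
  simpa using hξ

theorem IrS_ext (h : a ∈ IrS H) (h' : b ∈ IrS H) (he : EqOn a b H) : a = b := by
  obtain ⟨ξ, -, rfl⟩ := Finset.mem_image.mp h
  obtain ⟨ξ', -, rfl⟩ := Finset.mem_image.mp h'
  ext g
  by_cases hg : g ∈ H
  · exact he hg
  · simp [hg]

theorem Ir.exists_IrS (h : Ir H a) : ∃ η ∈ IrS H, EqOn a η H :=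
  ⟨_, Finset.mem_image.mpr ⟨_, (Set.Finite.mem_toFinset _).mpr h, rfl⟩,
    fun x (hx : x ∈ H) => by simp [hx]⟩

theorem Cl.expand (h : Cl H c) {x : G} (hx : x ∈ H) : c x = ∑ η ∈ IrS H, ipH H c η * η x := by
  have := congrFun (class_eq_sum (G := H) (c := fun x => c x)
    (fun g x => h g g.2 x x.2)) ⟨x, hx⟩
  simp only [Finset.sum_apply, Pi.smul_apply, smul_eq_mul] at this
  rw [this, IrS, Finset.sum_image]
  · refine Finset.sum_congr rfl fun ξ _ => ?_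
    rw [ipH_eq]; simp [hx]
  · intro ξ _ ξ' _ he
    ext g
    simpa using congrFun he g

theorem ipH_sum_left {ι : Type*} (s : Finset ι) (r : ι → ℂ) (f : ι → G → ℂ) (d : G → ℂ) :
    ipH H (fun x => ∑ i ∈ s, r i * f i x) d = ∑ i ∈ s, r i * ipH H (f i) d := by
  simp only [ipH_eq, ← ip_smul_left, ← ip_sum_left]
  congr 1
  ext x; simp

theorem ipH_mul_left (r : ℂ) (a d : G → ℂ) : ipH H (fun x => r * a x) d = r * ipH H a d := by
  simpa using ipH_sum_left (H := H) {()} (fun _ => r) (fun _ => a) d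

theorem Cl.ipH_expand (h : Cl H c) (hK : K ≤ H) (d : G → ℂ) :
    ipH K c d = ∑ η ∈ IrS H, ipH H c η * ipH K η d := by
  rw [← ipH_sum_left]
  exact ipH_congr (fun x hx => h.expand (hK hx)) (fun _ _ => rfl)

theorem Ch.mu_expand (h : Ch H c) (hK : K ≤ H) (hd : Ch K d) :
    mu K c d = ∑ η ∈ IrS H, mu H c η * mu K η d := by
  have := h.cl.ipH_expand hK d
  rw [(h.mono hK).ipH_eq_mu hd] at this
  have h2 : (mu K c d : ℂ) = ∑ η ∈ IrS H, ((mu H c η * mu K η d : ℕ) : ℂ) := by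
    rw [this]
    refine Finset.sum_congr rfl fun η hη => ?_
    rw [h.ipH_eq_mu (IrS_ir hη).ch, ((IrS_ir hη).ch.mono hK).ipH_eq_mu hd]; simp
  exact_mod_cast h2

theorem Ch.mu_le (h : Ch H c) (hK : K ≤ H) (hd : Ch K d) (hψ : Ir H ψ) :
    mu H c ψ * mu K ψ d ≤ mu K c d := by
  obtain ⟨η, hη, he⟩ := hψ.exists_IrS
  rw [h.mu_expand hK hd, mu_congr (fun _ _ => rfl) he,
    mu_congr (he.mono hK) (fun _ _ => rfl)]
  exact Finset.single_le_sum (f := fun η => mu H c η * mu K η d) (fun _ _ => Nat.zero_le _) hη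

theorem Cl.ch (h : Cl H c) (h' : ∀ η, Ir H η → ∃ n : ℕ, ipH H c η = n) : Ch H c := by
  refine repCh_of_ip (G := H) (fun g x => h g g.2 x x.2) fun ξ hξ => ?_
  obtain ⟨n, hn⟩ := h' (fun g => if h : g ∈ H then ξ ⟨g, h⟩ else 0) (by unfold Ir; simpa using hξ)
  refine ⟨n, ?_⟩
  rw [← hn, ipH_eq]; simp

theorem ind_cl (K H : Subgroup G) (ψ : G → ℂ) : Cl H (ind K H ψ) := by
  intro g hg x _
  unfold ind
  congr 1
  rw [← Equiv.sum_comp (Equiv.mulRight g⁻¹)]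
  refine Finset.sum_congr rfl fun y _ => ?_
  have h1 : y * g⁻¹ * (g * x * g⁻¹) * (y * g⁻¹)⁻¹ = y * x * y⁻¹ := by group
  simp only [Equiv.coe_mulRight, h1, H.mul_mem_cancel_right (H.inv_mem hg)]

/-- Frobenius reciprocity. -/
theorem ipH_ind (hK : K ≤ H) (ψ : G → ℂ) (hχ : Cl H χ) :
    ipH H (ind K H ψ) χ = ipH K ψ χ := by
  unfold ipH ind
  have key : ∀ y, (∑ x, if x ∈ H then
      (if y ∈ H ∧ y * x * y⁻¹ ∈ K then ψ (y * x * y⁻¹) else 0) * χ x⁻¹ else 0) =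
      if y ∈ H then ∑ z, if z ∈ K then ψ z * χ z⁻¹ else 0 else 0 := by
    intro y
    by_cases hy : y ∈ H
    · rw [if_pos hy, ← Equiv.sum_comp (MulAut.conj y).toEquiv
        (fun z => if z ∈ K then ψ z * χ z⁻¹ else 0)]
      refine Finset.sum_congr rfl fun x _ => ?_
      simp only [MulEquiv.toEquiv_eq_coe, EquivLike.coe_coe, MulAut.conj_apply, hy, true_and]
      by_cases hx : y * x * y⁻¹ ∈ K
      · have hx' : x ∈ H := by
          have := H.mul_mem (H.mul_mem (H.inv_mem hy) (hK hx)) hy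
          simpa [mul_assoc] using this
        rw [if_pos hx', if_pos hx, if_pos hx, ← hχ y hy _ (H.inv_mem hx')]
        congr 2; group
      · simp [hx]
    · simp [hy]
  have : (∑ x, if x ∈ H then ((Nat.card K : ℂ)⁻¹ *
      ∑ y, if y ∈ H ∧ y * x * y⁻¹ ∈ K then ψ (y * x * y⁻¹) else 0) * χ x⁻¹ else 0) =
      (Nat.card K : ℂ)⁻¹ * ∑ y, ∑ x, if x ∈ H then
      (if y ∈ H ∧ y * x * y⁻¹ ∈ K then ψ (y * x * y⁻¹) else 0) * χ x⁻¹ else 0 := by
    rw [Finset.sum_comm, Finset.mul_sum]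
    refine Finset.sum_congr rfl fun x _ => ?_
    split_ifs
    · rw [mul_assoc, Finset.sum_mul]
    · simp
  rw [this, Finset.sum_congr rfl fun y _ => key y, sum_ite_one]
  have := cardH_ne H
  field_simp

theorem Ch.ind (hK : K ≤ H) (h : Ch K ψ) : Ch H (ind K H ψ) :=
  (ind_cl K H ψ).ch fun η hη => ⟨_, by
    rw [ipH_ind hK ψ hη.ch.cl, h.ipH_eq_mu (hη.ch.mono hK)]⟩

theorem mu_ind (hK : K ≤ H) (ψ : G → ℂ) (hχ : Ch H χ) : mu H (ind K H ψ) χ = mu K ψ χ := by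
  unfold mu; rw [ipH_ind hK ψ hχ.cl]

theorem Nm.mem_iff (h : Nm N H) {y : G} (hy : y ∈ H) (x : G) : y * x * y⁻¹ ∈ N ↔ x ∈ N :=
  ⟨fun hx => by simpa [mul_assoc] using h.2 _ (H.inv_mem hy) _ hx, h.2 y hy x⟩

theorem Nm.mono (h : Nm N H) (h1 : N ≤ K) (h2 : K ≤ H) : Nm N K :=
  ⟨h1, fun g hg => h.2 g (h2 hg)⟩

theorem Ch.cj (h : Nm N H) {y : G} (hy : y ∈ H) (hθ : Ch N θ) : Ch N (cj y θ) :=
  RepCh.comp (G := N) (H := N) hθ
    ⟨⟨fun x => ⟨y * x * y⁻¹, h.2 y hy x x.2⟩, by ext; simp⟩, fun a b => by ext; simp [mul_assoc]⟩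

theorem ipH_cj {y : G} (h : ∀ x, y * x * y⁻¹ ∈ N ↔ x ∈ N) (a b : G → ℂ) :
    ipH N (cj y a) (cj y b) = ipH N a b := by
  unfold ipH
  congr 1
  rw [← Equiv.sum_comp (MulAut.conj y).toEquiv (fun z => if z ∈ N then a z * b z⁻¹ else 0)]
  refine Finset.sum_congr rfl fun x _ => ?_
  simp only [MulEquiv.toEquiv_eq_coe, EquivLike.coe_coe, MulAut.conj_apply, h]
  simp [cj, mul_assoc]

theorem Ir.cj (h : Nm N H) {y : G} (hy : y ∈ H) (hθ : Ir N θ) : Ir N (cj y θ) :=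
  (hθ.ch.cj h hy).ir (by rw [ipH_cj (h.mem_iff hy), hθ.ipH_self])

theorem ipH_ind_res (h : Nm N H) (hK : N ≤ K) (ψ θ : G → ℂ) :
    ipH N (ind K H ψ) θ =
      (Nat.card K : ℂ)⁻¹ * ∑ y, if y ∈ H then ipH N (cj y ψ) θ else 0 := by
  have : EqOn (ind K H ψ)
      (fun x => ∑ y, (if y ∈ H then (Nat.card K : ℂ)⁻¹ else 0) * cj y ψ x) N := by
    intro x hx
    simp only [ind, Finset.mul_sum]
    refine Finset.sum_congr rfl fun y _ => ?_
    by_cases hy : y ∈ H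
    · simp [hy, hK (h.2 y hy x hx), cj]
    · simp [hy]
  rw [ipH_congr this (fun _ _ => rfl), ipH_sum_left, Finset.mul_sum]
  refine Finset.sum_congr rfl fun y _ => ?_
  split_ifs <;> simp

/-- Clifford's theorem: constituents are conjugate. -/
theorem clifford {θ' : G → ℂ} (h : Nm N H) (hχ : Ir H χ) (hθ : Ir N θ) (hθ' : Ir N θ')
    (h1 : mu N χ θ ≠ 0) (h2 : mu N χ θ' ≠ 0) : ∃ y ∈ H, EqOn (cj y θ) θ' N := by
  have hc := hθ.ch.ind h.1
  have h3 := hc.mu_le h.1 hθ'.ch hχ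
  rw [mu_ind h.1 _ hχ.ch, mu_comm N θ χ] at h3
  have h4 : ipH N (ind N H θ) θ' ≠ 0 := by
    rw [(hc.mono h.1).ipH_eq_mu hθ'.ch]
    exact_mod_cast (lt_of_lt_of_le (Nat.pos_of_ne_zero (mul_ne_zero h1 h2)) h3).ne'
  rw [ipH_ind_res h le_rfl] at h4
  obtain ⟨y, -, hy⟩ := Finset.exists_ne_zero_of_sum_ne_zero (right_ne_zero_of_mul h4)
  by_cases hyH : y ∈ H
  · rw [if_pos hyH] at hy
    exact ⟨y, hyH, (hθ.cj h hyH).eqOn hθ' hy⟩
  · simp [hyH] at hy

theorem clifford_inv (h : Nm N H) (hχ : Ir H χ) (hθ : Ir N θ) (h1 : mu N χ θ ≠ 0)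
    (hi : ∀ y ∈ H, EqOn (cj y θ) θ N) : EqOn χ (fun x => mu N χ θ * θ x) N := by
  intro x hx
  obtain ⟨η, hη, he⟩ := hθ.exists_IrS
  have hc := hχ.ch.mono h.1
  rw [hc.cl.expand hx, Finset.sum_eq_single η]
  · rw [← ipH_congr (fun _ _ => rfl) he, hc.ipH_eq_mu hθ.ch, ← he hx]
  · intro ξ hξ hne
    rw [hc.ipH_eq_mu (IrS_ir hξ).ch]
    by_cases h2 : mu N χ ξ = 0
    · simp [h2]
    · obtain ⟨y, hy, hy'⟩ := clifford h hχ hθ (IrS_ir hξ) h1 h2
      exact absurd (IrS_ext hξ hη (hy'.symm.trans ((hi y hy).trans he))) hne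
  · intro h; exact absurd hη h

theorem sum_sq_mu (hK : K ≤ H) (hθ : Ch K θ) :
    ∑ η ∈ IrS H, mu K η θ * mu K η θ = mu K (ind K H θ) θ := by
  rw [(hθ.ind hK).mu_expand hK hθ]
  refine Finset.sum_congr rfl fun η hη => ?_
  rw [mu_ind hK _ (IrS_ir hη).ch, mu_comm K θ η]

theorem mu_ind_inv (h : Nm N H) (hθ : Ir N θ) (hi : ∀ y ∈ H, EqOn (cj y θ) θ N) :
    mu N (ind N H θ) θ * Nat.card N = Nat.card H := by
  have h1 := ipH_ind_res h le_rfl θ θ
  rw [((hθ.ch.ind h.1).mono h.1).ipH_eq_mu hθ.ch,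
    Finset.sum_congr rfl (g := fun y => if y ∈ H then 1 else 0), sum_ite_one] at h1
  · have h2 := cardH_ne N
    have : ((mu N (ind N H θ) θ * Nat.card N : ℕ) : ℂ) = Nat.card H := by
      push_cast; rw [h1]; field_simp
    exact_mod_cast this
  · intro y _
    split_ifs with hy
    · rw [ipH_congr (hi y hy) (fun _ _ => rfl), hθ.ipH_self]
    · rfl

/-- The stabiliser of a character of a normal subgroup. -/
def stabC (h : Nm N H) (θ : G → ℂ) : Subgroup G where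
  carrier := {y | y ∈ H ∧ EqOn (cj y θ) θ N}
  one_mem' := ⟨H.one_mem, fun x _ => by simp [cj]⟩
  mul_mem' := by
    rintro y z ⟨hy, hy'⟩ ⟨hz, hz'⟩
    refine ⟨H.mul_mem hy hz, fun x hx => ?_⟩
    have h1 := hy' (h.2 z hz x hx)
    have h2 := hz' hx
    simp only [cj] at *
    rw [← h2, ← h1]; congr 1; group
  inv_mem' := by
    rintro y ⟨hy, hy'⟩
    refine ⟨H.inv_mem hy, fun x hx => ?_⟩
    have h1 := hy' (h.2 _ (H.inv_mem hy) x hx)
    simp only [cj] at *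
    rw [← h1]; congr 1; group

theorem stabC_le (h : Nm N H) (θ : G → ℂ) : stabC h θ ≤ H := fun _ hy => hy.1

theorem le_stabC (h : Nm N H) (hθ : Cl N θ) : N ≤ stabC h θ :=
  fun y hy => ⟨h.1 hy, fun x hx => hθ y hy x hx⟩

/-- Clifford correspondence. -/
theorem clifford_ind (h : Nm N H) (hθ : Ir N θ) (hψ : Ir (stabC h θ) ψ) (h1 : mu N ψ θ ≠ 0) :
    Ir H (ind (stabC h θ) H ψ) ∧ mu N (ind (stabC h θ) H ψ) θ ≠ 0 := by
  set T := stabC h θ
  have hNT : N ≤ T := le_stabC h hθ.ch.cl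
  have hTH : T ≤ H := stabC_le h θ
  have hc := hψ.ch.ind hTH
  have he := clifford_inv (h.mono hNT hTH) hψ hθ h1 (fun y hy => hy.2)
  have h2 : mu N (ind T H ψ) θ = mu N ψ θ := by
    apply mu_of_ipH
    rw [ipH_ind_res h hNT,
      Finset.sum_congr rfl (g := fun y => if y ∈ T then (mu N ψ θ : ℂ) else 0), sum_ite_one]
    · have := cardH_ne T
      field_simp
    · intro y _
      by_cases hy : y ∈ H
      · have h3 : ipH N (cj y ψ) θ = mu N ψ θ * ipH N (cj y θ) θ := by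
          rw [← ipH_mul_left]
          exact ipH_congr (fun x hx => he (h.2 y hy x hx)) (fun _ _ => rfl)
        rw [if_pos hy, h3]
        split_ifs with hyT
        · rw [ipH_congr hyT.2 (fun _ _ => rfl), hθ.ipH_self, mul_one]
        · by_contra h4
          exact hyT ⟨hy, (hθ.cj h hy).eqOn hθ (right_ne_zero_of_mul h4)⟩
      · rw [if_neg hy, if_neg fun hyT => hy (hTH hyT)]
  refine ⟨hc.ir ?_, h2 ▸ h1⟩
  have h3 := (hc.mono hTH).mu_le hNT hθ.ch hψ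
  rw [h2] at h3
  have h4 : mu H (ind T H ψ) (ind T H ψ) = mu T (ind T H ψ) ψ := by
    rw [mu_ind hTH _ hc, mu_comm]
  have h5 : mu T (ind T H ψ) ψ ≤ 1 := by
    by_contra h6
    have := Nat.pos_of_ne_zero h1
    nlinarith
  have h6 : mu H (ind T H ψ) (ind T H ψ) ≠ 0 := by
    intro h0
    rw [hc.mu_expand le_rfl hc, Finset.sum_eq_zero_iff] at h0
    apply h1
    rw [← h2, hc.mu_expand h.1 hθ.ch]
    refine Finset.sum_eq_zero fun η hη => ?_
    have := h0 η hη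
    rw [mu_comm H η, mul_self_eq_zero] at this
    simp [this]
  rw [hc.ipH_eq_mu hc]
  have : mu H (ind T H ψ) (ind T H ψ) = 1 := by omega
  rw [this]; simp

end Pool.Agent.P.MP_530519_al
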