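import Pool.Agent.P.MP_530519_al.Defs

/-! Basic character theory of finite groups. -/

namespace Pool.Agent.P.MP_530519_al

open Module

variable {G : Type} [Group G]

/-- Character of some finite dimensional representation. -/
def RepCh (χ : G → ℂ) : Prop :=
  ∃ (V : Type) (_ : AddCommGroup V) (_ : Module ℂ V) (_ : FiniteDimensional ℂ V)
    (ρ : Representation ℂ G V), χ = ρ.character

theorem RepCh.of_irr {χ : G → ℂ} (h : χ ∈ Irr G) : RepCh χ := by
  obtain ⟨V, _, _, _, ρ, _, rfl⟩ := h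
  exact ⟨V, _, _, inferInstance, ρ, rfl⟩

theorem RepCh.conj {χ : G → ℂ} (h : RepCh χ) (g x : G) : χ (g * x * g⁻¹) = χ x := by
  obtain ⟨V, _, _, _, ρ, rfl⟩ := h
  exact ρ.char_conj x g

theorem RepCh.comp {H : Type} [Group H] {χ : G → ℂ} (h : RepCh χ) (f : H →* G) :
    RepCh (fun x => χ (f x)) := by
  obtain ⟨V, _, _, _, ρ, rfl⟩ := h
  exact ⟨V, _, _, inferInstance, ρ.comp f, rfl⟩

theorem RepCh.mul {χ ψ : G → ℂ} (h : RepCh χ) (h' : RepCh ψ) : RepCh (fun x => χ x * ψ x) := by
  obtain ⟨V, _, _, _, ρ, rfl⟩ := h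
  obtain ⟨W, _, _, _, σ, rfl⟩ := h'
  exact ⟨TensorProduct ℂ V W, _, _, inferInstance, ρ.tprod σ, by rw [Representation.char_tensor]; rfl⟩

theorem RepCh.inv {χ : G → ℂ} (h : RepCh χ) : RepCh (fun x => χ x⁻¹) := by
  obtain ⟨V, _, _, _, ρ, rfl⟩ := h
  exact ⟨Module.Dual ℂ V, _, _, inferInstance, ρ.dual, by ext g; rw [Representation.char_dual]⟩

theorem RepCh.zero : RepCh (fun _ : G => (0 : ℂ)) :=
  ⟨Fin 0 → ℂ, _, _, inferInstance, 1, by
    ext g; simp [Representation.character]⟩

theorem RepCh.add {χ ψ : G → ℂ} (h : RepCh χ) (h' : RepCh ψ) : RepCh (fun x => χ x + ψ x) := by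
  obtain ⟨V, _, _, _, ρ, rfl⟩ := h
  obtain ⟨W, _, _, _, σ, rfl⟩ := h'
  refine ⟨V × W, _, _, inferInstance, ρ.prod σ, ?_⟩
  ext g
  simp only [Representation.character]
  exact (LinearMap.trace_prodMap' (ρ g) (σ g)).symm

theorem RepCh.hom (β : G →* ℂ) : RepCh (fun x => β x) := by
  refine ⟨ℂ, _, _, inferInstance, (Algebra.lsmul ℂ ℂ ℂ : ℂ →ₐ[ℂ] Module.End ℂ ℂ).toMonoidHom.comp β, ?_⟩
  ext g
  simp only [Representation.character, MonoidHom.comp_apply]
  have : ((Algebra.lsmul ℂ ℂ ℂ : ℂ →ₐ[ℂ] Module.End ℂ ℂ).toMonoidHom (β g)) =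
      β g • (LinearMap.id : ℂ →ₗ[ℂ] ℂ) := by
    ext; simp
  rw [this]; simp

theorem RepCh.sum {ι : Type*} (s : Finset ι) (f : ι → G → ℂ) (h : ∀ i ∈ s, RepCh (f i)) :
    RepCh (fun x => ∑ i ∈ s, f i x) := by
  classical
  induction s using Finset.induction_on with
  | empty => simpa using RepCh.zero
  | insert a s ha ih =>
    simp only [Finset.sum_insert ha]
    exact (h a (by simp)).add (ih fun i hi => h i (by simp [hi]))

theorem RepCh.nsmul {χ : G → ℂ} (h : RepCh χ) (n : ℕ) : RepCh (fun x => (n : ℂ) * χ x) := by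
  simpa using RepCh.sum (Finset.range n) (fun _ => χ) fun _ _ => h

/-- Twisting by a ring endomorphism of `ℂ`. -/
theorem RepCh.map {χ : G → ℂ} (h : RepCh χ) (σ : ℂ →+* ℂ) : RepCh (fun x => σ (χ x)) := by
  obtain ⟨V, _, _, _, ρ, rfl⟩ := h
  let b := Module.finBasis ℂ V
  let e := LinearMap.toMatrixAlgEquiv b
  let e' := (Matrix.toLinAlgEquiv' : Matrix (Fin (finrank ℂ V)) (Fin (finrank ℂ V)) ℂ ≃ₐ[ℂ] _)
  refine ⟨Fin (finrank ℂ V) → ℂ, _, _, inferInstance,
    (e'.toAlgHom.toMonoidHom.comp (σ.mapMatrix.toMonoidHom.comp e.toAlgHom.toMonoidHom)).comp ρ, ?_⟩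
  ext g
  simp only [Representation.character]
  change _ = LinearMap.trace ℂ _ (Matrix.toLin' ((LinearMap.toMatrix b b (ρ g)).map σ))
  rw [Matrix.trace_toLin'_eq, LinearMap.trace_eq_matrix_trace ℂ b]
  simp [Matrix.trace]

variable [Fintype G]

/-- The symmetric bilinear form on functions. -/
noncomputable def ip (a b : G → ℂ) : ℂ := (Nat.card G : ℂ)⁻¹ * ∑ g, a g * b g⁻¹

theorem card_ne : (Nat.card G : ℂ) ≠ 0 := by
  exact_mod_cast (Nat.card_pos (α := G)).ne'

theorem ip_comm (a b : G → ℂ) : ip a b = ip b a := by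
  unfold ip
  congr 1
  rw [← Equiv.sum_comp (Equiv.inv G)]
  simp [mul_comm]

theorem RepCh.ip_nat {χ ψ : G → ℂ} (h : RepCh χ) (h' : RepCh ψ) : ∃ n : ℕ, ip χ ψ = n := by
  obtain ⟨V, _, _, _, ρ, rfl⟩ := h
  obtain ⟨W, _, _, _, σ, rfl⟩ := h'
  haveI : Invertible (Nat.card G : ℂ) := invertibleOfNonzero card_ne
  exact ⟨_, Representation.card_inv_mul_sum_char_mul_char_eq_finrank σ ρ⟩

theorem irr_ip_self {χ : G → ℂ} (h : χ ∈ Irr G) : ip χ χ = 1 := by
  obtain ⟨V, _, _, _, ρ, hρ, rfl⟩ := h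
  haveI : Invertible (Nat.card G : ℂ) := invertibleOfNonzero card_ne
  have := Representation.char_orthonormal ρ ρ
  rw [if_pos ⟨Representation.Equiv.refl ρ⟩] at this
  exact this

theorem irr_ip_ne {χ ψ : G → ℂ} (h : χ ∈ Irr G) (h' : ψ ∈ Irr G) (hne : χ ≠ ψ) : ip χ ψ = 0 := by
  obtain ⟨V, _, _, _, ρ, hρ, rfl⟩ := h
  obtain ⟨W, _, _, _, σ, hσ, rfl⟩ := h'
  haveI : Invertible (Nat.card G : ℂ) := invertibleOfNonzero card_ne
  have := Representation.char_orthonormal ρ σ
  rw [if_neg] at this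
  · exact this
  · rintro ⟨φ⟩
    exact hne (Representation.char_iso φ).symm

theorem char_add_of_isCompl {V : Type} [AddCommGroup V] [Module ℂ V] [FiniteDimensional ℂ V]
    (ρ : Representation ℂ G V) (A B : Subrepresentation ρ)
    (h : IsCompl A.toSubmodule B.toSubmodule) (g : G) :
    ρ.character g = A.toRepresentation.character g + B.toRepresentation.character g := by
  simp only [Representation.character]
  rw [← LinearMap.trace_prodMap', ← LinearMap.trace_conj' _ (Submodule.prodEquivOfIsCompl _ _ h)]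
  congr 1
  apply LinearMap.ext
  intro v
  obtain ⟨⟨a, b⟩, rfl⟩ := (Submodule.prodEquivOfIsCompl _ _ h).surjective v
  simp [LinearEquiv.conj_apply, Subrepresentation.toRepresentation]

theorem RepCh.decomp {χ : G → ℂ} (h : RepCh χ) :
    ∃ s : Multiset (G → ℂ), (∀ η ∈ s, η ∈ Irr G) ∧ χ = s.sum := by
  obtain ⟨V, _, _, _, ρ, rfl⟩ := h
  induction hn : finrank ℂ V using Nat.strong_induction_on generalizing V with
  | _ n ih =>
  by_cases hi : ρ.IsIrreducible
  · exact ⟨{ρ.character}, by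
      simp only [Multiset.mem_singleton, forall_eq]
      exact ⟨V, _, _, inferInstance, ρ, hi, rfl⟩, by simp⟩
  by_cases h0 : Subsingleton V
  · refine ⟨0, by simp, ?_⟩
    ext g
    simp [Representation.character, Subsingleton.elim (ρ g) 0]
  have hV : Nontrivial V := not_subsingleton_iff_nontrivial.mp h0
  have hnt : Nontrivial (Subrepresentation ρ) := ⟨⊥, ⊤, fun h => by
    have : (⊥ : Submodule ℂ V) = ⊤ := congrArg Subrepresentation.toSubmodule h
    exact bot_ne_top this⟩
  have : ∃ A : Subrepresentation ρ, A ≠ ⊥ ∧ A ≠ ⊤ := by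
    by_contra hc
    push Not at hc
    exact hi ⟨fun A => by by_cases h : A = ⊥; exact Or.inl h; exact Or.inr (hc A h)⟩
  obtain ⟨A, hA0, hA1⟩ := this
  haveI : NeZero (Nat.card G : ℂ) := ⟨card_ne⟩
  obtain ⟨B, hB⟩ := exists_isCompl A
  have hc : IsCompl A.toSubmodule B.toSubmodule := by
    refine ⟨?_, ?_⟩
    · rw [disjoint_iff]
      exact congrArg Subrepresentation.toSubmodule hB.inf_eq_bot
    · rw [codisjoint_iff]
      exact congrArg Subrepresentation.toSubmodule hB.sup_eq_top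
  have hA : A.toSubmodule ≠ ⊤ := fun h => hA1 (Subrepresentation.toSubmodule_injective h)
  have hB' : B.toSubmodule ≠ ⊤ := fun h => hA0 (Subrepresentation.toSubmodule_injective (by
    have := hc.inf_eq_bot
    rwa [h, inf_top_eq] at this))
  obtain ⟨s, hs, hs'⟩ := ih _ (hn ▸ Submodule.finrank_lt hA) _ _ _ inferInstance A.toRepresentation rfl
  obtain ⟨t, ht, ht'⟩ := ih _ (hn ▸ Submodule.finrank_lt hB') _ _ _ inferInstance B.toRepresentation rfl
  refine ⟨s + t, fun η hη => ?_, ?_⟩
  · rcases Multiset.mem_add.mp hη with h | h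
    · exact hs η h
    · exact ht η h
  · ext g
    rw [char_add_of_isCompl ρ A B hc, hs', ht']
    simp

theorem ip_add_left (a b c : G → ℂ) : ip (a + b) c = ip a c + ip b c := by
  simp [ip, add_mul, Finset.sum_add_distrib, mul_add]

theorem ip_smul_left (r : ℂ) (a c : G → ℂ) : ip (r • a) c = r * ip a c := by
  simp only [ip, Pi.smul_apply, smul_eq_mul, mul_assoc, ← Finset.mul_sum]; ring

theorem ip_zero_left (c : G → ℂ) : ip 0 c = 0 := by simp [ip]

theorem ip_sum_left {ι : Type*} (s : Finset ι) (f : ι → G → ℂ) (c : G → ℂ) :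
    ip (∑ i ∈ s, f i) c = ∑ i ∈ s, ip (f i) c := by
  classical
  induction s using Finset.induction_on with
  | empty => simp [ip_zero_left]
  | insert a s ha ih => simp [Finset.sum_insert ha, ip_add_left, ih]

theorem irr_linearIndependent : LinearIndependent ℂ (fun χ : Irr G => (χ : G → ℂ)) := by
  rw [linearIndependent_iff']
  intro s c hs i hi
  have := congrArg (fun a => ip a i) hs
  simp only [ip_sum_left, ip_smul_left, ip_zero_left] at this
  rw [Finset.sum_eq_single i] at this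
  · simpa [irr_ip_self i.2] using this
  · intro j _ hj
    rw [irr_ip_ne j.2 i.2 (fun h => hj (Subtype.ext h)), mul_zero]
  · intro h; exact absurd hi h

theorem irr_finite : (Irr G).Finite :=
  Set.toFinite_of_finite_coe_sort' (irr_linearIndependent (G := G)).finite
  where Set.toFinite_of_finite_coe_sort' (h : Finite (Irr G)) : (Irr G).Finite := h

theorem irr_one_ne {χ : G → ℂ} (h : χ ∈ Irr G) : χ 1 ≠ 0 := by
  obtain ⟨V, _, _, _, ρ, hρ, rfl⟩ := h
  rw [Representation.char_one]
  have : Nontrivial V := by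
    by_contra hc
    have hs : Subsingleton V := not_nontrivial_iff_subsingleton.mp hc
    exact (bot_ne_top (α := Subrepresentation ρ))
      (Subrepresentation.toSubmodule_injective (Subsingleton.elim _ _))
  exact_mod_cast (Module.finrank_pos (R := ℂ) (M := V)).ne'

/-- Schur: convolution of a class function with an irreducible character. -/
theorem irr_conv {χ c : G → ℂ} (h : χ ∈ Irr G) (hc : ∀ g x, c (g * x * g⁻¹) = c x)
    (h0 : ip c χ = 0) (x : G) : ∑ g, c g * χ (g⁻¹ * x) = 0 := by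
  have h1 := irr_one_ne h
  obtain ⟨V, _, _, _, ρ, hρ, rfl⟩ := h
  let T : V →ₗ[ℂ] V := ∑ g, c g • ρ g⁻¹
  have hT : ∀ y, T ∘ₗ ρ y = ρ y ∘ₗ T := by
    intro y
    change T * ρ y = ρ y * T
    simp only [T, Finset.sum_mul, Finset.mul_sum, smul_mul_assoc, mul_smul_comm, ← map_mul]
    rw [← Equiv.sum_comp (MulAut.conj y).toEquiv]
    refine Finset.sum_congr rfl fun g _ => ?_
    have := hc y g
    rw [mul_assoc] at this
    simp [this, mul_assoc]
  obtain ⟨r, hr⟩ := (Representation.IsIrreducible.algebraMap_intertwiningMap_bijective_of_isAlgClosed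
    (ρ := ρ)).2 ⟨T, hT⟩
  have hr' : T = r • LinearMap.id := by
    have := congrArg Representation.IntertwiningMap.toLinearMap hr
    exact this.symm
  have key : ∀ y, ∑ g, c g * ρ.character (g⁻¹ * y) = r * ρ.character y := by
    intro y
    have : LinearMap.trace ℂ V (T * ρ y) = r * ρ.character y := by
      rw [hr']; simp [Representation.character, Module.End.mul_eq_comp]
    rw [← this]
    simp [T, Finset.sum_mul, Representation.character]
  have h2 := key 1
  simp only [mul_one] at h2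
  unfold ip at h0
  rw [h2] at h0
  have : r = 0 := by
    rcases mul_eq_zero.mp h0 with h | h
    · exact absurd h (inv_ne_zero card_ne)
    · exact (mul_eq_zero.mp h).resolve_right h1
  rw [key, this, zero_mul]

theorem repCh_reg [DecidableEq G] :
    RepCh (fun x : G => if x = 1 then (Nat.card G : ℂ) else 0) := by
  refine ⟨G → ℂ, _, _, inferInstance,
    { toFun := fun g => LinearMap.funLeft ℂ ℂ (fun x => x * g)
      map_one' := by ext; simp
      map_mul' := fun g h => by ext; simp [mul_assoc] }, ?_⟩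
  ext g
  simp only [Representation.character, MonoidHom.coe_mk, OneHom.coe_mk]
  rw [LinearMap.trace_eq_matrix_trace ℂ (Pi.basisFun ℂ G)]
  simp only [Matrix.trace, Matrix.diag, LinearMap.toMatrix_apply, Pi.basisFun_apply,
    Pi.basisFun_repr, LinearMap.funLeft_apply, Pi.single_apply, mul_eq_left]
  split_ifs <;> simp

theorem eq_zero_of_ip {c : G → ℂ} (hc : ∀ g x, c (g * x * g⁻¹) = c x)
    (h0 : ∀ χ ∈ Irr G, ip c χ = 0) : c = 0 := by
  classical
  obtain ⟨s, hs, hs'⟩ := (repCh_reg (G := G)).decomp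
  have key : ∀ t : Multiset (G → ℂ), (∀ η ∈ t, η ∈ Irr G) → ∀ x,
      ∑ g, c g * t.sum (g⁻¹ * x) = 0 := by
    intro t
    induction t using Multiset.induction_on with
    | empty => simp
    | cons a t ih =>
      intro ht x
      simp only [Multiset.sum_cons, Pi.add_apply, mul_add, Finset.sum_add_distrib]
      rw [ih (fun η hη => ht η (by simp [hη])), irr_conv (ht a (by simp)) hc (h0 a (ht a (by simp)))]
      simp
  ext x
  have := key s hs x
  rw [← hs'] at this
  simp only [inv_mul_eq_one, mul_ite, mul_zero, Finset.sum_ite_eq', Finset.mem_univ,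
    if_true] at this
  exact (mul_eq_zero.mp this).resolve_right card_ne

/-- Completeness of the irreducible characters. -/
theorem class_eq_sum {c : G → ℂ} (hc : ∀ g x, c (g * x * g⁻¹) = c x) :
    c = ∑ χ ∈ (irr_finite (G := G)).toFinset, ip c χ • χ := by
  rw [← sub_eq_zero]
  apply eq_zero_of_ip
  · intro g x
    simp only [Pi.sub_apply, Finset.sum_apply, Pi.smul_apply, hc]
    congr 1
    refine Finset.sum_congr rfl fun χ hχ => ?_
    rw [(RepCh.of_irr (χ := χ) (by simpa using hχ)).conj]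
  · intro ψ hψ
    rw [sub_eq_add_neg, ip_add_left, ← neg_one_smul ℂ, ip_smul_left, ip_sum_left,
      Finset.sum_eq_single ψ]
    · simp [ip_smul_left, irr_ip_self hψ]
    · intro χ hχ hne
      rw [ip_smul_left, irr_ip_ne (by simpa using hχ) hψ hne, mul_zero]
    · intro h; exact absurd (by simpa using hψ) h

theorem repCh_of_ip {c : G → ℂ} (hc : ∀ g x, c (g * x * g⁻¹) = c x)
    (h : ∀ χ ∈ Irr G, ∃ n : ℕ, ip c χ = n) : RepCh c := by
  rw [class_eq_sum hc]
  have := RepCh.sum (irr_finite (G := G)).toFinset (fun χ x => ip c χ * χ x) (fun χ hχ => by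
    have hχ' : χ ∈ Irr G := by simpa using hχ
    obtain ⟨n, hn⟩ := h χ hχ'
    rw [hn]
    exact (RepCh.of_irr hχ').nsmul n)
  convert this using 1
  ext x
  simp

theorem parseval {c d : G → ℂ} (hc : ∀ g x, c (g * x * g⁻¹) = c x) :
    ip c d = ∑ χ ∈ (irr_finite (G := G)).toFinset, ip c χ * ip χ d := by
  conv_lhs => rw [class_eq_sum hc]
  simp [ip_sum_left, ip_smul_left]

theorem irr_of_ip_self {χ : G → ℂ} (h : RepCh χ) (h1 : ip χ χ = 1) : χ ∈ Irr G := by
  classical
  choose! a ha using fun η (hη : η ∈ Irr G) => h.ip_nat (RepCh.of_irr hη)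
  have h2 := parseval (d := χ) h.conj
  rw [h1] at h2
  have h3 : ∑ η ∈ (irr_finite (G := G)).toFinset, a η * a η = 1 := by
    have : ((∑ η ∈ (irr_finite (G := G)).toFinset, a η * a η : ℕ) : ℂ) = 1 := by
      rw [h2]; push_cast
      refine Finset.sum_congr rfl fun η hη => ?_
      rw [ip_comm η χ, ha η (by simpa using hη)]
    exact_mod_cast this
  obtain ⟨η, hη, h4⟩ := Finset.exists_ne_zero_of_sum_ne_zero (h3.trans_ne one_ne_zero)
  rw [← Finset.add_sum_erase _ _ hη] at h3
  have h5 : a η * a η = 1 := by omega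
  have h6 : ∑ x ∈ (irr_finite (G := G)).toFinset.erase η, a x * a x = 0 := by omega
  have hη' : η ∈ Irr G := by simpa using hη
  have h7 : χ = η := by
    conv_lhs => rw [class_eq_sum h.conj, ← Finset.add_sum_erase _ _ hη]
    rw [ha η hη', Nat.eq_one_of_mul_eq_one_right h5, Finset.sum_eq_zero]
    · simp
    · intro x hx
      have h8 := (Finset.sum_eq_zero_iff.mp h6) x hx
      rw [ha x (by simpa using Finset.mem_of_mem_erase hx), mul_self_eq_zero.mp h8]
      simp
  exact h7 ▸ hη'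

theorem irr_iff {χ : G → ℂ} : χ ∈ Irr G ↔ RepCh χ ∧ ip χ χ = 1 :=
  ⟨fun h => ⟨RepCh.of_irr h, irr_ip_self h⟩, fun h => irr_of_ip_self h.1 h.2⟩

/-- Irreducible characters of commutative groups are multiplicative. -/
theorem irr_comm {χ : G → ℂ} (hG : ∀ a b : G, a * b = b * a) (h : χ ∈ Irr G) :
    χ 1 = 1 ∧ ∀ a b, χ (a * b) = χ a * χ b := by
  obtain ⟨V, _, _, _, ρ, hρ, rfl⟩ := h
  have : IsMulCommutative G := ⟨⟨hG⟩⟩
  have h1 := Representation.IsIrreducible.finrank_eq_one_of_isMulCommutative ρ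
  refine ⟨by simp [h1], fun a b => ?_⟩
  have key : ∀ T : V →ₗ[ℂ] V, T = LinearMap.trace ℂ V T • LinearMap.id := by
    intro T
    obtain ⟨c, hc, -⟩ := LinearMap.existsUnique_eq_smul_id_of_finrank_eq_one h1 T
    rw [hc]; simp [h1]
  simp only [Representation.character, map_mul]
  conv_lhs => rw [key (ρ a)]
  simp [Module.End.mul_eq_comp]

end Pool.Agent.P.MP_530519_al
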