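import Mathlib

/-! Unit groups of `ZMod e` and subgroup counts. -/

namespace Pool.Agent.P.MP_530519_al

open Subgroup hiding closure closure_empty closure_union subset_closure
open scoped Classical

theorem units_prime_pow {p : ℕ} (hp : p.Prime) (k : ℕ) :
    ∃ g : (ZMod (p ^ k))ˣ, ∀ u, ∃ j : ℕ, u = g ^ j ∨ u = -g ^ j := by
  have : NeZero (p ^ k) := ⟨pow_ne_zero _ hp.ne_zero⟩
  by_cases hc : IsCyclic (ZMod (p ^ k))ˣ
  · obtain ⟨g, hg⟩ := IsCyclic.exists_monoid_generator (α := (ZMod (p ^ k))ˣ)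
    exact ⟨g, fun u => by obtain ⟨j, hj⟩ := hg u; exact ⟨j, Or.inl hj.symm⟩⟩
  have h2 : p = 2 := by
    by_contra h
    exact hc (ZMod.isCyclic_units_of_prime_pow p hp h k)
  subst h2
  rw [ZMod.isCyclic_units_two_pow_iff] at hc
  obtain ⟨n, rfl⟩ : ∃ n, k = n + 2 := ⟨k - 2, by omega⟩
  let g : (ZMod (2 ^ (n + 2)))ˣ := ZMod.unitOfCoprime 5 (Nat.Coprime.pow_right _ (by norm_num))
  have hg : orderOf g = 2 ^ n := by rw [← orderOf_units]; exact ZMod.orderOf_five n
  have hi : (zpowers g).index = 2 := by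
    have := (zpowers g).card_mul_index
    rw [Nat.card_zpowers, hg, Nat.card_eq_fintype_card, ZMod.card_units_eq_totient,
      Nat.totient_prime_pow_succ Nat.prime_two] at this
    have h3 : 0 < 2 ^ n := by positivity
    apply Nat.eq_of_mul_eq_mul_left h3
    rw [this]; ring
  have hm : (-1 : (ZMod (2 ^ (n + 2)))ˣ) ∉ zpowers g := by
    intro h
    obtain ⟨j, hj⟩ := mem_powers_iff_mem_zpowers.mpr h
    have hd : 4 ∣ 2 ^ (n + 2) := ⟨2 ^ n, by ring⟩
    have := congrArg (fun u : (ZMod (2 ^ (n + 2)))ˣ => ZMod.castHom hd (ZMod 4) (u : ZMod _)) hj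
    simp only [g, Units.val_pow_eq_pow_val, ZMod.coe_unitOfCoprime, map_pow, map_natCast,
      Units.val_neg, Units.val_one, map_neg, map_one] at this
    rw [show ((5 : ℕ) : ZMod 4) = 1 from by decide, one_pow] at this
    exact absurd this (by decide)
  refine ⟨g, fun u => ?_⟩
  by_cases hu : u ∈ zpowers g
  · obtain ⟨j, hj⟩ := mem_powers_iff_mem_zpowers.mpr hu
    exact ⟨j, Or.inl hj.symm⟩
  · have := (mul_mem_iff_of_index_two hi (a := -1) (b := u)).mpr (by simp [hm, hu])
    obtain ⟨j, hj⟩ := mem_powers_iff_mem_zpowers.mpr this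
    exact ⟨j, Or.inr (by simp only at hj; rw [hj]; simp)⟩

theorem units_gen (e : ℕ) (he : e ≠ 0) :
    ∃ S : Finset (ZMod e)ˣ, S.card ≤ 2 * e.primeFactors.card ∧ Subgroup.closure (S : Set (ZMod e)ˣ) = ⊤ := by
  induction e using Nat.recOnPosPrimePosCoprime with
  | zero => exact absurd rfl he
  | one => exact ⟨∅, by simp, Subsingleton.elim _ _⟩
  | prime_pow p k hp hk =>
    obtain ⟨g, hg⟩ := units_prime_pow hp k
    refine ⟨{g, -1}, by rw [Nat.primeFactors_prime_pow hk.ne' hp]; exact Finset.card_le_two, ?_⟩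
    rw [eq_top_iff]
    intro u _
    have h1 : g ∈ Subgroup.closure (({g, -1} : Finset (ZMod (p ^ k))ˣ) : Set (ZMod (p ^ k))ˣ) :=
      Subgroup.subset_closure (by simp)
    have h2 : -1 ∈ Subgroup.closure (({g, -1} : Finset (ZMod (p ^ k))ˣ) : Set (ZMod (p ^ k))ˣ) :=
      Subgroup.subset_closure (by simp)
    obtain ⟨j, rfl | rfl⟩ := hg u
    · exact pow_mem h1 j
    · have := mul_mem h2 (pow_mem h1 j)
      rwa [neg_one_mul] at this
  | coprime a b ha hb hab iha ihb =>
    obtain ⟨S, hS, hS'⟩ := iha (by omega)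
    obtain ⟨T, hT, hT'⟩ := ihb (by omega)
    let φ : (ZMod a)ˣ × (ZMod b)ˣ ≃* (ZMod (a * b))ˣ :=
      ((Units.mapEquiv (ZMod.chineseRemainder hab).toMulEquiv).trans MulEquiv.prodUnits).symm
    let f := φ.toMonoidHom.comp (MonoidHom.inl _ _)
    let g := φ.toMonoidHom.comp (MonoidHom.inr _ _)
    refine ⟨S.image f ∪ T.image g, ?_, ?_⟩
    · rw [hab.primeFactors_mul, Finset.card_union_of_disjoint hab.disjoint_primeFactors]
      have := Finset.card_union_le (S.image f) (T.image g)
      have := Finset.card_image_le (s := S) (f := f)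
      have := Finset.card_image_le (s := T) (f := g)
      omega
    · rw [eq_top_iff]
      intro u _
      obtain ⟨⟨x, y⟩, rfl⟩ := φ.surjective u
      have h1 : φ (x, y) = f x * g y := by simp [f, g, ← map_mul]
      rw [h1, Finset.coe_union, Subgroup.closure_union, Finset.coe_image, Finset.coe_image,
        ← MonoidHom.map_closure, ← MonoidHom.map_closure, hS', hT']
      exact mul_mem_sup ⟨x, mem_top _, rfl⟩ ⟨y, mem_top _, rfl⟩

theorem card_subgroups {Γ : Type} [CommGroup Γ] [Finite Γ] {m : ℕ} (hm : 1 ≤ m) (S : Finset Γ) :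
    {U : Subgroup Γ | U ≤ Subgroup.closure (S : Set Γ) ∧ U.relIndex (Subgroup.closure (S : Set Γ)) ≤ m}.ncard ≤
      m ^ (2 * S.card) := by
  induction S using Finset.induction_on with
  | empty =>
    simp only [Finset.coe_empty, Subgroup.closure_empty, le_bot_iff, Finset.card_empty, mul_zero, pow_zero]
    exact (Set.ncard_le_one (Set.toFinite _)).mpr fun a ha b hb => ha.1.trans hb.1.symm
  | insert g S hg ih =>
    set C := Subgroup.closure (S : Set Γ)
    have hC : Subgroup.closure ((insert g S : Finset Γ) : Set Γ) = zpowers g ⊔ C := by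
      rw [Finset.coe_insert, Set.insert_eq, Subgroup.closure_union, zpowers_eq_closure]
    have : Fintype (Subgroup Γ) := Fintype.ofFinite _
    rw [hC, Finset.card_insert_of_notMem hg, Set.ncard_eq_toFinset_card']
    rw [Set.ncard_eq_toFinset_card'] at ih
    refine (Finset.card_le_mul_card_image_of_maps_to (f := fun U => U ⊓ C)
      (t := {U : Subgroup Γ | U ≤ C ∧ U.relIndex C ≤ m}.toFinset) ?_ (m * m) ?_).trans ?_
    · intro U hU
      simp only [Set.mem_toFinset, Set.mem_setOf_eq] at hU ⊢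
      refine ⟨inf_le_right, ?_⟩
      rw [inf_relIndex_right]
      exact (relIndex_le_of_le_right le_sup_right FiniteIndex.index_ne_zero).trans hU.2
    · intro U' hU'
      simp only [Set.mem_toFinset, Set.mem_setOf_eq] at hU'
      have hex : ∀ U : Subgroup Γ, ∃ c : C,
          g ^ orderOf (QuotientGroup.mk g : Γ ⧸ (U ⊔ C)) * c ∈ U := by
        intro U
        have : g ^ orderOf (QuotientGroup.mk g : Γ ⧸ (U ⊔ C)) ∈ U ⊔ C := by
          rw [← QuotientGroup.eq_one_iff, QuotientGroup.mk_pow, pow_orderOf_eq_one]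
        obtain ⟨u, hu, c, hc, h⟩ := mem_sup.mp this
        exact ⟨⟨c⁻¹, inv_mem hc⟩, by rw [← h]; simpa using hu⟩
      choose c hc using hex
      have : Fintype (C ⧸ U'.subgroupOf C) := Fintype.ofFinite _
      refine (Finset.card_le_card_of_injOn (t := Finset.Icc 1 m ×ˢ Finset.univ)
        (fun U => (orderOf (QuotientGroup.mk g : Γ ⧸ (U ⊔ C)),
          (QuotientGroup.mk (c U) : C ⧸ U'.subgroupOf C))) ?_ ?_).trans ?_
      · intro U hU
        simp only [Finset.coe_filter, Set.mem_toFinset, Set.mem_setOf_eq] at hU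
        simp only [Finset.coe_product, Finset.coe_Icc, Finset.coe_univ, Set.mem_prod, Set.mem_Icc,
          Set.mem_univ, and_true]
        refine ⟨orderOf_pos _, le_trans (Nat.le_of_dvd
          (Nat.pos_of_ne_zero FiniteIndex.index_ne_zero) (orderOf_dvd_of_pow_eq_one ?_)) hU.1.2⟩
        rw [← QuotientGroup.mk_pow, QuotientGroup.eq_one_iff]
        exact mem_sup_left (U.pow_relIndex_mem (mem_sup_left (mem_zpowers g)))
      · have key : ∀ U V : Subgroup Γ, U ≤ zpowers g ⊔ C → U ⊓ C = U' → V ⊓ C = U' →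
            orderOf (QuotientGroup.mk g : Γ ⧸ (U ⊔ C)) =
              orderOf (QuotientGroup.mk g : Γ ⧸ (V ⊔ C)) →
            (QuotientGroup.mk (c U) : C ⧸ U'.subgroupOf C) = QuotientGroup.mk (c V) → U ≤ V := by
          intro U V h1 h2 h3 h4 h5 x hx
          obtain ⟨_, ⟨k, rfl⟩, y, hy, rfl⟩ := mem_sup.mp (h1 hx)
          simp only at hx ⊢
          have h6 : g ^ k ∈ U ⊔ C := by
            simpa using mul_mem (mem_sup_left hx : _ ∈ U ⊔ C) (mem_sup_right (inv_mem hy))
          rw [← QuotientGroup.eq_one_iff, QuotientGroup.mk_zpow,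
            ← orderOf_dvd_iff_zpow_eq_one] at h6
          obtain ⟨j, rfl⟩ := h6
          have h7 := hc U
          have h8 := hc V
          rw [← h4] at h8
          set d := orderOf (QuotientGroup.mk g : Γ ⧸ (U ⊔ C))
          have h9 : ((c U : Γ)⁻¹ * c V) ∈ V := by
            have : ((c U : Γ)⁻¹ * c V) ∈ U' :=
              mem_subgroupOf.mp (QuotientGroup.eq.mp h5)
            rw [← h3] at this
            exact this.1
          have h10 : g ^ d * c U ∈ V := by
            have := mul_mem h8 (inv_mem h9)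
            simpa [mul_assoc] using this
          have h11 : g ^ ((d : ℤ) * j) * y = (g ^ d * c U) ^ j * ((c U : Γ) ^ (-j) * y) := by
            rw [mul_zpow, zpow_mul, zpow_natCast, mul_assoc, ← mul_assoc ((c U : Γ) ^ j),
              ← zpow_add]; simp
          rw [h11] at hx ⊢
          refine mul_mem (zpow_mem h10 j) ?_
          have h12 : (c U : Γ) ^ (-j) * y ∈ U ⊓ C :=
            ⟨(U.mul_mem_cancel_left (zpow_mem h7 j)).mp hx, mul_mem (zpow_mem (c U).2 _) hy⟩
          rw [h2, ← h3] at h12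
          exact h12.1
        intro U hU V hV h
        simp only [Finset.coe_filter, Set.mem_toFinset, Set.mem_setOf_eq] at hU hV
        simp only [Prod.mk.injEq] at h
        exact le_antisymm (key U V hU.1.1 hU.2 hV.2 h.1 h.2) (key V U hV.1.1 hV.2 hU.2 h.1.symm h.2.symm)
      · rw [Finset.card_product, Nat.card_Icc, Finset.card_univ, ← Nat.card_eq_fintype_card]
        exact Nat.mul_le_mul (by omega) hU'.2
    · calc m * m * _ ≤ m * m * m ^ (2 * S.card) := Nat.mul_le_mul_left _ ih
        _ = _ := by ring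

theorem two_pow_le_totient {n : ℕ} (hn : n ≠ 0) : 2 ^ n.primeFactors.card ≤ 2 * n.totient := by
  rw [Nat.totient_eq_div_primeFactors_mul]
  have h1 : 1 ≤ n / ∏ p ∈ n.primeFactors, p :=
    Nat.div_pos (Nat.le_of_dvd (Nat.pos_of_ne_zero hn) (Nat.prod_primeFactors_dvd n))
      (Finset.prod_pos fun p => Nat.pos_of_mem_primeFactors)
  have h2 : 2 ^ (n.primeFactors.erase 2).card ≤ ∏ p ∈ n.primeFactors.erase 2, (p - 1) := by
    refine Finset.pow_card_le_prod _ _ _ fun p hp => ?_
    have := (Nat.prime_of_mem_primeFactors (Finset.mem_of_mem_erase hp)).two_le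
    have := Finset.ne_of_mem_erase hp
    omega
  have h3 : ∏ p ∈ n.primeFactors.erase 2, (p - 1) ≤ ∏ p ∈ n.primeFactors, (p - 1) :=
    Finset.prod_le_prod_of_subset_of_one_le' (Finset.erase_subset _ _) fun p hp _ => by
      have := (Nat.prime_of_mem_primeFactors hp).two_le
      omega
  have h4 : n.primeFactors.card ≤ (n.primeFactors.erase 2).card + 1 := by
    have := Finset.pred_card_le_card_erase (s := n.primeFactors) (a := 2)
    omega
  calc 2 ^ n.primeFactors.card ≤ 2 ^ ((n.primeFactors.erase 2).card + 1) :=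
        Nat.pow_le_pow_right (by norm_num) h4
    _ ≤ _ := by
        rw [pow_succ, mul_comm]
        exact Nat.mul_le_mul_left _ ((h2.trans h3).trans (Nat.le_mul_of_pos_left _ h1))

theorem two_pow_card_primeFactors_le {n : ℕ} (hn : n ≠ 0) : 2 ^ n.primeFactors.card ≤ n :=
  (Finset.pow_card_le_prod _ _ _ fun _ hp => (Nat.prime_of_mem_primeFactors hp).two_le).trans
    (Nat.le_of_dvd (Nat.pos_of_ne_zero hn) (Nat.prod_primeFactors_dvd n))

end Pool.Agent.P.MP_530519_al
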