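import Pool.Agent.P.MP_530519_al.Cyc
import Pool.Agent.P.MP_530519_al.Units

/-! Counting consequences of a bound on the multiplicities of fields of values. -/

namespace Pool.Agent.P.MP_530519_al

open Set Subgroup
open scoped Classical

/-- Every field is the field of values of at most `m` irreducible characters. -/
def Hyp (m : ℕ) (G : Type) [Group G] : Prop :=
  ∀ F : IntermediateField ℚ ℂ, {χ ∈ Irr G | fieldOf χ = F}.ncard ≤ m

variable {G : Type} [Group G] [Fintype G] {m e p : ℕ} {χ ψ : G → ℂ}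

theorem hyp_mult : Hyp (mult G) G := fun F =>
  le_csSup ⟨(Irr G).ncard, by
    rintro _ ⟨F, rfl⟩
    exact Set.ncard_le_ncard (fun _ h => h.1) irr_finite⟩ ⟨F, rfl⟩

theorem irr_comp {Q : Type} [Group Q] [Fintype Q] (f : G →* Q) (hf : Function.Surjective f)
    {χ : Q → ℂ} (h : χ ∈ Irr Q) : (fun x => χ (f x)) ∈ Irr G := by
  refine irr_of_ip_self ((RepCh.of_irr h).comp f) ?_
  rw [← irr_ip_self h]
  have h1 : ∀ F : Q → ℂ, ∑ g, F (f g) = (Finset.univ.filter fun g => f g = 1).card * ∑ q, F q := by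
    intro F
    rw [Finset.sum_comp F f, Finset.image_univ_of_surjective hf, Finset.mul_sum]
    refine Finset.sum_congr rfl fun q _ => ?_
    rw [MonoidHom.card_fiber_eq_of_mem_range f (hf q) (hf 1)]; simp
  have h2 := h1 fun _ => 1
  simp only [Finset.sum_const, Finset.card_univ, nsmul_eq_mul, mul_one,
    ← Nat.card_eq_fintype_card] at h2
  have h3 := card_ne (G := G)
  have h4 := card_ne (G := Q)
  simp only [ip, map_inv]
  rw [h1 fun q => χ q * χ q⁻¹, h2] at *
  have := left_ne_zero_of_mul h3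
  field_simp

theorem Hyp.of_surj {Q : Type} [Group Q] [Fintype Q] (h : Hyp m G) (f : G →* Q)
    (hf : Function.Surjective f) : Hyp m Q := by
  intro F
  refine le_trans (Set.ncard_le_ncard_of_injOn (fun χ x => χ (f x)) ?_ ?_
    (irr_finite.subset fun _ h => h.1)) (h F)
  · rintro χ ⟨h1, rfl⟩
    refine ⟨irr_comp f hf h1, ?_⟩
    unfold fieldOf
    rw [show (Set.range fun x => χ (f x)) = Set.range χ from hf.range_comp χ]
  · intro χ _ ψ _ h1
    ext q
    obtain ⟨x, rfl⟩ := hf q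
    exact congrFun h1 x

theorem Hyp.pos (h : Hyp m G) : 1 ≤ m := by
  refine le_trans ?_ (h (fieldOf fun _ : G => (1 : ℂ)))
  refine (Set.ncard_pos (irr_finite.subset fun _ h => h.1)).mpr ⟨fun _ => 1, ?_, rfl⟩
  refine irr_of_ip_self (RepCh.hom 1) ?_
  simp [ip, -Nat.card_eq_fintype_card, ← Nat.card_eq_fintype_card, card_ne]

theorem ir_top : Ir ⊤ χ ↔ χ ∈ Irr G :=
  ⟨fun h => irr_comp (G := G) (Q := (⊤ : Subgroup G)) (topEquiv (G := G)).symm.toMonoidHom
      (topEquiv (G := G)).symm.surjective h,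
    fun h => irr_comp (⊤ : Subgroup G).subtype (fun x => ⟨⟨x, trivial⟩, rfl⟩) h⟩

theorem nm_top (B : Subgroup G) [h : B.Normal] : Nm B ⊤ := ⟨le_top, fun g _ x hx => h.conj_mem x hx g⟩

/-- The Galois action on functions. -/
@[reducible] def galAct [NeZero e] (hG : ∀ g : G, g ^ e = 1) : MulAction (ZMod e)ˣ (G → ℂ) where
  smul u χ := pw (u : ZMod e).val χ
  one_smul χ := by
    ext g
    change χ (g ^ (1 : ZMod e).val) = χ g
    rw [ZMod.val_one_eq_one_mod, ← pow_eq_pow_mod 1 (hG g), pow_one]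
  mul_smul u v χ := by
    ext g
    change χ (g ^ ((u : ZMod e) * v).val) = χ ((g ^ _) ^ _)
    rw [ZMod.val_mul, ← pow_eq_pow_mod _ (hG g), pow_mul]

section gal

variable [NeZero e] (hG : ∀ g : G, g ^ e = 1)
include hG

theorem pw_eq_smul {s : ℕ} (hs : s.Coprime e) (χ : G → ℂ) :
    letI := galAct hG; ZMod.unitOfCoprime s hs • χ = pw s χ := by
  ext g
  change χ (g ^ _) = χ (g ^ s)
  rw [ZMod.coe_unitOfCoprime, ZMod.val_natCast, ← pow_eq_pow_mod _ (hG g)]

theorem smul_irr (h : χ ∈ Irr G) (u : (ZMod e)ˣ) : letI := galAct hG; u • χ ∈ Irr G :=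
  irr_pow h (NeZero.ne e) hG (ZMod.val_coe_unit_coprime u)

theorem Hyp.stab (h : Hyp m G) (U : Subgroup (ZMod e)ˣ) :
    letI := galAct hG; {χ ∈ Irr G | MulAction.stabilizer (ZMod e)ˣ χ = U}.ncard ≤ m := by
  letI := galAct hG
  rcases Set.eq_empty_or_nonempty {χ ∈ Irr G | MulAction.stabilizer (ZMod e)ˣ χ = U} with h0 | ⟨ψ, hψ⟩
  · simp [h0]
  refine le_trans (Set.ncard_le_ncard ?_ (irr_finite.subset fun _ h => h.1)) (h (fieldOf ψ))
  have key : ∀ χ ∈ Irr G, ∀ ψ ∈ Irr G, MulAction.stabilizer (ZMod e)ˣ χ =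
      MulAction.stabilizer (ZMod e)ˣ ψ → fieldOf ψ ≤ fieldOf χ := by
    intro χ hχ ψ hψ he
    refine fieldOf_le (RepCh.of_irr hχ) (RepCh.of_irr hψ) (NeZero.ne e) hG fun s hs h1 => ?_
    have h2 : ZMod.unitOfCoprime s hs ∈ MulAction.stabilizer (ZMod e)ˣ χ :=
      (pw_eq_smul hG hs χ).trans (funext h1)
    rw [he] at h2
    exact congrFun ((pw_eq_smul hG hs ψ).symm.trans h2)
  rintro χ ⟨h1, h2⟩
  exact ⟨h1, le_antisymm (key ψ hψ.1 χ h1 (hψ.2.trans h2.symm)) (key χ h1 ψ hψ.1 (h2.trans hψ.2.symm))⟩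

theorem Hyp.orbit (h : Hyp m G) (hχ : χ ∈ Irr G) :
    letI := galAct hG; (MulAction.orbit (ZMod e)ˣ χ).ncard ≤ m := by
  letI := galAct hG
  refine le_trans (Set.ncard_le_ncard ?_ (irr_finite.subset fun _ h => h.1))
    (h.stab hG (MulAction.stabilizer (ZMod e)ˣ χ))
  rintro _ ⟨u, rfl⟩
  refine ⟨smul_irr hG hχ u, ?_⟩
  ext v
  simp only [MulAction.mem_stabilizer_iff]
  rw [smul_comm, smul_left_cancel_iff]

theorem Hyp.card_irr (h : Hyp m G) : (Irr G).ncard ≤ m * m ^ (4 * e.primeFactors.card) := by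
  letI := galAct hG
  obtain ⟨S, hS, hS'⟩ := units_gen e (NeZero.ne e)
  have h1 := card_subgroups h.pos S
  rw [hS'] at h1
  have h2 : m ^ (2 * S.card) ≤ m ^ (4 * e.primeFactors.card) :=
    Nat.pow_le_pow_right h.pos (by omega)
  rw [Set.ncard_eq_toFinset_card _ irr_finite]
  rw [Set.ncard_eq_toFinset_card _ (Set.toFinite _)] at h1
  refine (Finset.card_le_mul_card_image_of_maps_to (f := fun χ => MulAction.stabilizer (ZMod e)ˣ χ)
    ?_ m ?_).trans (Nat.mul_le_mul_left _ (h1.trans h2))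
  · intro χ hχ
    simp only [Set.Finite.mem_toFinset, Set.mem_setOf_eq, le_top, relIndex_top_right, true_and] at hχ ⊢
    rw [MulAction.index_stabilizer]
    exact h.orbit hG hχ
  · intro U _
    refine le_trans (le_of_eq ?_) (h.stab hG U)
    rw [← Set.ncard_coe_finset]
    congr 1
    ext; simp

end gal

/-- The irreducible characters with values in the `p`-power cyclotomic field. -/
noncomputable def XS (p e : ℕ) (G : Type) [Group G] [Fintype G] : Finset (G → ℂ) :=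
  (irr_finite (G := G)).toFinset.filter fun χ => Fix p e ⊤ χ

theorem mem_XS : χ ∈ XS p e G ↔ χ ∈ Irr G ∧ Fix p e ⊤ χ := by simp [XS]

/-- `c` and `-1` generate the units modulo the `p`-part of `e`. -/
def Gen (p e c : ℕ) : Prop := c.Coprime e ∧ ∀ u : (ZMod (p ^ e.factorization p))ˣ, ∃ j : ℕ,
  (u : ZMod (p ^ e.factorization p)) = c ^ j ∨ (u : ZMod (p ^ e.factorization p)) = -c ^ j

theorem exists_gen (hp : p.Prime) (he : e ≠ 0) : ∃ c, Gen p e c := by
  have : NeZero e := ⟨he⟩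
  obtain ⟨g, hg⟩ := units_prime_pow hp (e.factorization p)
  obtain ⟨c, hc⟩ := ZMod.unitsMap_surjective (Nat.ordProj_dvd e p) g
  refine ⟨(c : ZMod e).val, ZMod.val_coe_unit_coprime c, fun u => ?_⟩
  have h1 : (((c : ZMod e).val : ℕ) : ZMod (p ^ e.factorization p)) = g := by
    rw [← hc, ZMod.unitsMap_val, ZMod.natCast_val]
  obtain ⟨j, hj | hj⟩ := hg u <;> exact ⟨j, by simp [hj, h1]⟩

/-- Period under the power map. -/
noncomputable def per (c : ℕ) (χ : G → ℂ) : ℕ := Function.minimalPeriod (pw c) χ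

theorem iterate_pw (c j : ℕ) (χ : G → ℂ) : (pw c)^[j] χ = pw (c ^ j) χ := by
  induction j with
  | zero => ext; simp [pw]
  | succ j ih => rw [Function.iterate_succ_apply', ih]; ext; simp [pw, ← pow_mul, pow_succ']

theorem Hyp.card_per (h : Hyp m G) (he : e ≠ 0) (hG : ∀ g : G, g ^ e = 1) {c : ℕ}
    (hc : Gen p e c) : (∀ χ ∈ Irr G, 1 ≤ per c χ ∧ per c χ ≤ m) ∧
      ∀ d, ((XS p e G).filter fun χ => per c χ = d).card ≤ 4 * m := by
  have : NeZero e := ⟨he⟩
  letI := galAct hG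
  let u : (ZMod e)ˣ := ZMod.unitOfCoprime c hc.1
  have hper : ∀ χ : G → ℂ, per c χ = MulAction.period u χ := fun χ => by
    rw [MulAction.period_eq_minimalPeriod, per]
    congr 1
    ext1 ψ
    exact (pw_eq_smul hG hc.1 ψ).symm
  constructor
  · intro χ hχ
    rw [hper]
    refine ⟨MulAction.period_pos_of_orderOf_pos (orderOf_pos u) χ, le_trans ?_ (h.orbit hG hχ)⟩
    rw [← Finset.card_range (MulAction.period u χ), ← Set.ncard_coe_finset]
    refine Set.ncard_le_ncard_of_injOn (fun j => u ^ j • χ) (fun j _ => ⟨_, rfl⟩) ?_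
      (Set.finite_range _)
    intro i hi j hj hij
    simp only [Finset.coe_range, Set.mem_Iio] at hi hj
    rw [MulAction.period_eq_minimalPeriod] at hi hj
    simp only [← smul_iterate_apply] at hij
    exact Function.iterate_injOn_Iio_minimalPeriod hi hj hij
  intro d
  have hq := Nat.ordProj_dvd e p
  have : NeZero (p ^ e.factorization p) := ⟨ne_zero_of_dvd_ne_zero he hq⟩
  have hker : ∀ χ ∈ XS p e G, ∀ v w : (ZMod e)ˣ, ZMod.unitsMap hq v = ZMod.unitsMap hq w →
      v • χ = w • χ := by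
    intro χ hχ v w hvw
    have h1 : ZMod.unitsMap hq (w⁻¹ * v) = 1 := by simp [hvw]
    have h2 : (w⁻¹ * v) • χ = χ := by
      funext x
      refine (mem_XS.mp hχ).2 _ (ZMod.val_coe_unit_coprime _) ?_ (mem_top x)
      rw [← ZMod.natCast_eq_natCast_iff, ZMod.natCast_val, ← ZMod.unitsMap_val hq, h1]; simp
    rwa [mul_smul, inv_smul_eq_iff] at h2
  have hu : ((ZMod.unitsMap hq u : (ZMod _)ˣ) : ZMod (p ^ e.factorization p)) = c := by
    rw [ZMod.unitsMap_val, ZMod.coe_unitOfCoprime, ZMod.cast_natCast hq]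
  have hm1 : ZMod.unitsMap hq (-1) = -1 := by
    ext
    rw [ZMod.unitsMap_val, ← ZMod.castHom_apply (h := hq), Units.val_neg, Units.val_neg, map_neg,
      Units.val_one, Units.val_one, map_one]
  have hall : ∀ v : (ZMod e)ˣ, ∃ j : ℕ, ZMod.unitsMap hq v = ZMod.unitsMap hq (u ^ j) ∨
      ZMod.unitsMap hq v = ZMod.unitsMap hq (-1 * u ^ j) := by
    intro v
    obtain ⟨j, hj⟩ := hc.2 (ZMod.unitsMap hq v)
    refine ⟨j, hj.imp (fun hj => Units.ext ?_) (fun hj => Units.ext ?_)⟩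
    · rw [hj, map_pow, Units.val_pow_eq_pow_val, hu]
    · rw [hj, map_mul, hm1, map_pow, Units.val_mul, Units.val_pow_eq_pow_val, hu]; simp
  let T : (G → ℂ) → Prop × Prop := fun χ =>
    ((-1 : (ZMod e)ˣ) • χ = χ, (-1 : (ZMod e)ˣ) • χ = u ^ (d / 2) • χ)
  have key : ∀ χ ∈ XS p e G, ∀ ψ ∈ XS p e G, per c χ = d → per c ψ = d → T χ = T ψ →
      MulAction.stabilizer (ZMod e)ˣ χ ≤ MulAction.stabilizer (ZMod e)ˣ ψ := by
    intro χ hχ ψ hψ h1 h2 hT v hv
    rw [hper] at h1 h2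
    simp only [T, Prod.mk.injEq, eq_iff_iff] at hT
    rw [MulAction.mem_stabilizer_iff] at hv ⊢
    have h3 : ∀ j : ℕ, u ^ j • χ = χ ↔ d ∣ j := fun j => h1 ▸ MulAction.pow_smul_eq_iff_period_dvd
    have h4 : ∀ j : ℕ, u ^ j • ψ = ψ ↔ d ∣ j := fun j => h2 ▸ MulAction.pow_smul_eq_iff_period_dvd
    obtain ⟨j, hj | hj⟩ := hall v
    · rw [hker χ hχ _ _ hj, h3] at hv
      rw [hker ψ hψ _ _ hj, h4]; exact hv
    · rw [hker χ hχ _ _ hj] at hv
      rw [hker ψ hψ _ _ hj, mul_comm, mul_smul]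
      have h5 : (-1 : (ZMod e)ˣ) • χ = u ^ j • χ := by
        conv_lhs => rw [← hv, smul_smul]
        simp
      have h6 : d ∣ j + j := by
        rw [← h3, pow_add, mul_smul, ← h5, smul_smul, mul_comm]; exact hv
      by_cases h7 : d ∣ j
      · rw [(h3 j).mpr h7] at h5
        rw [hT.1.mp h5, h4]; exact h7
      · obtain ⟨k, hk⟩ := h6
        have h8 : Odd k := by
          rcases Nat.even_or_odd k with ⟨r, rfl⟩ | h
          · exact absurd ⟨r, by nlinarith⟩ h7
          · exact h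
        obtain ⟨r, rfl⟩ := h8
        have h9 : j = d / 2 + d * r := by
          have : j + j = 2 * (d * r) + d := by rw [hk]; ring
          omega
        have h10 : d / 2 + d / 2 = d := by
          have : j + j = 2 * (d * r) + d := by rw [hk]; ring
          omega
        rw [h9, pow_add, mul_smul, (h3 _).mpr (Dvd.intro _ rfl)] at h5
        rw [hT.2.mp h5, smul_smul, ← pow_add, h4]
        exact ⟨r + 1, by rw [h9]; linarith⟩
  refine (Finset.card_le_mul_card_image_of_maps_to (f := T) (t := Finset.univ)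
    (fun _ _ => Finset.mem_univ _) m ?_).trans (by simp [mul_comm])
  intro b _
  rcases Finset.eq_empty_or_nonempty
    (((XS p e G).filter fun χ => per c χ = d).filter fun χ => T χ = b) with h0 | ⟨ψ, hψ⟩
  · simp [h0]
  refine le_trans ?_ (h.stab hG (MulAction.stabilizer (ZMod e)ˣ ψ))
  rw [← Set.ncard_coe_finset]
  refine Set.ncard_le_ncard ?_ (irr_finite.subset fun _ h => h.1)
  intro χ hχ
  simp only [Finset.coe_filter, Finset.mem_filter, Set.mem_setOf_eq] at hχ hψ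
  exact ⟨(mem_XS.mp hχ.1.1).1, le_antisymm
    (key χ hχ.1.1 ψ hψ.1.1 hχ.1.2 hψ.1.2 (hχ.2.trans hψ.2.symm))
    (key ψ hψ.1.1 χ hχ.1.1 hψ.1.2 hχ.1.2 (hψ.2.trans hχ.2.symm))⟩

theorem Hyp.card_XS (h : Hyp m G) (hp : p.Prime) (he : e ≠ 0) (hG : ∀ g : G, g ^ e = 1) :
    (XS p e G).card ≤ 4 * m * m := by
  obtain ⟨c, hc⟩ := exists_gen hp he
  obtain ⟨h1, h2⟩ := h.card_per he hG hc
  simpa using Finset.card_le_mul_card_image_of_maps_to (f := per c) (t := Finset.Icc 1 m)
    (fun χ hχ => Finset.mem_Icc.mpr (h1 χ (mem_XS.mp hχ).1)) (4 * m) fun d _ => h2 d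

/-- Weighted number of `p`-cyclotomic characters. -/
noncomputable def wt (p e c : ℕ) (G : Type) [Group G] [Fintype G] : ℝ :=
  ∑ χ ∈ XS p e G, (per c χ : ℝ)⁻¹

theorem Hyp.wt_le (h : Hyp m G) (he : e ≠ 0) (hG : ∀ g : G, g ^ e = 1) {c : ℕ}
    (hc : Gen p e c) : wt p e c G ≤ 4 * m * (1 + Real.log m) := by
  obtain ⟨h1, h2⟩ := h.card_per he hG hc
  unfold wt
  rw [← Finset.sum_fiberwise_of_maps_to (g := per c) (t := Finset.Icc 1 m)
    (fun χ hχ => Finset.mem_Icc.mpr (h1 χ (mem_XS.mp hχ).1))]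
  calc _ ≤ ∑ d ∈ Finset.Icc 1 m, 4 * m * (d : ℝ)⁻¹ := by
        refine Finset.sum_le_sum fun d _ => ?_
        rw [Finset.sum_congr rfl (g := fun _ => (d : ℝ)⁻¹)
          (fun χ hχ => by rw [(Finset.mem_filter.mp hχ).2]), Finset.sum_const, nsmul_eq_mul]
        gcongr
        exact_mod_cast h2 d
    _ = 4 * m * (harmonic m : ℝ) := by
        rw [← Finset.mul_sum, harmonic_eq_sum_Icc]; simp
    _ ≤ _ := by gcongr; exact harmonic_le_one_add_log m

end Pool.Agent.P.MP_530519_al
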