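import Pool.Agent.P.MP_530519_al.Ext

/-! Characters with values in the `p`-power cyclotomic field over every linear character of
`p`-power order of a normal subgroup of a solvable group. -/

namespace Pool.Agent.P.MP_530519_al

open Set Subgroup
open scoped Classical

variable {G : Type} [Group G] [Fintype G] {N M H S : Subgroup G} {l p e : ℕ}
  {β a b χ θ ψ : G → ℂ}

/-- Fixed by the Galois automorphisms that fix the `p`-power roots of unity. -/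
def Fix (p e : ℕ) (H : Subgroup G) (χ : G → ℂ) : Prop :=
  ∀ s : ℕ, s.Coprime e → s ≡ 1 [MOD p ^ e.factorization p] → EqOn (pw s χ) χ H

theorem dvd_ordProj (hp : p.Prime) (he : e ≠ 0) {n j : ℕ} (h1 : n ∣ p ^ j) (h2 : n ∣ e) :
    n ∣ p ^ e.factorization p := by
  obtain ⟨i, -, rfl⟩ := (Nat.dvd_prime_pow hp).mp h1
  exact pow_dvd_pow _ ((hp.pow_dvd_iff_le_factorization he).mp h2)

theorem pow_eq_self_of {R : Type*} [Monoid R] (hp : p.Prime) (he : e ≠ 0) {x : R} {j s : ℕ}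
    (h1 : x ^ p ^ j = 1) (h2 : x ^ e = 1) (hs : s ≡ 1 [MOD p ^ e.factorization p]) :
    x ^ s = x := by
  have h3 : x ^ p ^ e.factorization p = 1 := orderOf_dvd_iff_pow_eq_one.mp
    (dvd_ordProj hp he (orderOf_dvd_of_pow_eq_one h1) (orderOf_dvd_of_pow_eq_one h2))
  rw [pow_eq_pow_mod s h3, hs, ← pow_eq_pow_mod 1 h3, pow_one]

theorem exists_s (hp : p.Prime) (he : e ≠ 0) (hl : l.Prime) (hne : l ≠ p) :
    ∃ s : ℕ, s.Coprime e ∧ s ≡ 1 [MOD p ^ e.factorization p] ∧ l ∣ s + 1 := by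
  set q := p ^ e.factorization p
  have hb : 0 < e / q * l := Nat.mul_pos (Nat.ordCompl_pos p he) hl.pos
  have hc : q.Coprime (e / q * l) := Nat.Coprime.pow_left _
    (Nat.Coprime.mul_right (Nat.coprime_ordCompl hp he) ((Nat.coprime_primes hp hl).mpr hne.symm))
  obtain ⟨s, h1, h2⟩ := Nat.chineseRemainder hc 1 (e / q * l - 1)
  have h3 : e / q * l ∣ s + 1 := by
    have := h2.add_right 1
    rw [Nat.sub_add_cancel hb] at this
    exact (Nat.modEq_zero_iff_dvd.mp (this.trans (Nat.modEq_zero_iff_dvd.mpr dvd_rfl)))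
  refine ⟨s, ?_, h1, (Dvd.intro_left _ rfl).trans h3⟩
  rw [← Nat.ordProj_mul_ordCompl_eq_self e p]
  refine Nat.Coprime.mul_right ?_ ?_
  · exact (Nat.coprime_iff_gcd_eq_one.mpr (h1.gcd_eq.trans (by simp)))
  · exact Nat.Coprime.coprime_dvd_right ((Dvd.intro _ rfl).trans h3) (by simp)

theorem cj_of_ch (h : Ch N χ) {y : G} (hy : y ∈ N) : EqOn (cj y χ) χ N :=
  fun x hx => h.cl y hy x hx

theorem cj_ext {N₂ : Subgroup G} {y : G} (hy : ∀ x ∈ N, y * x * y⁻¹ ∈ N) (he : EqOn χ θ N)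
    (hi : EqOn (cj y θ) θ N) : EqOn χ (cj y χ) N :=
  fun x hx => (he hx).trans ((hi hx).symm.trans (he (hy x hx)).symm)

variable (hp : p.Prime) (he : e ≠ 0) (hG : ∀ g : G, g ^ e = 1)
include hp he hG

theorem ext_odd (h : Ab N M l) (hl : l.Prime) (hne : l ≠ p) (h2 : l ≠ 2) (hθ : Ir N θ)
    (hi : ∀ y ∈ M, EqOn (cj y θ) θ N) (hf : Fix p e N θ) :
    ∃ χ, (Ir M χ ∧ (∀ y ∈ M, EqOn (cj y χ) χ M) ∧ Fix p e M χ) ∧ EqOn χ θ N := by
  obtain ⟨s, hs, hs1, hs2⟩ := exists_s hp he hl hne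
  refine h.loop hl (fun N θ => Ir N θ ∧ (∀ y ∈ M, EqOn (cj y θ) θ N) ∧ Fix p e N θ) ?_
    N θ le_rfl h.1 ⟨hθ, hi, hf⟩
  rintro N₁ N₂ β θ₁ h1 h3 h4 hr hβ ⟨hθ, hi, hf⟩
  have hn₁ : Nm N₁ M := (h.mono h1 (h3.trans h4)).nm
  have hn₂ : Nm N₂ M := (h.mono (h1.trans h3) h4).nm
  obtain ⟨χ₀, hχ₀, he₀⟩ := hβ.exists_ext hl (hn₁.mono h3 h4) hr hθ fun y hy => hi y (h4 hy)
  have hpe : ∀ {χ t}, t.Coprime e → t ≡ 1 [MOD p ^ e.factorization p] → EqOn χ θ₁ N₁ →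
      EqOn χ (pw t χ) N₁ := fun ht ht1 he' x hx =>
    (he' hx).trans ((hf _ ht ht1 hx).symm.trans (he' (N₁.pow_mem hx _)).symm)
  obtain ⟨j, -, hj⟩ := hβ.unique h3 hr hχ₀ (hχ₀.pw he hG hs) (hθ.congr he₀.symm) (hpe hs hs1 he₀)
  obtain ⟨k, hk⟩ := hl.odd_of_ne_two h2
  have uniq : ∀ {χ χ'}, Ir N₂ χ → Ir N₂ χ' → EqOn χ θ₁ N₁ → EqOn χ χ' N₁ →
      EqOn (pw s χ) χ N₂ → EqOn (pw s χ') χ' N₂ → EqOn χ' χ N₂ := by
    intro χ χ' hχ hχ' h5 h6 h7 h8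
    obtain ⟨i, -, hi⟩ := hβ.unique h3 hr hχ hχ' (hθ.congr h5.symm) h6
    have h9 : EqOn (tw β (2 * i) χ) χ N₂ := by
      intro x hx
      have h10 : β (x ^ s) ^ i * χ (x ^ s) = β x ^ i * χ x :=
        (hi (N₂.pow_mem hx s)).trans ((h8 hx).trans (hi hx).symm)
      have h11 : χ (x ^ s) = χ x := h7 hx
      have h12 : β x ^ ((s + 1) * i) = β x ^ 0 := hβ.pow_congr hx
        (Nat.modEq_zero_iff_dvd.mpr (hs2.mul_right i))
      rw [hβ.map_pow hx, h11] at h10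
      simp only [tw]
      calc β x ^ (2 * i) * χ x = β x ^ i * (β x ^ i * χ x) := by ring
        _ = β x ^ ((s + 1) * i) * χ x := by rw [← h10]; ring
        _ = χ x := by rw [h12]; simp
    have h10 := hβ.free hl h3 hr hχ (hθ.congr h5.symm) h9
    have h11 : l ∣ i := ((Nat.coprime_primes hl Nat.prime_two).mpr h2).dvd_of_dvd_mul_left h10
    intro x hx
    rw [← hi hx, tw, hβ.pow_congr hx (Nat.modEq_zero_iff_dvd.mpr h11)]; simp
  have hχ := hβ.ir (j * (k + 1)) hχ₀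
  have he₁ : EqOn (tw β (j * (k + 1)) χ₀) θ₁ N₁ := fun x hx => by
    simp [tw, (hβ.ker x (h3 hx)).mpr hx, he₀ hx]
  have hfix : EqOn (pw s (tw β (j * (k + 1)) χ₀)) (tw β (j * (k + 1)) χ₀) N₂ := by
    intro x hx
    have h5 : β x ^ j * χ₀ x = χ₀ (x ^ s) := hj hx
    simp only [pw, tw]
    rw [← h5, hβ.map_pow hx, ← pow_mul, ← mul_assoc, ← pow_add]
    congr 1
    refine hβ.pow_congr hx ?_
    obtain ⟨c, hc⟩ := hs2
    apply Nat.ModEq.add_right_cancel' (j * (k + 1))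
    have h6 : s * (j * (k + 1)) + j + j * (k + 1) = j + l * (c * (j * (k + 1))) := by
      rw [← mul_assoc l, ← hc]; ring
    have h7 : j * (k + 1) + j * (k + 1) = j + l * j := by rw [hk]; ring
    rw [h6, h7]
    simp [Nat.ModEq]
  refine ⟨_, ⟨hχ, fun y hy => ?_, fun t ht ht1 => ?_⟩, he₁⟩
  · refine uniq hχ (hχ.cj hn₂ hy) he₁ (cj_ext (N₂ := N₂) (hn₁.2 y hy) he₁ (hi y hy)) hfix
      fun x hx => ?_
    have := hfix (hn₂.2 y hy x hx)
    simp only [pw, cj] at this ⊢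
    rwa [conj_pow] at this
  · refine uniq hχ (hχ.pw he hG ht) he₁ (hpe ht ht1 he₁) hfix fun x hx => ?_
    have := hfix (N₂.pow_mem hx t)
    simp only [pw] at this ⊢
    rwa [pow_right_comm'] at this
  where pow_right_comm' {x : G} {a b : ℕ} : (x ^ a) ^ b = (x ^ b) ^ a := by
          rw [← pow_mul, mul_comm, pow_mul]

omit hp in
theorem ext_two (h : Ab N M 2) (hs : S ⊔ N = M) (hθ : Ir N θ)
    (hi : ∀ y ∈ M, EqOn (cj y θ) θ N) (hf : Fix p e N θ) (ho : Odd (mu (S ⊓ N) θ (fun _ => 1))) :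
    ∃ χ, (Ir M χ ∧ (∀ y ∈ M, EqOn (cj y χ) χ M) ∧ Fix p e M χ ∧
      Odd (mu (S ⊓ M) χ (fun _ => 1))) ∧ EqOn χ θ N := by
  have hl := Nat.prime_two
  refine h.loop hl (fun N θ => Ir N θ ∧ (∀ y ∈ M, EqOn (cj y θ) θ N) ∧ Fix p e N θ ∧
    Odd (mu (S ⊓ N) θ (fun _ => 1))) ?_ N θ le_rfl h.1 ⟨hθ, hi, hf, ho⟩
  rintro N₁ N₂ β θ₁ h1 h3 h4 hr hβ ⟨hθ, hi, hf, ho⟩
  have hn₁ : Nm N₁ M := (h.mono h1 (h3.trans h4)).nm
  have hn₂ : Nm N₂ M := (h.mono (h1.trans h3) h4).nm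
  have hS : S ≤ M := hs ▸ le_sup_left
  have hs₁ : S ⊔ N₁ = M := le_antisymm (sup_le hS (h3.trans h4)) (hs ▸ sup_le_sup_left h1 S)
  have hr' : (S ⊓ N₂ ⊓ N₁).relIndex (S ⊓ N₂) = 2 :=
    (rel_of_sup (hn₁.mono h3 h4) (inf_sup_of_sup hn₁ hs₁ h3 h4)).trans hr
  have hinf : S ⊓ N₂ ⊓ N₁ = S ⊓ N₁ := by rw [inf_assoc, inf_eq_right.mpr h3]
  have hsum : ∀ {χ}, Ir N₂ χ → EqOn χ θ₁ N₁ →
      Odd (mu (S ⊓ N₂) χ (fun _ => 1) + mu (S ⊓ N₂) (tw β 1 χ) (fun _ => 1)) := by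
    intro χ hχ h5
    have h6 := (hβ.inf S).ipH_sum inf_le_left hr' χ (fun _ => 1)
    have h8 : ipH (S ⊓ N₁) χ (fun _ => 1) = ipH (S ⊓ N₁) θ₁ (fun _ => 1) :=
      ipH_congr (fun x hx => h5 hx.2) (fun _ _ => rfl)
    rw [Finset.sum_range_succ, Finset.sum_range_one, show tw β 0 χ = χ from by ext; simp [tw],
      hinf, h8,
      (hθ.ch.mono inf_le_right).ipH_eq_mu (Ch.one _),
      (hχ.ch.mono inf_le_right).ipH_eq_mu (Ch.one _),
      ((hβ.ch 1 hχ.ch).mono inf_le_right).ipH_eq_mu (Ch.one _)] at h6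
    have h7 : mu (S ⊓ N₂) χ (fun _ => 1) + mu (S ⊓ N₂) (tw β 1 χ) (fun _ => 1) =
      mu (S ⊓ N₁) θ₁ (fun _ => 1) := by exact_mod_cast h6
    rwa [h7]
  have uniq : ∀ {χ χ'}, Ir N₂ χ → Ir N₂ χ' → EqOn χ θ₁ N₁ → EqOn χ χ' N₁ →
      mu (S ⊓ N₂) χ' (fun _ => 1) = mu (S ⊓ N₂) χ (fun _ => 1) → EqOn χ' χ N₂ := by
    intro χ χ' hχ hχ' h5 h6 h7
    obtain ⟨i, hi2, hi⟩ := hβ.unique h3 hr hχ hχ' (hθ.congr h5.symm) h6
    interval_cases i
    · intro x hx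
      rw [← hi hx]; simp [tw]
    · have h8 := hsum hχ h5
      have h9 : mu (S ⊓ N₂) (tw β 1 χ) (fun _ => 1) = mu (S ⊓ N₂) χ' (fun _ => 1) :=
        mu_congr (fun x hx => hi hx.2) (fun _ _ => rfl)
      rw [h9, h7, ← two_mul] at h8
      exact absurd h8 (by simp)
  obtain ⟨χ, hχ, he₁, ho'⟩ : ∃ χ, Ir N₂ χ ∧ EqOn χ θ₁ N₁ ∧ Odd (mu (S ⊓ N₂) χ (fun _ => 1)) := by
    obtain ⟨χ₀, hχ₀, he₀⟩ := hβ.exists_ext hl (hn₁.mono h3 h4) hr hθ fun y hy => hi y (h4 hy)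
    have := hsum hχ₀ he₀
    by_cases h5 : Odd (mu (S ⊓ N₂) χ₀ (fun _ => 1))
    · exact ⟨χ₀, hχ₀, he₀, h5⟩
    · refine ⟨tw β 1 χ₀, hβ.ir 1 hχ₀, fun x hx => ?_, ?_⟩
      · simp [tw, (hβ.ker x (h3 hx)).mpr hx, he₀ hx]
      · rw [Nat.odd_add] at this; grind
  refine ⟨χ, ⟨hχ, fun y hy => ?_, fun t ht ht1 => ?_, ho'⟩, he₁⟩
  · have h5 : S ⊔ N ≤ stabC hn₂ χ := by
      refine sup_le (fun z hz => ⟨hS hz, ?_⟩) ((h1.trans h3).trans (le_stabC hn₂ hχ.ch.cl))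
      refine uniq hχ (hχ.cj hn₂ (hS hz)) he₁
        (cj_ext (N₂ := N₂) (hn₁.2 z (hS hz)) he₁ (hi z (hS hz))) ?_
      unfold mu
      rw [← ipH_cj (N := S ⊓ N₂) (y := z) (fun x => ?_) χ (fun _ => 1)]
      · rfl
      · simp only [mem_inf, hn₂.mem_iff (hS hz)]
        rw [S.mul_mem_cancel_right (S.inv_mem hz), S.mul_mem_cancel_left hz]
    exact (h5 (hs ▸ hy)).2
  · refine uniq hχ (hχ.pw he hG ht) he₁ (fun x hx =>
      (he₁ hx).trans ((hf _ ht ht1 hx).symm.trans (he₁ (N₁.pow_mem hx _)).symm)) ?_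
    exact mu_pw (b := fun _ => 1) he hG ht (hχ.ch.mono inf_le_right) (Ch.one _)

omit hp he hG in
theorem ipH_inv (H : Subgroup G) (a b : G → ℂ) :
    ipH H (fun x => a x * b x⁻¹) (fun _ => 1) = ipH H a b := by
  simp [ipH]

omit hp he hG in
/-- Restriction to a supplement preserves inner products over a character that stays
irreducible. -/
theorem ipH_res (h : Nm N M) (hs : S ⊔ N = M) (hθ : Ir N θ) (hR : ipH (S ⊓ N) θ θ = 1)
    (hχ : Ch M χ) (hψ : Ch M ψ) {c c' : ℂ} (h1 : EqOn χ (fun x => c * θ x) N)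
    (h2 : EqOn ψ (fun x => c' * θ x) N) : ipH S χ ψ = ipH M χ ψ := by
  have hS : S ≤ M := hs ▸ le_sup_left
  have hξ : Ch M (fun x => χ x * ψ x⁻¹) := hχ.mul hψ.inv
  rw [← ipH_inv S, ← ipH_inv M, hξ.ipH_eq_mu (Ch.one _), (hξ.mono hS).ipH_eq_mu (Ch.one _)]
  have h3 : mu (S ⊓ N) (fun x => χ x * ψ x⁻¹) (fun _ => 1) =
      mu N (fun x => χ x * ψ x⁻¹) (fun _ => 1) := by
    unfold mu
    rw [ipH_inv, ipH_inv, ipH_of_mul h1 h2 inf_le_right, ipH_of_mul h1 h2 le_rfl, hR, hθ.ipH_self]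
  generalize (fun x => χ x * ψ x⁻¹) = ξ at hξ h3
  have hone : ∀ K : Subgroup G, mu K (fun _ => 1) (fun _ => 1) = 1 := fun K => (Ir.one K).mu_self
  have hmono : ∀ {K L : Subgroup G} {η}, Ch L η → K ≤ L →
      mu L η (fun _ => 1) ≤ mu K η (fun _ => 1) := fun hη hK => by
    simpa [hone] using hη.mu_le hK (Ch.one _) (Ir.one _)
  rw [hξ.mu_expand (inf_le_right.trans h.1) (Ch.one _), hξ.mu_expand h.1 (Ch.one _)] at h3
  have h4 := (Finset.sum_eq_sum_iff_of_le (fun η hη => Nat.mul_le_mul_left _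
    (hmono ((IrS_ir hη).ch.mono h.1) inf_le_right))).mp h3.symm
  have hπ := (Ch.one S).ind hS
  have h5 : mu N (ind S M fun _ => 1) (fun _ => 1) = 1 := by
    apply mu_of_ipH
    have h6 : ipH N (ind S M fun _ => 1) (fun _ => 1) =
        (Nat.card N : ℂ)⁻¹ * ((Nat.card S : ℂ)⁻¹ * (Nat.card M * Nat.card (S ⊓ N : Subgroup G))) := by
      unfold ipH ind
      congr 1
      have key : ∀ y, (∑ x, if x ∈ N then (if y ∈ M ∧ y * x * y⁻¹ ∈ S then (1 : ℂ) else 0) else 0)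
          = if y ∈ M then (Nat.card (S ⊓ N : Subgroup G) : ℂ) else 0 := by
        intro y
        by_cases hy : y ∈ M
        · rw [if_pos hy, ← mul_one (Nat.card (S ⊓ N : Subgroup G) : ℂ), ← sum_ite_one,
            ← Equiv.sum_comp (MulAut.conj y).toEquiv (fun x => if x ∈ S ⊓ N then (1 : ℂ) else 0)]
          refine Finset.sum_congr rfl fun x _ => ?_
          simp only [MulEquiv.toEquiv_eq_coe, EquivLike.coe_coe, MulAut.conj_apply, hy, true_and,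
            mem_inf, h.mem_iff hy]
          by_cases hx : x ∈ N <;> simp [hx]
        · simp [hy]
      rw [← sum_ite_one, ← Finset.sum_congr rfl fun y _ => key y, Finset.sum_comm, Finset.mul_sum]
      refine Finset.sum_congr rfl fun x _ => ?_
      split_ifs <;> simp
    have h7 : Nat.card M * Nat.card (S ⊓ N : Subgroup G) = Nat.card S * Nat.card N := by
      rw [← card_mul_rel h.1, ← card_mul_rel (inf_le_left : S ⊓ N ≤ S), rel_of_sup h hs]; ring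
    have h8 : (Nat.card M : ℂ) * Nat.card (S ⊓ N : Subgroup G) = Nat.card S * Nat.card N := by
      exact_mod_cast h7
    rw [h6, h8]
    have := cardH_ne N
    have := cardH_ne S
    field_simp
    simp
  congr 1
  rw [hξ.mu_expand hS (Ch.one _), hξ.mu_expand le_rfl (Ch.one _)]
  refine Finset.sum_congr rfl fun η hη => ?_
  have hη' := IrS_ir hη
  by_cases h0 : mu M ξ η = 0
  · simp [h0]
  congr 1
  have h6 := Nat.eq_of_mul_eq_mul_left (Nat.pos_of_ne_zero h0) (h4 η hη)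
  by_cases h7 : mu M η (fun _ => 1) = 0
  · rw [h7]
    by_contra h8
    have h9 := hmono (hη'.ch.mono hS) (inf_le_left : S ⊓ N ≤ S)
    obtain ⟨η₁, hη₁, he₁⟩ := (Ir.one M).exists_IrS
    have hne : η ≠ η₁ := by
      rintro rfl
      rw [← mu_congr he₁ (fun _ _ => rfl), hone] at h7
      exact one_ne_zero h7
    rw [hπ.mu_expand h.1 (Ch.one _)] at h5
    have h10 := Finset.sum_le_sum_of_subset (f := fun η => mu M (ind S M fun _ => 1) η *
      mu N η (fun _ => 1)) (show {η, η₁} ⊆ IrS M from by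
        intro x hx
        rcases Finset.mem_insert.mp hx with rfl | hx
        · exact hη
        · exact Finset.mem_singleton.mp hx ▸ hη₁)
    rw [h5, Finset.sum_pair hne, mu_ind hS _ hη'.ch, mu_ind hS _ (IrS_ir hη₁).ch,
      ← mu_congr (fun _ _ => rfl) (he₁.mono hS), ← mu_congr (he₁.mono h.1) (fun _ _ => rfl),
      hone, hone, mu_comm S] at h10
    have h11 : 0 < mu S η (fun _ => 1) * mu N η (fun _ => 1) :=
      Nat.mul_pos (Nat.pos_of_ne_zero h8) (by omega)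
    omega
  · have h8 := hη'.eqOn' (Ir.one M) h7
    rw [mu_congr h8 (fun _ _ => rfl), mu_congr (h8.mono hS) (fun _ _ => rfl), hone, hone]

/-- The invariant carried through the induction. -/
def Good (p e : ℕ) (N : Subgroup G) (θ : G → ℂ) : Prop :=
  Ir N θ ∧ Fix p e N θ ∧ (∃ R, Syl p N R ∧ ipH R θ θ = 1) ∧
    (p ≠ 2 → ∃ S, Syl 2 N S ∧ Odd (mu S θ (fun _ => 1)))

theorem Good.step (h : Ab N M l) (hl : l.Prime) (hθ : Good p e N θ)
    (hi : ∀ y ∈ M, EqOn (cj y θ) θ N) : ∃ χ, Good p e M χ ∧ mu N χ θ ≠ 0 := by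
  obtain ⟨h1, h2, ⟨R, hR, hR'⟩, h3⟩ := hθ
  obtain ⟨k, hk⟩ := h.rel hl
  have hnd : ∀ r : ℕ, r.Prime → r ≠ l → ¬ r ∣ N.relIndex M := fun r hr hne hd =>
    hne ((Nat.prime_dvd_prime_iff_eq hr hl).mp (hr.dvd_of_dvd_pow (hk ▸ hd)))
  by_cases hlp : l = p
  · subst hlp
    obtain ⟨χ, hχ, hm⟩ := exists_over h.1 h1.ch (fun n => n ≠ 0 ∧ (l ≠ 2 → Odd n)) (by simp)
      (by intro a b; simp only [Nat.odd_add]; grind)
      (by rw [mu_ind_rel h.nm h1 hi, hk]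
          exact ⟨pow_ne_zero _ hl.ne_zero, fun h => (hl.odd_of_ne_two h).pow⟩)
    have hm0 := left_ne_zero_of_mul hm.1
    have h4 := clifford_inv h.nm hχ h1 hm0 hi
    obtain ⟨S, hS, rfl⟩ := hR.ext hl h.1
    have h5 := ipH_res h.nm (hS.sup hl h) h1 hR' hχ.ch hχ.ch h4 h4
    rw [hχ.ipH_self] at h5
    refine ⟨χ, ⟨hχ, fun s hs hs1 => ?_, ⟨S, hS, h5⟩, fun h6 => ?_⟩, hm0⟩
    · have h6 : EqOn (pw s χ) (fun x => mu N χ θ * θ x) N := fun x hx => by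
        have := h2 s hs hs1 hx
        simp only [pw] at this ⊢
        rw [h4 (N.pow_mem hx s), ← this]
      refine (hχ.pw he hG hs).eqOn hχ ?_
      rw [← ipH_res h.nm (hS.sup hl h) h1 hR' (hχ.pw he hG hs).ch hχ.ch h6 h4,
        ipH_congr (b := χ) (fun x hx => ?_) (fun _ _ => rfl), h5]
      · exact one_ne_zero
      · obtain ⟨j, hj⟩ := hS.2.1 ⟨x, hx⟩
        simp only [pw]
        rw [pow_eq_self_of hl he (congrArg Subtype.val hj) (hG x) hs1]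
    · obtain ⟨T, hT, hT'⟩ := h3 h6
      refine ⟨T, hT.up Nat.prime_two h.1 (hnd 2 Nat.prime_two h6.symm), ?_⟩
      have h7 : mu T χ (fun _ => 1) = mu N χ θ * mu T θ (fun _ => 1) := by
        apply mu_of_ipH
        rw [ipH_congr (h4.mono hT.1) (fun _ _ => rfl), ipH_mul_left,
          (h1.ch.mono hT.1).ipH_eq_mu (Ch.one _)]
        simp
      rw [h7]
      exact (Nat.odd_mul.mp (hm.2 h6)).1.mul hT'
  have fin : ∀ χ, Ir M χ → Fix p e M χ → EqOn χ θ N →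
      (p ≠ 2 → ∃ S, Syl 2 M S ∧ Odd (mu S χ (fun _ => 1))) → ∃ χ, Good p e M χ ∧ mu N χ θ ≠ 0 := by
    intro χ hχ hf he' ho
    refine ⟨χ, ⟨hχ, hf, ⟨R, hR.up hp h.1 (hnd p hp (Ne.symm hlp)), ?_⟩, ho⟩, ?_⟩
    · rw [ipH_congr (he'.mono hR.1) (he'.mono hR.1), hR']
    · rw [mu_congr he' (fun _ _ => rfl), h1.mu_self]; exact one_ne_zero
  by_cases hl2 : l = 2
  · subst hl2
    obtain ⟨T, hT, hT'⟩ := h3 (Ne.symm hlp)
    obtain ⟨S, hS, rfl⟩ := hT.ext hl h.1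
    obtain ⟨χ, ⟨h4, -, h5, h6⟩, h7⟩ := ext_two he hG h (hS.sup hl h) h1 hi h2 hT'
    rw [inf_eq_left.mpr hS.1] at h6
    exact fin χ h4 h5 h7 fun _ => ⟨S, hS, h6⟩
  · obtain ⟨χ, ⟨h4, -, h5⟩, h7⟩ := ext_odd hp he hG h hl hlp hl2 h1 hi h2
    refine fin χ h4 h5 h7 fun h8 => ?_
    obtain ⟨T, hT, hT'⟩ := h3 h8
    refine ⟨T, hT.up Nat.prime_two h.1 (hnd 2 Nat.prime_two (Ne.symm hl2)), ?_⟩
    rwa [mu_congr (h7.mono hT.1) (fun _ _ => rfl)]

theorem Good.exists [Group.IsSolvable G] (h : Nm N H) (hθ : Good p e N θ) :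
    ∃ χ, Ir H χ ∧ Fix p e H χ ∧ mu N χ θ ≠ 0 := by
  induction hn : 2 * Nat.card H - Nat.card N using Nat.strong_induction_on generalizing N H θ with
  | _ n ih =>
  have h1 := card_le_of_le h.1
  by_cases hT : stabC h θ = H
  · by_cases hN : N = H
    · subst hN
      exact ⟨θ, hθ.1, hθ.2.1, by rw [hθ.1.mu_self]; exact one_ne_zero⟩
    obtain ⟨l, M, hl, hM, hne, hab⟩ := exists_ab h hN
    obtain ⟨ψ, hψ, h2⟩ := hθ.step hp he hG hab hl fun y hy => (hT.ge (hM.1 hy)).2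
    have h3 := card_le_of_le hM.1
    have h4 : Nat.card N < Nat.card M :=
      lt_of_not_ge fun h5 => hne (eq_of_le_of_card_ge hab.1 h5)
    obtain ⟨χ, hχ, h5, h6⟩ := ih _ (by omega) hM hψ rfl
    refine ⟨χ, hχ, h5, ?_⟩
    have := (hχ.ch.mono hM.1).mu_le hab.1 hθ.1.ch hψ.1
    exact (lt_of_lt_of_le (Nat.pos_of_ne_zero (mul_ne_zero h6 h2)) this).ne'
  · have h2 := le_stabC h hθ.1.ch.cl
    have h3 := card_le_of_le h2
    have h4 : Nat.card (stabC h θ) < Nat.card H :=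
      lt_of_not_ge fun h5 => hT (eq_of_le_of_card_ge (stabC_le h θ) h5)
    obtain ⟨ψ, hψ, h5, h6⟩ := ih _ (by omega) (h.mono h2 (stabC_le h θ)) hθ rfl
    obtain ⟨h7, h8⟩ := clifford_ind h hθ.1 hψ h6
    refine ⟨_, h7, fun s hs hs1 x _ => ?_, h8⟩
    simp only [pw, ind]
    congr 1
    refine Finset.sum_congr rfl fun y _ => ?_
    rw [← conj_pow, pow_mem_iff' hG hs]
    split_ifs with h9
    · exact h5 s hs hs1 h9.2
    · rfl

/-- Over every linear character of `p`-power order of a normal subgroup there is an irreducible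
character with values in the `p`-power cyclotomic field. -/
theorem exists_fix_over [Group.IsSolvable G] (h : Nm N H) (h1 : θ 1 = 1)
    (hm : ∀ x ∈ N, ∀ y ∈ N, θ (x * y) = θ x * θ y) (hθ : ∀ x ∈ N, θ x ^ p = 1) :
    ∃ χ, Ir H χ ∧ Fix p e H χ ∧ mu N χ θ ≠ 0 := by
  have hpow : ∀ x ∈ N, ∀ s : ℕ, θ (x ^ s) = θ x ^ s := by
    intro x hx s
    induction s with
    | zero => simpa using h1
    | succ s ih => rw [pow_succ, hm _ (N.pow_mem hx s) _ hx, ih, pow_succ]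
  refine Good.exists hp he hG h ⟨Ir.of_mul h1 hm, fun s _ hs1 x hx => ?_, ?_, fun h2 => ?_⟩
  · simp only [pw]
    rw [hpow x hx]
    exact pow_eq_self_of (j := 1) hp he (by simpa using hθ x hx) (by rw [← hpow x hx, hG, h1]) hs1
  · obtain ⟨R, hR⟩ := Syl.exists hp N
    exact ⟨R, hR, (Ir.of_mul h1 fun x hx y hy => hm x (hR.1 hx) y (hR.1 hy)).ipH_self⟩
  · obtain ⟨S, hS⟩ := Syl.exists Nat.prime_two N
    refine ⟨S, hS, ?_⟩
    rw [mu_congr (b := fun _ => 1) (fun x hx => ?_) (fun _ _ => rfl), (Ir.one S).mu_self]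
    · exact odd_one
    · obtain ⟨j, hj⟩ := hS.2.1 ⟨x, hx⟩
      have h3 : θ x ^ 2 ^ j = 1 := by
        rw [← hpow x (hS.1 hx), show x ^ 2 ^ j = 1 from congrArg Subtype.val hj, h1]
      have h4 := Nat.dvd_gcd (orderOf_dvd_of_pow_eq_one h3)
        (orderOf_dvd_of_pow_eq_one (hθ x (hS.1 hx)))
      rw [Nat.Coprime.gcd_eq_one (Nat.Coprime.pow_left j
        ((Nat.coprime_primes Nat.prime_two hp).mpr h2.symm)), Nat.dvd_one, orderOf_eq_one_iff] at h4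
      exact h4

end Pool.Agent.P.MP_530519_al
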