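import Mathlib

/-! Irreducible characters and their fields of values. -/

namespace Pool.Agent.P.MP_530519_al

/-- The complex irreducible characters of `G`. -/
def Irr (G : Type) [Group G] : Set (G → ℂ) :=
  {χ | ∃ (V : Type) (_ : AddCommGroup V) (_ : Module ℂ V) (_ : FiniteDimensional ℂ V)
    (ρ : Representation ℂ G V), ρ.IsIrreducible ∧ χ = ρ.character}

/-- The field of values `ℚ(χ)`. -/
noncomputable def fieldOf {G : Type} (χ : G → ℂ) : IntermediateField ℚ ℂ :=
  IntermediateField.adjoin ℚ (Set.range χ)

/-- The largest number of irreducible characters of `G` with one field of values. -/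
noncomputable def mult (G : Type) [Group G] : ℕ :=
  sSup (Set.range fun F : IntermediateField ℚ ℂ => {χ ∈ Irr G | fieldOf χ = F}.ncard)

end Pool.Agent.P.MP_530519_al
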