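import Pool.Agent.P.MP_530519_al.Count

/-! Characters over linear characters of abelian normal subgroups. -/

namespace Pool.Agent.P.MP_530519_al

open Set Subgroup
open scoped Classical

variable {G : Type} [Group G] [Fintype G] {m e p : ℕ} {χ : G → ℂ} {B C : Subgroup G}

noncomputable def lam (B : Subgroup G) (φ : B →* ℂˣ) : G → ℂ :=
  fun x => if h : x ∈ B then φ ⟨x, h⟩ else 0

theorem lam_apply (φ : B →* ℂˣ) {x : G} (h : x ∈ B) : lam B φ x = φ ⟨x, h⟩ := dif_pos h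

theorem lam_one (φ : B →* ℂˣ) : lam B φ 1 = 1 := by
  rw [lam_apply φ B.one_mem]; exact congrArg Units.val φ.map_one

theorem lam_mul (φ : B →* ℂˣ) : ∀ x ∈ B, ∀ y ∈ B, lam B φ (x * y) = lam B φ x * lam B φ y := by
  intro x hx y hy
  rw [lam_apply φ hx, lam_apply φ hy, lam_apply φ (B.mul_mem hx hy), ← Units.val_mul, ← map_mul]
  rfl

theorem lam_ir (φ : B →* ℂˣ) : Ir B (lam B φ) := Ir.of_mul (lam_one φ) (lam_mul φ)

theorem lam_inj {φ ψ : B →* ℂˣ} (h : EqOn (lam B φ) (lam B ψ) B) : φ = ψ := by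
  ext x
  have := h x.2
  rwa [lam_apply φ x.2, lam_apply ψ x.2] at this

theorem lam_pow (φ : B →* ℂˣ) (s : ℕ) : EqOn (pw s (lam B φ)) (lam B (φ ^ s)) B := by
  intro x hx
  simp only [pw]
  rw [lam_apply φ (B.pow_mem hx s), lam_apply _ hx, MonoidHom.pow_apply, ← map_pow]; rfl

/-- The conjugation action on linear characters. -/
@[reducible] noncomputable def dualAct (B : Subgroup G) [B.Normal] : MulAction G (B →* ℂˣ) where
  smul y φ := φ.comp (MulAut.conjNormal y⁻¹).toMonoidHom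
  one_smul φ := by
    ext x
    change (φ (MulAut.conjNormal 1⁻¹ x) : ℂ) = _
    simp
  mul_smul y z φ := by
    ext x
    change (φ (MulAut.conjNormal (y * z)⁻¹ x) : ℂ) =
      φ (MulAut.conjNormal z⁻¹ (MulAut.conjNormal y⁻¹ x))
    simp

theorem over_rel [hB : B.Normal] (hχ : χ ∈ Irr G) {φ ψ : B →* ℂˣ} (h1 : mu B χ (lam B φ) ≠ 0)
    (h2 : mu B χ (lam B ψ) ≠ 0) : letI := dualAct B; ∃ y : G, y • φ = ψ := by
  obtain ⟨y, -, hy⟩ := clifford (nm_top B) (ir_top.mpr hχ) (lam_ir φ) (lam_ir ψ) h1 h2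
  refine ⟨y⁻¹, lam_inj fun x hx => ?_⟩
  rw [← hy hx, cj, lam_apply _ hx, lam_apply _ (hB.conj_mem x hx y)]
  change (φ (MulAut.conjNormal y⁻¹⁻¹ _) : ℂ) = _
  congr 2
  ext; simp

theorem card_le_over [B.Normal] (hC : ∀ c ∈ C, ∀ b ∈ B, c * b = b * c) (T : Finset (B →* ℂˣ))
    (X : Finset (G → ℂ)) (hX : ∀ χ ∈ X, χ ∈ Irr G)
    (hT : ∀ φ ∈ T, ∃ χ ∈ X, mu B χ (lam B φ) ≠ 0) : T.card ≤ C.index * X.card := by
  letI := dualAct B
  choose! F hF hF' using hT
  refine Finset.card_le_mul_card_image_of_maps_to hF _ fun χ hχ => ?_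
  rcases Finset.eq_empty_or_nonempty (T.filter fun φ => F φ = χ) with h0 | ⟨φ, hφ⟩
  · simp [h0]
  have h1 : C ≤ MulAction.stabilizer G φ := fun c hc => by
    ext x
    change (φ (MulAut.conjNormal c⁻¹ x) : ℂ) = _
    congr 2
    ext
    simp [mul_assoc, ← hC c hc x x.2]
  refine le_trans ?_ (index_antitone h1)
  rw [MulAction.index_stabilizer, ← Set.ncard_coe_finset]
  refine Set.ncard_le_ncard (fun ψ hψ => ?_) (Set.finite_range _)
  simp only [Finset.coe_filter, Finset.mem_filter, Set.mem_setOf_eq] at hφ hψ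
  exact over_rel (hX χ hχ) (hφ.2 ▸ hF' φ hφ.1) (hψ.2 ▸ hF' ψ hψ.1)

@[reducible] def commB (hB : ∀ x ∈ B, ∀ y ∈ B, x * y = y * x) : CommGroup B :=
  { (inferInstance : Group B) with mul_comm := fun a b => Subtype.ext (hB a a.2 b b.2) }

instance exp_ne (H : Type) [Group H] [Finite H] : NeZero ((Monoid.exponent H : ℕ) : ℂ) :=
  ⟨by exact_mod_cast Monoid.exponent_ne_zero_of_finite⟩

theorem card_dual (hB : ∀ x ∈ B, ∀ y ∈ B, x * y = y * x) : Nat.card (B →* ℂˣ) = Nat.card B := by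
  letI := commB hB
  exact CommGroup.card_monoidHom_of_hasEnoughRootsOfUnity B ℂ

theorem finite_dual (hB : ∀ x ∈ B, ∀ y ∈ B, x * y = y * x) : Finite (B →* ℂˣ) :=
  Nat.finite_of_card_ne_zero (by rw [card_dual hB]; exact Nat.card_pos.ne')

theorem exists_over_lam (φ : B →* ℂˣ) : ∃ χ ∈ Irr G, mu B χ (lam B φ) ≠ 0 := by
  by_contra hc
  push Not at hc
  have h1 := (lam_ir φ).ch.ind (le_top : B ≤ ⊤)
  have h2 : ∀ x, ind B ⊤ (lam B φ) x = 0 := fun x => by
    rw [h1.cl.expand (mem_top x)]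
    refine Finset.sum_eq_zero fun η hη => ?_
    rw [h1.ipH_eq_mu (IrS_ir hη).ch, mu_ind le_top _ (IrS_ir hη).ch, mu_comm,
      hc η (ir_top.mp (IrS_ir hη))]
    simp
  have h3 := h2 1
  simp [ind, lam_one, B.one_mem] at h3

theorem card_le_irr [B.Normal] (hB : ∀ x ∈ B, ∀ y ∈ B, x * y = y * x) :
    Nat.card B ≤ B.index * (Irr G).ncard := by
  have := finite_dual hB
  have : Fintype (B →* ℂˣ) := Fintype.ofFinite _
  rw [← card_dual hB, Nat.card_eq_fintype_card, Set.ncard_eq_toFinset_card _ irr_finite]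
  exact card_le_over hB Finset.univ _ (by simp) fun φ _ => by simpa using exists_over_lam φ

theorem exists_XS_over [Group.IsSolvable G] [B.Normal] (hp : p.Prime) (he : e ≠ 0)
    (hG : ∀ g : G, g ^ e = 1) (hB : ∀ x ∈ B, x ^ p = 1) (φ : B →* ℂˣ) :
    ∃ χ ∈ XS p e G, mu B χ (lam B φ) ≠ 0 := by
  obtain ⟨χ, h1, h2, h3⟩ := exists_fix_over hp he hG (nm_top B) (lam_one φ) (lam_mul φ)
    (fun x hx => by
      rw [lam_apply φ hx, ← Units.val_pow_eq_pow_val, ← map_pow,
        show (⟨x, hx⟩ : B) ^ p = 1 from Subtype.ext (hB x hx), map_one, Units.val_one])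
  exact ⟨χ, mem_XS.mpr ⟨ir_top.mp h1, h2⟩, h3⟩

theorem over_pw (he : e ≠ 0) (hG : ∀ g : G, g ^ e = 1) {s : ℕ} (hs : s.Coprime e)
    (hχ : χ ∈ Irr G) (φ : B →* ℂˣ) : mu B (pw s χ) (lam B (φ ^ s)) = mu B χ (lam B φ) := by
  rw [← mu_congr (fun _ _ => rfl) (lam_pow φ s),
    mu_pw he hG hs ((ir_top.mpr hχ).ch.mono le_top) (lam_ir φ).ch]

theorem Hyp.totient_le [B.Normal] (h : Hyp m G) (hC : ∀ c ∈ C, ∀ b ∈ B, c * b = b * c)
    (φ : B →* ℂˣ) : (orderOf φ).totient ≤ C.index * m := by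
  have he : Nat.card G ≠ 0 := Nat.card_pos.ne'
  have : NeZero (Nat.card G) := ⟨he⟩
  have hG : ∀ g : G, g ^ Nat.card G = 1 := fun _ => pow_card_eq_one'
  letI := galAct hG
  have ho : orderOf φ ∣ Nat.card G := orderOf_dvd_of_pow_eq_one (by
    ext x
    rw [MonoidHom.pow_apply, ← map_pow, show x ^ Nat.card G = 1 from Subtype.ext (hG x)]; simp)
  have : NeZero (orderOf φ) := ⟨ne_zero_of_dvd_ne_zero he ho⟩
  obtain ⟨χ, hχ, h1⟩ := exists_over_lam φ
  have hfin : (MulAction.orbit (ZMod (Nat.card G))ˣ χ).Finite := Set.finite_range _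
  have h2 := card_le_over hC
    (Finset.univ.image fun u : (ZMod (orderOf φ))ˣ => φ ^ (u : ZMod (orderOf φ)).val)
    hfin.toFinset (by
      intro ψ hψ
      obtain ⟨u, rfl⟩ := hfin.mem_toFinset.mp hψ
      exact smul_irr hG hχ u) (by
      intro ψ hψ
      obtain ⟨u, -, rfl⟩ := Finset.mem_image.mp hψ
      obtain ⟨v, rfl⟩ := ZMod.unitsMap_surjective ho u
      refine ⟨v • χ, hfin.mem_toFinset.mpr ⟨v, rfl⟩, ?_⟩
      have : φ ^ ((ZMod.unitsMap ho v : (ZMod _)ˣ) : ZMod (orderOf φ)).val =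
          φ ^ (v : ZMod (Nat.card G)).val := by
        have h5 : ((ZMod.unitsMap ho v : (ZMod _)ˣ) : ZMod (orderOf φ)).val ≡
            (v : ZMod (Nat.card G)).val [MOD orderOf φ] := by
          rw [← ZMod.natCast_eq_natCast_iff, ZMod.natCast_zmod_val,
            ZMod.unitsMap_val, ZMod.natCast_val]
        exact (pow_eq_pow_iff_modEq (x := φ)).mpr h5
      rw [this]
      exact (over_pw he hG (ZMod.val_coe_unit_coprime v) hχ φ).trans_ne h1)
  rw [Finset.card_image_of_injective, Finset.card_univ, ZMod.card_units_eq_totient,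
    ← Set.ncard_eq_toFinset_card _ hfin] at h2
  · exact h2.trans (Nat.mul_le_mul_left _ (h.orbit hG hχ))
  · intro u v huv
    exact Units.ext (ZMod.val_injective _
      (pow_injOn_Iio_orderOf (ZMod.val_lt _) (ZMod.val_lt _) huv))

theorem Hyp.omega_le [B.Normal] (h : Hyp m G) (hB : ∀ x ∈ B, ∀ y ∈ B, x * y = y * x)
    (hC : ∀ c ∈ C, ∀ b ∈ B, c * b = b * c) :
    2 ^ (Nat.card B).primeFactors.card ≤ 2 * (C.index * m) := by
  have := finite_dual hB
  obtain ⟨φ, hφ⟩ := Monoid.exists_orderOf_eq_exponent (G := B →* ℂˣ)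
    (by exact Monoid.ExponentExists.of_finite (G := B →* ℂˣ))
  have h1 : (Nat.card B).primeFactors ⊆ (orderOf φ).primeFactors := by
    intro r hr
    have hr' := Nat.prime_of_mem_primeFactors hr
    have := Fact.mk hr'
    obtain ⟨ψ, hψ⟩ := exists_prime_orderOf_dvd_card' (G := B →* ℂˣ) r
      (card_dual hB ▸ Nat.dvd_of_mem_primeFactors hr)
    exact hr'.mem_primeFactors (hφ ▸ hψ ▸ Monoid.order_dvd_exponent ψ) (orderOf_pos φ).ne'
  exact (Nat.pow_le_pow_right (by norm_num) (Finset.card_le_card h1)).trans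
    ((two_pow_le_totient (orderOf_pos φ).ne').trans
      (Nat.mul_le_mul_left _ (h.totient_le hC φ)))

theorem omega_mul_le {a b x y : ℕ} (ha : a ≠ 0) (hb : b ≠ 0)
    (h1 : 2 ^ a.primeFactors.card ≤ 2 ^ x) (h2 : b ≤ 2 ^ y) :
    (a * b).primeFactors.card ≤ x + y := by
  rw [Nat.primeFactors_mul ha hb]
  have h3 := (Nat.pow_le_pow_iff_right (by norm_num)).mp h1
  have h4 := (Nat.pow_le_pow_iff_right (by norm_num)).mp ((two_pow_card_primeFactors_le hb).trans h2)
  exact (Finset.card_union_le _ _).trans (by omega)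

/-- Groups of bounded derived length. -/
theorem card_le_of_derived {a : ℕ} (hm : m < 2 ^ a) (d : ℕ) :
    ∀ (G : Type) [Group G] [Fintype G], Hyp m G → derivedSeries G d = ⊥ →
      Nat.card G ≤ 2 ^ (a * (20 * a) ^ d) := by
  induction d with
  | zero =>
    intro G _ _ _ h
    rw [derivedSeries_zero] at h
    rw [← card_top, h, card_bot]
    exact Nat.one_le_two_pow
  | succ d ih =>
    intro G _ _ h hd
    set B := derivedSeries G d
    have hB : ∀ x ∈ B, ∀ y ∈ B, x * y = y * x := fun x hx y hy =>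
      commutatorElement_eq_one_iff_mul_comm.mp (by
        rw [← mem_bot, ← hd]; exact commutator_mem_commutator hx hy)
    have : Fintype (G ⧸ B) := Fintype.ofFinite _
    have h1 : B.index ≤ 2 ^ (a * (20 * a) ^ d) :=
      ih (G ⧸ B) (h.of_surj _ (QuotientGroup.mk'_surjective B)) (by
        rw [← map_derivedSeries_eq (QuotientGroup.mk'_surjective B), Subgroup.map_eq_bot_iff,
          QuotientGroup.ker_mk'])
    have ha : 1 ≤ a := by
      rcases Nat.eq_zero_or_pos a with rfl | h0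
      · have := h.pos; omega
      · exact h0
    have hx : a ≤ a * (20 * a) ^ d := Nat.le_mul_of_pos_right _ (by positivity)
    rw [pow_succ, ← mul_assoc]
    generalize a * (20 * a) ^ d = x at h1 hx
    have h2 : 2 ^ (Nat.card B).primeFactors.card ≤ 2 ^ (x + a + 1) :=
      (h.omega_le hB hB).trans (by
        rw [pow_succ', pow_add]; exact Nat.mul_le_mul_left _ (Nat.mul_le_mul h1 hm.le))
    have h3 := omega_mul_le Nat.card_pos.ne' FiniteIndex.index_ne_zero h2 h1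
    rw [card_mul_index] at h3
    have : NeZero (Nat.card G) := ⟨Nat.card_pos.ne'⟩
    have h4 := h.card_irr (e := Nat.card G) (fun _ => pow_card_eq_one')
    have h5 : m * m ^ (4 * (Nat.card G).primeFactors.card) ≤ 2 ^ (a * (4 * (x + a + 1 + x) + 1)) := by
      rw [← pow_succ', pow_mul]
      exact (Nat.pow_le_pow_left hm.le _).trans (Nat.pow_le_pow_right (by positivity) (by omega))
    calc Nat.card G = Nat.card B * B.index := B.card_mul_index.symm
      _ ≤ 2 ^ x * 2 ^ (a * (4 * (x + a + 1 + x) + 1)) * 2 ^ x :=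
        Nat.mul_le_mul ((card_le_irr hB).trans (Nat.mul_le_mul h1 (h4.trans h5))) h1
      _ ≤ _ := by
        rw [← pow_add, ← pow_add]
        exact Nat.pow_le_pow_right (by norm_num) (by nlinarith)

theorem wt_step {Q : Type} [Group Q] [Fintype Q] (f : G →* Q) (hf : Function.Surjective f)
    {c : ℕ} (O : Finset (G → ℂ)) (hO : O ⊆ XS p e G) (hO' : ∀ χ ∈ O, ∀ ψ : Q → ℂ, χ ≠ ψ ∘ f) :
    wt p e c Q + ∑ χ ∈ O, (per c χ : ℝ)⁻¹ ≤ wt p e c G := by
  have hinj : Function.Injective fun ψ : Q → ℂ => ψ ∘ f := hf.injective_comp_right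
  have hper : ∀ ψ : Q → ℂ, per c (ψ ∘ f) = per c ψ := fun ψ => by
    unfold per
    rw [Function.minimalPeriod_eq_minimalPeriod_iff]
    intro n
    simp only [Function.IsPeriodicPt, Function.IsFixedPt, iterate_pw]
    rw [← hinj.eq_iff (a := pw (c ^ n) ψ)]
    have : pw (c ^ n) (ψ ∘ f) = pw (c ^ n) ψ ∘ f := by ext; simp [pw]
    rw [this]
  have h1 : wt p e c Q = ∑ χ ∈ (XS p e Q).image (fun ψ => ψ ∘ f), (per c χ : ℝ)⁻¹ := by
    rw [Finset.sum_image fun _ _ _ _ h => hinj h]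
    simp only [hper, wt]
  rw [h1, ← Finset.sum_union]
  · refine Finset.sum_le_sum_of_subset_of_nonneg (Finset.union_subset ?_ hO)
      fun _ _ _ => by positivity
    intro χ hχ
    obtain ⟨ψ, hψ, rfl⟩ := Finset.mem_image.mp hχ
    rw [mem_XS] at hψ ⊢
    refine ⟨irr_comp f hf hψ.1, fun s h1 h2 x _ => ?_⟩
    have := hψ.2 s h1 h2 (mem_top (f x))
    simpa [pw] using this
  · rw [Finset.disjoint_left]
    intro χ h1 h2
    obtain ⟨ψ, -, rfl⟩ := Finset.mem_image.mp h1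
    exact hO' _ h2 ψ rfl

theorem wt_mono {Q : Type} [Group Q] [Fintype Q] (f : G →* Q) (hf : Function.Surjective f)
    (p e c : ℕ) : wt p e c Q ≤ wt p e c G := by
  simpa using wt_step (p := p) (e := e) (c := c) f hf ∅ (by simp) (by simp)

theorem wt_succ [Group.IsSolvable G] [B.Normal] {Q : Type} [Group Q] [Fintype Q] (f : G →* Q)
    (hf : Function.Surjective f) (h : Hyp m G) (hp : p.Prime) (he : e ≠ 0)
    (hG : ∀ g : G, g ^ e = 1) {c : ℕ} (hc : Gen p e c) (hB : ∀ x ∈ B, ∀ y ∈ B, x * y = y * x)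
    (hB' : ∀ x ∈ B, x ^ p = 1) (h0 : B ≠ ⊥) (hk : ∀ x ∈ B, f x = 1) :
    wt p e c Q + 1 ≤ wt p e c G := by
  have := finite_dual hB
  have : Nontrivial (B →* ℂˣ) := by
    rw [← Finite.one_lt_card_iff_nontrivial, card_dual hB]
    exact (one_lt_card_iff_ne_bot B).mpr h0
  obtain ⟨φ, hφ⟩ := exists_ne (1 : B →* ℂˣ)
  obtain ⟨χ, hχ, h1⟩ := exists_XS_over hp he hG hB' φ
  obtain ⟨hχ1, hχ2⟩ := mem_XS.mp hχ
  have h2 := ((h.card_per he hG hc).1 χ hχ1).1
  have hco : ∀ j, (c ^ j).Coprime e := fun j => hc.1.pow_left j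
  have h3 := wt_step (c := c) f hf ((Finset.range (per c χ)).image fun j => (pw c)^[j] χ) (by
    intro ψ hψ
    obtain ⟨j, -, rfl⟩ := Finset.mem_image.mp hψ
    rw [iterate_pw, mem_XS]
    refine ⟨irr_pow hχ1 he hG (hco j), fun s h4 h5 x _ => ?_⟩
    have := hχ2 s h4 h5 (mem_top (x ^ c ^ j))
    simp only [pw] at this ⊢
    rwa [← pow_mul, mul_comm, pow_mul] at this) (by
    intro ψ hψ ξ hξ
    obtain ⟨j, -, rfl⟩ := Finset.mem_image.mp hψ
    rw [iterate_pw] at hξ
    have h4 := (over_pw he hG (hco j) hχ1 φ).trans_ne h1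
    have h5 : ipH B (pw (c ^ j) χ) (lam B (φ ^ c ^ j)) =
        ξ 1 * ipH B (lam B 1) (lam B (φ ^ c ^ j)) := by
      rw [← ipH_mul_left]
      refine ipH_congr (fun x hx => ?_) (fun _ _ => rfl)
      rw [hξ, lam_apply _ hx]; simp [hk x hx]
    have h6 : ipH B (lam B 1) (lam B (φ ^ c ^ j)) ≠ 0 := fun h0 =>
      h4 (mu_of_ipH (by rw [h5, h0]; simp))
    have h7 := lam_inj ((lam_ir _).eqOn (lam_ir _) h6)
    have h8 : φ ^ e = 1 := by
      ext x
      rw [MonoidHom.pow_apply, ← map_pow, show x ^ e = 1 from Subtype.ext (hG x)]; simp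
    exact hφ (by exact (pow_eq_one_iff_of_coprime (a := φ) (hco j)).mp ⟨h7.symm, h8⟩))
  refine le_trans (le_of_eq ?_) h3
  congr 1
  rw [Finset.sum_image, Finset.sum_congr rfl (g := fun _ => (per c χ : ℝ)⁻¹)]
  · simp only [Finset.sum_const, Finset.card_range, nsmul_eq_mul]
    rw [mul_inv_cancel₀]
    exact_mod_cast (by omega : per c χ ≠ 0)
  · intro j _
    unfold per
    rw [Function.minimalPeriod_apply_iterate (Function.minimalPeriod_pos_iff_mem_periodicPts.mp h2)]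
  · intro i hi j hj hij
    exact Function.iterate_injOn_Iio_minimalPeriod (by simpa [per] using hi)
      (by simpa [per] using hj) hij

end Pool.Agent.P.MP_530519_al
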