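import Pool.Agent.P.MP_530519_al.Syl

/-! Extending invariant characters across a prime index. -/

namespace Pool.Agent.P.MP_530519_al

open Set Subgroup
open scoped Classical

variable {G : Type} [Group G] [Fintype G] {N M H S : Subgroup G} {l : ℕ} {β a b χ θ : G → ℂ}

/-- Twist by a power of a linear character. -/
def tw (β : G → ℂ) (j : ℕ) (a : G → ℂ) : G → ℂ := fun x => β x ^ j * a x

/-- Power map on functions. -/
def pw (s : ℕ) (a : G → ℂ) : G → ℂ := fun x => a (x ^ s)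

theorem Lin.one (h : Lin N M l β) : β 1 = 1 := (h.ker 1 M.one_mem).mpr N.one_mem

theorem Lin.map_pow (h : Lin N M l β) {x : G} (hx : x ∈ M) (s : ℕ) : β (x ^ s) = β x ^ s := by
  induction s with
  | zero => simpa using h.one
  | succ s ih => rw [pow_succ, h.mul _ (M.pow_mem hx s) _ hx, ih, pow_succ]

theorem Lin.pow_congr (h : Lin N M l β) {x : G} (hx : x ∈ M) {i j : ℕ} (hij : i ≡ j [MOD l]) :
    β x ^ i = β x ^ j := by
  rw [pow_eq_pow_mod i (h.pow x hx), pow_eq_pow_mod j (h.pow x hx), hij]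

theorem Lin.inf (h : Lin N M l β) (S : Subgroup G) : Lin (S ⊓ M ⊓ N) (S ⊓ M) l β :=
  ⟨fun x hx y hy => h.mul x hx.2 y hy.2,
    fun x hx => (h.ker x hx.2).trans ⟨fun h => ⟨hx, h⟩, fun h => h.2⟩, fun x hx => h.pow x hx.2⟩

theorem Lin.ipH_sum (h : Lin N M l β) (hN : N ≤ M) (hl : N.relIndex M = l) (a b : G → ℂ) :
    ∑ j ∈ Finset.range l, ipH M (tw β j a) b = ipH N a b := by
  have h1 := ipH_sum_left (H := M) (Finset.range l) (fun _ => 1) (fun j => tw β j a) b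
  simp only [one_mul] at h1
  rw [← h1]
  unfold ipH
  have h2 : (Nat.card M : ℂ) = Nat.card N * l := by rw [← card_mul_rel hN, hl]; simp
  have h3 : (l : ℂ) ≠ 0 := fun h0 => cardH_ne M (by rw [h2, h0, mul_zero])
  rw [Finset.sum_congr rfl (g := fun g => l * if g ∈ N then a g * b g⁻¹ else 0), ← Finset.mul_sum,
    h2]
  · have := cardH_ne N
    field_simp
  · intro g _
    by_cases hg : g ∈ M
    · simp only [hg, if_true, tw, ← Finset.sum_mul]
      split_ifs with hgN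
      · simp [(h.ker g hg).mpr hgN, mul_assoc]
      · rw [geom_sum_eq (fun h1 => hgN ((h.ker g hg).mp h1)), h.pow g hg]; simp
    · simp [hg, show g ∉ N from fun h => hg (hN h)]

theorem Lin.ch (h : Lin N M l β) (j : ℕ) (hχ : Ch M χ) : Ch M (tw β j χ) :=
  (Ch.of_mul (a := fun x => β x ^ j) (by simp [h.one])
    (fun x hx y hy => by rw [h.mul x hx y hy, mul_pow])).mul hχ

theorem Lin.ir (h : Lin N M l β) (j : ℕ) (hχ : Ir M χ) : Ir M (tw β j χ) := by
  refine (h.ch j hχ.ch).ir ?_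
  rw [← hχ.ipH_self]
  unfold ipH
  congr 1
  refine Finset.sum_congr rfl fun g _ => ?_
  split_ifs with hg
  · have : β g ^ j * β g⁻¹ ^ j = 1 := by
      rw [← mul_pow, ← h.mul g hg _ (M.inv_mem hg), mul_inv_cancel, h.one, one_pow]
    simp only [tw]
    linear_combination (χ g * χ g⁻¹) * this
  · rfl

theorem Lin.van (h : Lin N M l β) (hl : l.Prime) {j : ℕ} (hj : ¬ l ∣ j)
    (he : EqOn (tw β j χ) χ M) (hN : N ≤ M) (hr : N.relIndex M = l) :
    l * ipH M χ χ = ipH N χ χ := by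
  have := Fact.mk hl
  rw [← h.ipH_sum hN hr, Finset.sum_congr rfl (g := fun _ => ipH M χ χ)]
  · simp
  · intro i _
    refine ipH_congr (fun x hx => ?_) (fun _ _ => rfl)
    by_cases hxN : x ∈ N
    · simp [tw, (h.ker x hx).mpr hxN]
    · have h1 : orderOf (β x) = l :=
        orderOf_eq_prime (h.pow x hx) fun h1 => hxN ((h.ker x hx).mp h1)
      have h2 : β x ^ j ≠ 1 := by rwa [Ne, ← orderOf_dvd_iff_pow_eq_one, h1]
      have h3 : β x ^ j * χ x = χ x := he hx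
      have h4 : χ x = 0 := by
        by_contra h5
        exact h2 (mul_left_injective₀ h5 (by simpa using h3))
      simp [tw, h4]

theorem Lin.free (h : Lin N M l β) (hl : l.Prime) (hN : N ≤ M) (hr : N.relIndex M = l)
    (hχ : Ir M χ) (hχ' : Ir N χ) {j : ℕ} (he : EqOn (tw β j χ) χ M) : l ∣ j := by
  by_contra hj
  have := h.van hl hj he hN hr
  rw [hχ.ipH_self, hχ'.ipH_self, mul_one] at this
  exact hl.one_lt.ne' (by exact_mod_cast this)

theorem exists_over (hN : N ≤ M) (hθ : Ch N θ) (P : ℕ → Prop) (h0 : ¬ P 0)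
    (hadd : ∀ a b, P (a + b) → P a ∨ P b) (hP : P (mu N (ind N M θ) θ)) :
    ∃ χ, Ir M χ ∧ P (mu N χ θ * mu N χ θ) := by
  rw [← sum_sq_mu hN hθ] at hP
  have : ∀ s : Finset (G → ℂ), P (∑ η ∈ s, mu N η θ * mu N η θ) →
      ∃ η ∈ s, P (mu N η θ * mu N η θ) := by
    intro s
    induction s using Finset.induction_on with
    | empty => intro h; exact absurd h h0
    | insert a s ha ih =>
      rw [Finset.sum_insert ha]
      intro h
      rcases hadd _ _ h with h | h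
      · exact ⟨a, by simp, h⟩
      · obtain ⟨η, hη, h⟩ := ih h
        exact ⟨η, by simp [hη], h⟩
  obtain ⟨η, hη, h⟩ := this _ hP
  exact ⟨η, IrS_ir hη, h⟩

theorem mu_ind_rel (h : Nm N H) (hθ : Ir N θ) (hi : ∀ y ∈ H, EqOn (cj y θ) θ N) :
    mu N (ind N H θ) θ = N.relIndex H := by
  have h1 := mu_ind_inv h hθ hi
  rw [← card_mul_rel h.1, mul_comm] at h1
  exact Nat.eq_of_mul_eq_mul_left Nat.card_pos h1

theorem ipH_of_mul {e e' : ℂ} {ψ : G → ℂ} (h : EqOn χ (fun x => e * θ x) N)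
    (h' : EqOn ψ (fun x => e' * θ x) N) (hS : S ≤ N) :
    ipH S χ ψ = e * e' * ipH S θ θ := by
  rw [ipH_congr (h.mono hS) (h'.mono hS), ipH_mul_left, ipH_comm, ipH_mul_left, mul_assoc]

theorem Lin.exists_ext (h : Lin N M l β) (hl : l.Prime) (hN : Nm N M) (hr : N.relIndex M = l)
    (hθ : Ir N θ) (hi : ∀ y ∈ M, EqOn (cj y θ) θ N) : ∃ χ, Ir M χ ∧ EqOn χ θ N := by
  obtain ⟨χ, hχ, h0⟩ := exists_over hN.1 hθ.ch (· ≠ 0) (by simp) (by omega)
    (by rw [mu_ind_rel hN hθ hi, hr]; exact hl.ne_zero)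
  have h1 := clifford_inv hN hχ hθ (left_ne_zero_of_mul h0) hi
  have h2 := ipH_of_mul h1 h1 le_rfl
  rw [hθ.ipH_self, mul_one] at h2
  have h3 : ∀ j ∈ Finset.range l, j ≠ 0 → ipH M (tw β j χ) χ = 0 := by
    intro j hj hj0
    by_contra h4
    have h5 := h.van hl (Nat.not_dvd_of_pos_of_lt (Nat.pos_of_ne_zero hj0) (by simpa using hj))
      ((h.ir j hχ).eqOn hχ h4) hN.1 hr
    rw [hχ.ipH_self, mul_one, h2] at h5
    exact hl.prime.not_isSquare ⟨_, by exact_mod_cast h5⟩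
  have h4 := h.ipH_sum hN.1 hr χ χ
  rw [Finset.sum_eq_single 0 h3 (by simp [hl.ne_zero]), h2,
    show tw β 0 χ = χ from by ext; simp [tw], hχ.ipH_self] at h4
  have h5 : mu N χ θ * mu N χ θ = 1 := by exact_mod_cast h4.symm
  refine ⟨χ, hχ, fun x hx => ?_⟩
  rw [h1 hx, Nat.eq_one_of_mul_eq_one_right h5]; simp

theorem Lin.unique (h : Lin N M l β) (hN : N ≤ M) (hr : N.relIndex M = l) {χ' : G → ℂ}
    (hχ : Ir M χ) (hχ' : Ir M χ') (h1 : Ir N χ) (he : EqOn χ χ' N) :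
    ∃ j < l, EqOn (tw β j χ) χ' M := by
  have h2 := h.ipH_sum hN hr χ χ'
  rw [← ipH_congr (fun _ _ => rfl) he, h1.ipH_self] at h2
  obtain ⟨j, hj, h3⟩ := Finset.exists_ne_zero_of_sum_ne_zero (h2.trans_ne one_ne_zero)
  exact ⟨j, by simpa using hj, (h.ir j hχ).eqOn hχ' h3⟩

theorem Ab.loop (h : Ab N M l) (hl : l.Prime) (Q : Subgroup G → (G → ℂ) → Prop)
    (step : ∀ N₁ N₂ β θ₁, N ≤ N₁ → N₁ ≤ N₂ → N₂ ≤ M → N₁.relIndex N₂ = l → Lin N₁ N₂ l β →
      Q N₁ θ₁ → ∃ χ, Q N₂ χ ∧ EqOn χ θ₁ N₁) :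
    ∀ (N₁ : Subgroup G) θ₁, N ≤ N₁ → N₁ ≤ M → Q N₁ θ₁ → ∃ χ, Q M χ ∧ EqOn χ θ₁ N₁ := by
  intro N₁
  induction hn : Nat.card M - Nat.card N₁ using Nat.strong_induction_on generalizing N₁ with
  | _ n ih =>
  intro θ₁ h1 h2 hQ
  by_cases he : N₁ = M
  · exact ⟨θ₁, he ▸ hQ, fun _ _ => rfl⟩
  obtain ⟨N₂, β, h3, h4, h5, h6⟩ := (h.mono h1 h2).exists_step hl he
  obtain ⟨χ, hχ, h7⟩ := step N₁ N₂ β θ₁ h1 h3 h4 h5 h6 hQ
  have h8 := card_mul_rel h3
  have h9 := card_le_of_le h4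
  have h10 : 0 < Nat.card N₁ := Nat.card_pos
  have h11 : Nat.card N₁ < Nat.card N₂ := by rw [← h8, h5]; nlinarith [hl.one_lt]
  obtain ⟨ψ, hψ, h12⟩ := ih _ (by omega) N₂ rfl χ (h1.trans h3) h4 hχ
  exact ⟨ψ, hψ, (h12.mono h3).trans h7⟩

section pw

variable {e s : ℕ} (he : e ≠ 0) (hG : ∀ g : G, g ^ e = 1) (hs : s.Coprime e)
include he hG hs

theorem Ir.pw (h : Ir H χ) : Ir H (pw s χ) :=
  irr_pow (G := H) h he (fun g => Subtype.ext (hG g)) hs

theorem Ch.pw (h : Ch H χ) : Ch H (pw s χ) :=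
  RepCh.pow (G := H) h he (fun g => Subtype.ext (hG g)) hs

theorem mu_pw (ha : Ch H a) (hb : Ch H b) : mu H (pw s a) (pw s b) = mu H a b := by
  obtain ⟨σ, hσ⟩ := exists_gal he hs
  have h1 := congrArg σ (ha.ipH_eq_mu hb)
  apply mu_of_ipH
  rw [map_natCast] at h1
  rw [← h1, ipH_eq, ipH_eq]
  have h2 := fun g : H => RepCh.map_eq (G := H) ha g (Subtype.ext (hG g)) σ hσ
  have h3 := fun g : H => RepCh.map_eq (G := H) hb g (Subtype.ext (hG g)) σ hσ
  simp only [ip, map_mul, map_inv₀, map_natCast, map_sum, h2, h3]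
  rfl

omit he in
theorem pow_mem_iff' (x : G) : x ^ s ∈ H ↔ x ∈ H := by
  refine ⟨fun h => ?_, fun h => H.pow_mem h s⟩
  obtain ⟨m, hm⟩ := exists_pow_eq_self_of_coprime (x := x) (n := s)
    (hs.coprime_dvd_right (orderOf_dvd_of_pow_eq_one (hG x)))
  exact hm ▸ H.pow_mem h m

end pw

end Pool.Agent.P.MP_530519_al
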