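import Pool.Agent.P.MP_530519_al.Main

/-! The two forms of the bound for solvable groups. -/

namespace Pool.Agent.P.MP_530519_al

theorem explicit_bound (G : Type) [Group G] [Finite G] [Group.IsSolvable G] :
    Real.log (Nat.card G) ≤
      mult G * 2 ^ (4 * (Nat.log 2 (Nat.log 2 (mult G) + 1) + 13) ^ 4) := by
  have := Fintype.ofFinite G
  exact Hyp.log_card_le (β := Nat.log 2 (Nat.log 2 (mult G) + 1) + 1)
    (Nat.lt_pow_succ_log_self one_lt_two _) (Nat.lt_pow_succ_log_self one_lt_two _).le hyp_mult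

theorem pow_eight_le (t : ℕ) : (t + 13) ^ 8 ≤ 13 ^ 8 * 2 ^ t := by
  induction t with
  | zero => norm_num
  | succ t ih =>
    have h1 : (13 * (t + 1 + 13)) ^ 8 ≤ (14 * (t + 13)) ^ 8 := Nat.pow_le_pow_left (by omega) _
    rw [mul_pow, mul_pow] at h1
    rw [pow_succ 2]
    generalize (t + 1 + 13) ^ 8 = x at *
    generalize (t + 13) ^ 8 = y at *
    omega

theorem small_factor {ε : ℝ} (hε : 0 < ε) : ∃ C : ℝ, 0 < C ∧ ∀ m : ℕ, 1 ≤ m →
    (2 : ℝ) ^ (4 * (Nat.log 2 (Nat.log 2 m + 1) + 13) ^ 4) ≤ C * (m : ℝ) ^ ε := by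
  refine ⟨2 ^ (ε + 4 * 13 ^ 8 / ε), by positivity, fun m hm => ?_⟩
  have h1 : 2 ^ Nat.log 2 m ≤ m := Nat.pow_log_le_self 2 (by omega)
  have h2 := Nat.pow_log_le_self 2 (Nat.succ_ne_zero (Nat.log 2 m))
  have h3 := (pow_eight_le _).trans (Nat.mul_le_mul_left _ h2)
  generalize Nat.log 2 m = L at *
  rw [Nat.succ_eq_add_one, show 8 = 4 * 2 from rfl, pow_mul] at h3
  generalize (Nat.log 2 (L + 1) + 13) ^ 4 = y at *
  have h4 : (y : ℝ) ^ 2 ≤ 13 ^ 8 * (L + 1) := by exact_mod_cast h3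
  have h5 : ((4 * y : ℕ) : ℝ) ≤ ε + 4 * 13 ^ 8 / ε + L * ε := by
    have h6 : 4 * 13 ^ 8 / ε * ε = 4 * 13 ^ 8 := div_mul_cancel₀ _ hε.ne'
    push_cast
    refine le_of_mul_le_mul_right ?_ hε
    rw [add_mul, add_mul, h6]
    nlinarith [sq_nonneg (ε * y - 2 * 13 ^ 8), mul_le_mul_of_nonneg_left h4 (sq_nonneg ε)]
  calc _ = (2 : ℝ) ^ ((4 * y : ℕ) : ℝ) := (Real.rpow_natCast _ _).symm
    _ ≤ (2 : ℝ) ^ (ε + 4 * 13 ^ 8 / ε + L * ε) := Real.rpow_le_rpow_of_exponent_le one_le_two h5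
    _ = 2 ^ (ε + 4 * 13 ^ 8 / ε) * ((2 : ℝ) ^ L) ^ ε := by
      rw [Real.rpow_add two_pos, Real.rpow_mul zero_le_two, Real.rpow_natCast]
    _ ≤ _ := by
      gcongr
      exact_mod_cast h1

theorem eps_bound {ε : ℝ} (hε : 0 < ε) : ∃ c : ℝ, 0 < c ∧
    ∀ (G : Type) [Group G] [Finite G] [Group.IsSolvable G],
      c * Real.log (Nat.card G) ≤ (mult G : ℝ) ^ (1 + ε) := by
  obtain ⟨C, hC, h⟩ := small_factor hε
  refine ⟨C⁻¹, inv_pos.mpr hC, fun G _ _ _ => ?_⟩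
  have := Fintype.ofFinite G
  have h1 : 1 ≤ mult G := (hyp_mult (G := G)).pos
  have h2 : (0 : ℝ) < mult G := by exact_mod_cast h1
  rw [inv_mul_le_iff₀ hC, Real.rpow_add h2, Real.rpow_one, mul_left_comm]
  exact (explicit_bound G).trans (mul_le_mul_of_nonneg_left (h _ h1) h2.le)

end Pool.Agent.P.MP_530519_al
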