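import Pool.Agent.P.MP_530519_al.Char

/-! Galois action on characters through power maps. -/

namespace Pool.Agent.P.MP_530519_al

open Module IntermediateField

theorem cyc_ext (K : Type) [Field K] [Algebra K ℂ] {e : ℕ} [NeZero e] {ζ : ℂ}
    (hζ : IsPrimitiveRoot ζ e) : IsCyclotomicExtension {e} K K⟮ζ⟯ := by
  change IsCyclotomicExtension {e} K (IntermediateField.adjoin K {ζ}).toSubalgebra
  have : IsIntegral K ζ := ⟨Polynomial.X ^ e - 1, by
    simpa using Polynomial.monic_X_pow_sub_C (1 : K) (NeZero.ne e), by simp [hζ.pow_eq_one]⟩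
  rw [IntermediateField.adjoin_simple_toSubalgebra_of_isAlgebraic this.isAlgebraic]
  exact hζ.adjoin_isCyclotomicExtension K

theorem exists_extend (K : Type) [Field K] [Algebra K ℂ] (τ : K ≃+* K) :
    ∃ σ : ℂ →+* ℂ, ∀ a, σ (algebraMap K ℂ a) = algebraMap K ℂ (τ a) := by
  obtain ⟨ι, v, hv⟩ := exists_isTranscendenceBasis' K ℂ
  have := IsAlgClosed.isAlgClosure_of_transcendence_basis v hv
  let e : Algebra.adjoin K (Set.range v) ≃+* Algebra.adjoin K (Set.range v) :=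
    (hv.1.aevalEquiv.symm.toRingEquiv.trans (MvPolynomial.mapEquiv ι τ)).trans
      hv.1.aevalEquiv.toRingEquiv
  refine ⟨(IsAlgClosure.equivOfEquiv ℂ ℂ e).toRingHom, fun a => ?_⟩
  have h1 : algebraMap K ℂ a = algebraMap (Algebra.adjoin K (Set.range v)) ℂ (algebraMap K _ a) :=
    rfl
  rw [h1]
  change IsAlgClosure.equivOfEquiv ℂ ℂ e _ = _
  rw [IsAlgClosure.equivOfEquiv_algebraMap]
  have h2 : e (algebraMap K _ a) = algebraMap K _ (τ a) := by
    simp only [e, RingEquiv.trans_apply, AlgEquiv.coe_ringEquiv, AlgEquiv.commutes]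
    rw [MvPolynomial.algebraMap_eq, MvPolynomial.mapEquiv_apply, MvPolynomial.map_C,
      ← MvPolynomial.algebraMap_eq, AlgEquiv.commutes]
    rfl
  rw [h2]; rfl

theorem exists_gal {e s : ℕ} (he : e ≠ 0) (hs : s.Coprime e) :
    ∃ σ : ℂ →+* ℂ, ∀ z : ℂ, z ^ e = 1 → σ z = z ^ s := by
  have : NeZero e := ⟨he⟩
  have hζ := Complex.isPrimitiveRoot_exp e he
  set ζ := Complex.exp (2 * Real.pi * Complex.I / e)
  have h0 := cyc_ext ℚ hζ
  have : @IsCyclotomicExtension {e} ℚ ℚ⟮ζ⟯ _ _ DivisionRing.toRatAlgebra := by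
    convert h0
    · rfl
    · exact Subsingleton.elim _ _
  have : NumberField ℚ⟮ζ⟯ := IsCyclotomicExtension.numberField {e} ℚ _
  let τ := (IsCyclotomicExtension.Rat.galEquivZMod e ℚ⟮ζ⟯).symm (ZMod.unitOfCoprime s hs)
  obtain ⟨σ, hσ⟩ := exists_extend ℚ⟮ζ⟯ τ.toRingEquiv
  refine ⟨σ, fun z hz => ?_⟩
  obtain ⟨a, -, rfl⟩ := hζ.eq_pow_of_pow_eq_one hz
  have h1 : (AdjoinSimple.gen ℚ ζ) ^ e = 1 := by
    apply Subtype.ext
    simpa using hζ.pow_eq_one
  have h2 := hσ (AdjoinSimple.gen ℚ ζ)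
  have h3 := IsCyclotomicExtension.Rat.galEquivZMod_apply_of_pow_eq e ℚ⟮ζ⟯ τ h1
  change σ ζ = algebraMap _ ℂ (τ _) at h2
  rw [h3, map_pow] at h2
  simp only [τ, MulEquiv.apply_symm_apply, ZMod.coe_unitOfCoprime, ZMod.val_natCast] at h2
  change σ ζ = ζ ^ _ at h2
  rw [← pow_eq_pow_mod s hζ.pow_eq_one] at h2
  rw [map_pow, h2, pow_right_comm]

variable {G : Type} [Group G] [Fintype G]

theorem RepCh.values {χ : G → ℂ} (h : RepCh χ) {e : ℕ} (g : G) (hg : g ^ e = 1) :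
    ∃ t : Multiset ℂ, (∀ z ∈ t, z ^ e = 1) ∧ ∀ j : ℕ, χ (g ^ j) = (t.map (· ^ j)).sum := by
  classical
  obtain ⟨s, hs, hs'⟩ := (h.comp (Subgroup.zpowers g).subtype).decomp
  let g' : Subgroup.zpowers g := ⟨g, Subgroup.mem_zpowers g⟩
  have hpow : ∀ η ∈ s, ∀ j : ℕ, η (g' ^ j) = η g' ^ j := by
    intro η hη j
    obtain ⟨h1, h2⟩ := irr_comm (fun a b => mul_comm' a b) (hs η hη)
    induction j with
    | zero => simpa using h1
    | succ j ih => rw [pow_succ, h2, ih, pow_succ]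
  refine ⟨s.map (fun η => η g'), ?_, fun j => ?_⟩
  · intro z hz
    obtain ⟨η, hη, rfl⟩ := Multiset.mem_map.mp hz
    rw [← hpow η hη, show g' ^ e = 1 from Subtype.ext hg]
    exact (irr_comm (fun a b => mul_comm' a b) (hs η hη)).1
  · have := congrFun hs' (g' ^ j)
    simp only [Subgroup.coe_subtype, SubgroupClass.coe_pow] at this
    have h5 := map_multiset_sum (Pi.evalAddMonoidHom (fun _ => ℂ) (g' ^ j)) s
    simp only [Pi.evalAddMonoidHom_apply] at h5
    rw [this, Multiset.map_map, h5]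
    congr 1
    exact Multiset.map_congr rfl fun η hη => hpow η hη j

theorem RepCh.map_eq {χ : G → ℂ} (h : RepCh χ) {e s : ℕ} (g : G)
    (hg : g ^ e = 1) (σ : ℂ →+* ℂ) (hσ : ∀ z : ℂ, z ^ e = 1 → σ z = z ^ s) :
    σ (χ g) = χ (g ^ s) := by
  obtain ⟨t, ht, ht'⟩ := h.values g hg
  have := ht' 1
  rw [pow_one] at this
  rw [this, ht', map_multiset_sum, Multiset.map_map]
  congr 1
  exact Multiset.map_congr rfl fun z hz => by simpa using hσ z (ht z hz)

theorem RepCh.pow {χ : G → ℂ} (h : RepCh χ) {e s : ℕ} (he : e ≠ 0) (hG : ∀ g : G, g ^ e = 1)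
    (hs : s.Coprime e) : RepCh (fun g => χ (g ^ s)) := by
  obtain ⟨σ, hσ⟩ := exists_gal he hs
  have := h.map σ
  simpa only [h.map_eq _ (hG _) σ hσ] using this

theorem irr_pow {χ : G → ℂ} (h : χ ∈ Irr G) {e s : ℕ} (he : e ≠ 0) (hG : ∀ g : G, g ^ e = 1)
    (hs : s.Coprime e) : (fun g => χ (g ^ s)) ∈ Irr G := by
  refine irr_of_ip_self ((RepCh.of_irr h).pow he hG hs) ?_
  obtain ⟨σ, hσ⟩ := exists_gal he hs
  have := congrArg σ (irr_ip_self h)
  simpa [ip, (RepCh.of_irr h).map_eq _ (hG _) σ hσ] using this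

theorem fieldOf_le {χ ψ : G → ℂ} (h : RepCh χ) (h' : RepCh ψ) {e : ℕ} (he : e ≠ 0)
    (hG : ∀ g : G, g ^ e = 1)
    (hs : ∀ s : ℕ, s.Coprime e → (∀ g, χ (g ^ s) = χ g) → ∀ g, ψ (g ^ s) = ψ g) :
    fieldOf ψ ≤ fieldOf χ := by
  have : NeZero e := ⟨he⟩
  have hζ := Complex.isPrimitiveRoot_exp e he
  set ζ := Complex.exp (2 * Real.pi * Complex.I / e)
  have := cyc_ext (fieldOf χ) hζ
  have : IsGalois (fieldOf χ) (fieldOf χ)⟮ζ⟯ := IsCyclotomicExtension.isGalois {e} _ _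
  have : FiniteDimensional (fieldOf χ) (fieldOf χ)⟮ζ⟯ :=
    IsCyclotomicExtension.finiteDimensional {e} _ _
  set L := (fieldOf χ)⟮ζ⟯
  let z : L := AdjoinSimple.gen _ ζ
  have hz : IsPrimitiveRoot z e := IsPrimitiveRoot.of_map_of_injective (f := algebraMap L ℂ)
    (by exact hζ) (algebraMap L ℂ).injective
  -- values of characters
  have hval : ∀ {φ : G → ℂ}, RepCh φ → ∀ g, ∃ y : L, (y : ℂ) = φ g ∧
      ∀ (τ : L ≃ₐ[fieldOf χ] L) (s : ℕ), τ z = z ^ s → ((τ y : L) : ℂ) = φ (g ^ s) := by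
    intro φ hφ g
    obtain ⟨t, ht, ht'⟩ := hφ.values g (hG g)
    have h1 := ht' 1
    rw [pow_one] at h1
    simp only [h1, ht']
    clear h1 ht'
    induction t using Multiset.induction_on with
    | empty => exact ⟨0, by simp, by simp⟩
    | cons a t ih =>
      obtain ⟨y, hy, hy'⟩ := ih fun w hw => ht w (by simp [hw])
      obtain ⟨i, -, rfl⟩ := hζ.eq_pow_of_pow_eq_one (ht a (by simp))
      refine ⟨z ^ i + y, ?_, fun τ s hτ => ?_⟩
      · rw [Multiset.map_cons, Multiset.sum_cons, ← hy, pow_one]; rfl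
      · rw [Multiset.map_cons, Multiset.sum_cons, ← hy' τ s hτ, map_add, map_pow, hτ,
          pow_right_comm]; rfl
  unfold fieldOf
  rw [IntermediateField.adjoin_le_iff]
  rintro _ ⟨g, rfl⟩
  obtain ⟨y, hy, hy'⟩ := hval h' g
  have hfix : ∀ τ : L ≃ₐ[fieldOf χ] L, τ y = y := by
    intro τ
    have h1 : IsPrimitiveRoot (τ z) e := hz.map_of_injective τ.injective
    obtain ⟨s, -, hs1⟩ := hz.eq_pow_of_pow_eq_one h1.pow_eq_one
    have hco : s.Coprime e := by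
      rw [← hs1] at h1
      exact (hz.pow_iff_coprime (Nat.pos_of_ne_zero he) s).mp h1
    apply Subtype.ext
    rw [hy' τ s hs1.symm, hy]
    refine hs s hco (fun x => ?_) g
    obtain ⟨w, hw, hw'⟩ := hval h x
    rw [← hw' τ s hs1.symm, ← hw]
    have : w = algebraMap (fieldOf χ) L ⟨χ x, IntermediateField.subset_adjoin _ _ ⟨x, rfl⟩⟩ :=
      Subtype.ext hw
    rw [this, AlgEquiv.commutes]
  obtain ⟨a, ha⟩ := (IsGalois.mem_range_algebraMap_iff_fixed y).mpr hfix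
  rw [← hy, ← ha]
  exact a.2

end Pool.Agent.P.MP_530519_al
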