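import Pool.Agent.P.MP_530519_al.Syl

/-! Derived length and order bounds for solvable groups. -/

namespace Pool.Agent.P.MP_530519_al

open Subgroup
open scoped Classical

variable {G : Type} [Group G] [Finite G]

theorem two_mul_card_le {X Y : Subgroup G} (h : X < Y) : 2 * Nat.card X ≤ Nat.card Y := by
  have : Fintype G := Fintype.ofFinite G
  have h1 := card_mul_rel h.le
  have h2 : X.relIndex Y ≠ 1 := fun h2 => h.not_ge (relIndex_eq_one.mp h2)
  have h3 : X.relIndex Y ≠ 0 := FiniteIndex.index_ne_zero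
  rw [← h1, mul_comm]
  exact Nat.mul_le_mul_left _ (by omega)

theorem derived_bot [Group.IsSolvable G] (r : ℕ) : ∀ (i : ℕ) (X : Subgroup G),
    derivedSeries G i ≤ X → Nat.card X ≤ 2 ^ r → derivedSeries G (i + r) = ⊥ := by
  induction r with
  | zero =>
    intro i X h1 h2
    rw [eq_bot_of_card_le X (by simpa using h2)] at h1
    exact le_bot_iff.mp h1
  | succ r ih =>
    intro i X h1 h2
    by_cases h0 : derivedSeries G i = ⊥
    · exact le_bot_iff.mp (h0 ▸ derivedSeries_antitone G (by omega))
    have h3 := two_mul_card_le (Group.IsSolvable.commutator_lt_of_ne_bot h0)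
    have h4 := card_le_of_le h1
    rw [show i + (r + 1) = i + 1 + r by ring]
    refine ih (i + 1) _ le_rfl ?_
    rw [derivedSeries_succ]
    rw [pow_succ] at h2
    omega

theorem derived_le [Group.IsSolvable G] {r i : ℕ} {X : Subgroup G} (N : Subgroup G) [N.Normal]
    (h1 : derivedSeries G i ≤ X) (h2 : N.relIndex X ≤ 2 ^ r) : derivedSeries G (i + r) ≤ N := by
  have h3 := derived_bot (G := G ⧸ N) r i (X.map (QuotientGroup.mk' N))
    (by rw [← map_derivedSeries_eq (QuotientGroup.mk'_surjective N)]; exact map_mono h1)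
    (by rw [← relIndex_ker, QuotientGroup.ker_mk']; exact h2)
  rwa [← map_derivedSeries_eq (QuotientGroup.mk'_surjective N), Subgroup.map_eq_bot_iff,
    QuotientGroup.ker_mk'] at h3

omit [Finite G] in
theorem derived_sub {a : ℕ} {M : Subgroup G} (h : derivedSeries G a ≤ M) (b : ℕ) :
    derivedSeries G (a + b) ≤ (derivedSeries M b).map M.subtype := by
  induction b with
  | zero => simpa [← MonoidHom.range_eq_map] using h
  | succ b ih =>
    rw [← add_assoc, derivedSeries_succ, derivedSeries_succ, map_commutator]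
    exact commutator_mono ih ih

theorem exists_gens (E : Subgroup G) : ∀ Z : Subgroup G, Z ≤ E → ∃ S : Finset G,
    (S : Set G) ⊆ E ∧ E ≤ Z ⊔ Subgroup.closure S ∧ 2 ^ S.card ≤ Z.relIndex E := by
  intro Z
  induction hn : Nat.card E - Nat.card Z using Nat.strong_induction_on generalizing Z with
  | _ n ih =>
  intro hZ
  by_cases h : E ≤ Z
  · exact ⟨∅, by simp, by simpa using h, Nat.pos_of_ne_zero FiniteIndex.index_ne_zero⟩
  obtain ⟨x, hx, hxZ⟩ := Set.not_subset.mp h
  have h1 : Z < Z ⊔ Subgroup.closure {x} := lt_of_le_of_ne le_sup_left fun h1 =>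
    hxZ (h1 ▸ mem_sup_right (subset_closure rfl) : x ∈ Z)
  have h2 : Z ⊔ Subgroup.closure {x} ≤ E := sup_le hZ (by simpa using hx)
  have h3 := two_mul_card_le h1
  have h4 := card_le_of_le h2
  have h5 : 0 < Nat.card Z := Nat.card_pos
  obtain ⟨S, h6, h7, h8⟩ := ih _ (by omega) _ rfl h2
  refine ⟨insert x S, by simp [Set.insert_subset_iff, h6]; exact hx, ?_, ?_⟩
  · rw [Finset.coe_insert, Set.insert_eq, Subgroup.closure_union, ← sup_assoc]; exact h7
  · have h9 := relIndex_mul_relIndex _ _ _ h1.le h2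
    have h10 : Z.relIndex (Z ⊔ Subgroup.closure {x}) ≠ 1 :=
      fun h2 => h1.not_ge (relIndex_eq_one.mp h2)
    have h11 : Z.relIndex (Z ⊔ Subgroup.closure {x}) ≠ 0 := FiniteIndex.index_ne_zero
    calc 2 ^ (insert x S).card ≤ 2 ^ (S.card + 1) :=
          Nat.pow_le_pow_right (by norm_num) (Finset.card_insert_le _ _)
      _ = 2 * 2 ^ S.card := by ring
      _ ≤ _ := h9 ▸ Nat.mul_le_mul (by omega) h8

/-- Order of a primitive solvable permutation group. -/
theorem index_core_le [Group.IsSolvable G] {M : Subgroup G} (hM : IsCoatom M) :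
    M.normalCore.index ≤ M.index ^ (Nat.log 2 M.index + 1) := by
  obtain ⟨j, h1, h2⟩ := exists_dser (⊤ : Subgroup G) M (by simpa using hM.1)
  set A := dser (⊤ : Subgroup G) j
  have hA : A.Normal := inferInstance
  have h3 : M ⊔ A = ⊤ := hM.2 _ (lt_of_le_of_ne le_sup_left fun h => h1 (h ▸ le_sup_right))
  have h4 : ∀ x, (∀ a ∈ A, a * x * a⁻¹ ∈ M) → x ∈ M.normalCore := by
    intro x hx b
    obtain ⟨m, hm, a, ha, rfl⟩ := mem_sup_of_normal_right.mp (h3 ▸ mem_top b : b ∈ M ⊔ A)
    have := M.mul_mem (M.mul_mem hm (hx a ha)) (M.inv_mem hm)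
    simpa [mul_assoc] using this
  have h5 : A ⊓ M ≤ M.normalCore := fun x hx => h4 x fun a ha => by
    have := M.mul_mem (h2 (commutator_mem_commutator ha hx.1)) hx.2
    simpa [commutatorElement_def] using this
  obtain ⟨S, h6, h7, h8⟩ := exists_gens A (A ⊓ M) inf_le_left
  rw [inf_relIndex_left] at h8
  have h9 : M.relIndex A ≤ M.index :=
    relIndex_top_right M ▸ relIndex_le_of_le_right le_top (by simpa using FiniteIndex.index_ne_zero)
  have h10 : S.card ≤ Nat.log 2 M.index :=
    Nat.le_log_of_pow_le (by norm_num) (h8.trans h9)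
  let f : G ⧸ M.normalCore → (insert 1 S : Finset G) → G ⧸ M := fun q s => QuotientGroup.mk (q.out * s)
  have hf : Function.Injective f := by
    intro q q' h
    rw [← q.out_eq', ← q'.out_eq', QuotientGroup.eq]
    have h11 : ∀ s ∈ insert 1 S, s⁻¹ * (q.out⁻¹ * q'.out) * s ∈ M := fun s hs => by
      have := QuotientGroup.eq.mp (congrFun h ⟨s, hs⟩)
      simpa [mul_assoc] using this
    generalize q.out⁻¹ * q'.out = z at h11
    have hz : z ∈ M := by simpa using h11 1 (by simp)
    have h12 : A ≤ (centralizer {(z : G ⧸ M.normalCore)}).comap (QuotientGroup.mk' _) := by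
      refine h7.trans (sup_le (fun x hx => ?_) ((closure_le _).mpr fun s hs => ?_))
      · rw [mem_comap, QuotientGroup.mk'_apply, (QuotientGroup.eq_one_iff x).mpr (h5 hx)]
        exact one_mem _
      · have h13 : s⁻¹ * z * s * z⁻¹ ∈ A ⊓ M := ⟨by
          have := A.mul_mem (A.inv_mem (h6 hs)) (hA.conj_mem s (h6 hs) z)
          simpa [mul_assoc] using this, M.mul_mem (h11 s (Finset.mem_insert_of_mem hs)) (M.inv_mem hz)⟩
        have h14 := (QuotientGroup.eq_one_iff _).mpr (h5 h13)
        simp only [SetLike.mem_coe, mem_comap, QuotientGroup.mk'_apply,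
          mem_centralizer_singleton_iff]
        simp only [QuotientGroup.mk_mul, QuotientGroup.mk_inv, mul_inv_eq_one, mul_assoc,
          inv_mul_eq_one] at h14
        rw [eq_comm, ← mul_inv_eq_iff_eq_mul, mul_assoc]
        exact h14.symm
    refine h4 z fun a ha => ?_
    have h13 := h12 ha
    simp only [mem_comap, QuotientGroup.mk'_apply, mem_centralizer_singleton_iff] at h13
    have h14 : a * z * a⁻¹ * z⁻¹ ∈ M.normalCore := by
      rw [← QuotientGroup.eq_one_iff]
      simp [h13]
    simpa using M.mul_mem (M.normalCore_le h14) hz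
  have h11 := Nat.card_le_card_of_injective f hf
  rw [Nat.card_fun, Nat.card_eq_card_finset_coe] at h11
  exact h11.trans (Nat.pow_le_pow_right (Nat.pos_of_ne_zero FiniteIndex.index_ne_zero)
    ((Finset.card_insert_le _ _).trans (by omega)))
  where Nat.card_eq_card_finset_coe {s : Finset G} : Nat.card s = s.card := by simp

theorem exists_idem_pow {R : Type*} [Monoid R] [Finite R] (x : R) :
    ∃ N, 0 < N ∧ x ^ N * x ^ N = x ^ N := by
  obtain ⟨a, b, hab, h⟩ : ∃ a b : ℕ, a < b ∧ x ^ a = x ^ b := by
    obtain ⟨a, b, hab, h⟩ := Finite.exists_ne_map_eq_of_infinite (fun n : ℕ => x ^ n)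
    rcases lt_or_gt_of_ne hab with h1 | h1
    · exact ⟨a, b, h1, h⟩
    · exact ⟨b, a, h1, h.symm⟩
  obtain ⟨d, rfl⟩ := Nat.exists_eq_add_of_lt hab
  have h1 : ∀ t, x ^ (a + t * (d + 1)) = x ^ a := by
    intro t
    induction t with
    | zero => simp
    | succ t ih =>
      rw [show a + (t + 1) * (d + 1) = (a + d + 1) + t * (d + 1) by ring, pow_add, ← h, ← pow_add, ih]
  refine ⟨(a + 1) * (d + 1), by positivity, ?_⟩
  obtain ⟨u, hu⟩ : ∃ u, (a + 1) * (d + 1) = a + u := ⟨a * d + d + 1, by ring⟩
  rw [← pow_add]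
  conv_rhs => rw [hu, pow_add, ← h1 (a + 1), ← pow_add]
  congr 1
  rw [add_right_comm, ← hu]

theorem dim_bound {k V E ι : Type} [CommRing k] [IsDomain k] [Finite k] [AddCommGroup V]
    [Module k V] [Finite V] [Group E] [Finite ι] (T : ι → Module.End k V) (hT : ∀ i, T i ≠ 0)
    (R : E →* Module.End k V) (χ : ι → E →* k) (hχ : Function.Injective χ)
    (h : ∀ i g, R g * T i * R g⁻¹ = χ i g • T i) :
    ∃ D, Nat.card V = Nat.card k ^ D ∧ Nat.card ι ≤ D * D := by
  letI : Field k := (Finite.isField_of_domain k).toField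
  have : Fintype ι := Fintype.ofFinite ι
  have : Module.Finite k V := Module.Finite.of_finite
  refine ⟨Module.finrank k V, Module.natCard_eq_pow_finrank, ?_⟩
  have hli : LinearIndependent k T := by
    rw [Fintype.linearIndependent_iff]
    intro c hc i
    by_contra h0
    apply hT i
    rw [← Module.forall_dual_apply_eq_zero_iff k]
    intro φ
    have h1 := ((linearIndependent_monoidHom E k).comp χ hχ)
    rw [Fintype.linearIndependent_iff] at h1
    have h2 := h1 (fun j => c j * φ (T j)) (by
      ext g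
      have h3 := congrArg (fun X => φ (R g * X * R g⁻¹)) hc
      simp only [Finset.mul_sum, Finset.sum_mul, mul_smul_comm, smul_mul_assoc, h, map_sum,
        map_smul, smul_eq_mul, mul_zero, zero_mul, map_zero] at h3
      simp only [Finset.sum_apply, Pi.smul_apply, Function.comp, smul_eq_mul, Pi.zero_apply]
      rw [← h3]
      exact Finset.sum_congr rfl fun j _ => by ring) i
    exact (mul_eq_zero.mp h2).resolve_left h0
  have := hli.fintype_card_le_finrank
  rwa [Module.finrank_linearMap, ← Nat.card_eq_fintype_card] at this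

end Pool.Agent.P.MP_530519_al
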