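import Pool.Agent.P.MP_530519_al.Grp

/-! Solvable linear groups with few orbits: the imprimitive step. -/

namespace Pool.Agent.P.MP_530519_al

open Subgroup
open scoped Classical

variable {G : Type} [Group G] [Finite G] {V : Type} [AddCommGroup V] [Finite V]

def Irred (ρ : G →* Module.End ℤ V) : Prop :=
  Nontrivial V ∧ ∀ W : Submodule ℤ V, (∀ g, ∀ v ∈ W, ρ g v ∈ W) → W = ⊥ ∨ W = ⊤

theorem rho_mul (ρ : G →* Module.End ℤ V) (g h : G) (v : V) : ρ g (ρ h v) = ρ (g * h) v := by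
  rw [map_mul]; rfl

theorem rho_inv (ρ : G →* Module.End ℤ V) (g : G) (v : V) : ρ g⁻¹ (ρ g v) = v := by
  rw [rho_mul]; simp

theorem rho_eq_zero (ρ : G →* Module.End ℤ V) (g : G) (v : V) : ρ g v = 0 ↔ v = 0 :=
  ⟨fun h => by rw [← rho_inv ρ g v, h, map_zero], fun h => by rw [h, map_zero]⟩

def orb (ρ : G →* Module.End ℤ V) : Setoid V where
  r u v := ∃ g, ρ g u = v
  iseqv := ⟨fun u => ⟨1, by simp⟩, fun ⟨g, h⟩ => ⟨g⁻¹, by rw [← h, rho_inv]⟩,
    fun ⟨g, h⟩ ⟨g', h'⟩ => ⟨g' * g, by rw [← rho_mul, h, h']⟩⟩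

/-- Number of orbits. -/
noncomputable def no (ρ : G →* Module.End ℤ V) : ℕ := Nat.card (Quotient (orb ρ))

theorem card_le_no (ρ : G →* Module.End ℤ V) {α β : Type} [Finite α] [Finite β] (F : α → V)
    (h : ∀ a, ∃ f : β → α, ∀ b, (∃ g, ρ g (F a) = F b) → b ∈ Set.range f) :
    Nat.card α ≤ Nat.card β * no ρ := by
  have := Fintype.ofFinite α
  have := Fintype.ofFinite β
  have := Fintype.ofFinite (Quotient (orb ρ))
  rw [no, Nat.card_eq_fintype_card, Nat.card_eq_fintype_card, Nat.card_eq_fintype_card]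
  refine Finset.card_le_mul_card_image_of_maps_to (f := fun a => Quotient.mk (orb ρ) (F a))
    (fun _ _ => Finset.mem_univ _) _ fun q _ => ?_
  rcases Finset.eq_empty_or_nonempty
    (Finset.univ.filter fun a => Quotient.mk (orb ρ) (F a) = q) with h0 | ⟨a, ha⟩
  · simp [h0]
  obtain ⟨f, hf⟩ := h a
  refine le_trans (Finset.card_le_card (t := Finset.univ.image f) fun b hb => ?_)
    Finset.card_image_le
  simp only [Finset.mem_filter, Finset.mem_univ, true_and] at ha hb
  simpa using hf b (Quotient.exact (ha.trans hb.symm))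

theorem two_le_no {ρ : G →* Module.End ℤ V} (h : Irred ρ) : 2 ≤ no ρ := by
  have := h.1
  obtain ⟨v, hv⟩ := exists_ne (0 : V)
  refine Finite.one_lt_card_iff_nontrivial.mpr ⟨Quotient.mk _ v, Quotient.mk _ 0, fun h => ?_⟩
  obtain ⟨g, hg⟩ := Quotient.exact h
  exact hv ((rho_eq_zero ρ g v).mp hg)

/-- Conjugation of endomorphisms. -/
def cf (ρ : G →* Module.End ℤ V) (g : G) : Module.End ℤ V →+* Module.End ℤ V where
  toFun x := ρ g * x * ρ g⁻¹
  map_one' := by rw [mul_one, ← map_mul]; simp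
  map_mul' x y := by
    have : ρ g⁻¹ * ρ g = 1 := by rw [← map_mul]; simp
    calc ρ g * (x * y) * ρ g⁻¹ = ρ g * x * (ρ g⁻¹ * ρ g) * y * ρ g⁻¹ := by
          rw [this]; simp [mul_assoc]
      _ = _ := by simp only [mul_assoc]
  map_zero' := by simp
  map_add' x y := by simp [mul_add, add_mul]

variable {ρ : G →* Module.End ℤ V} {e : Module.End ℤ V}

theorem cf_def (g : G) (x : Module.End ℤ V) : cf ρ g x = ρ g * x * ρ g⁻¹ := rfl

theorem cf_cf (g h : G) (x : Module.End ℤ V) : cf ρ g (cf ρ h x) = cf ρ (g * h) x := by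
  simp [cf_def, mul_assoc]

theorem cf_one (x : Module.End ℤ V) : cf ρ 1 x = x := by simp [cf_def]

theorem cf_apply (g : G) (x : Module.End ℤ V) (v : V) : cf ρ g x (ρ g v) = ρ g (x v) := by
  simp [cf_def, rho_inv]

theorem cf_inj (g : G) : Function.Injective (cf ρ g) := fun x y h => by
  have := congrArg (cf ρ g⁻¹) h
  simpa [cf_cf, cf_one] using this

theorem cf_rho (g x : G) : cf ρ g (ρ x) = ρ (g * x * g⁻¹) := by simp [cf_def]

def stabE (ρ : G →* Module.End ℤ V) (e : Module.End ℤ V) : Subgroup G where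
  carrier := {g | cf ρ g e = e}
  one_mem' := cf_one e
  mul_mem' := fun {a b} (ha : _ = _) (hb : _ = _) => by
    change _ = _; rw [← cf_cf, hb, ha]
  inv_mem' := fun {a} (ha : _ = _) => by
    change _ = _; conv_lhs => rw [← ha, cf_cf, inv_mul_cancel, cf_one]

theorem mem_stabE {g : G} : g ∈ stabE ρ e ↔ cf ρ g e = e := Iff.rfl

theorem cf_eq_iff {g h : G} : cf ρ g e = cf ρ h e ↔ h⁻¹ * g ∈ stabE ρ e := by
  rw [mem_stabE, ← cf_cf, ← (cf_inj (ρ := ρ) h).eq_iff (a := cf ρ h⁻¹ _), cf_cf, mul_inv_cancel,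
    cf_one]

/-- An idempotent that gives a system of imprimitivity. -/
structure Sys (ρ : G →* Module.End ℤ V) (e : Module.End ℤ V) : Prop where
  idem : e * e = e
  ne_zero : e ≠ 0
  ne_one : e ≠ 1
  orth : ∀ g, cf ρ g e = e ∨ cf ρ g e * e = 0

theorem Sys.mul (h : Sys ρ e) (g g' : G) :
    cf ρ g e * cf ρ g' e = if g'⁻¹ * g ∈ stabE ρ e then cf ρ g e else 0 := by
  split_ifs with h1
  · rw [← cf_eq_iff.mpr h1, ← map_mul, h.idem]
  · have := congrArg (cf ρ g') ((h.orth (g'⁻¹ * g)).resolve_left h1)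
    simpa [cf_cf] using this

theorem Sys.cf_ne (h : Sys ρ e) (g : G) : cf ρ g e ≠ 0 :=
  fun h0 => h.ne_zero (cf_inj g (h0.trans (map_zero _).symm))

omit [Finite V] in
theorem eq_one_of_idem (h : e * e = e) (h1 : LinearMap.range e = ⊤) : e = 1 := by
  ext v
  obtain ⟨w, rfl⟩ := LinearMap.range_eq_top.mp h1 v
  exact congrArg (fun x => x w) h

theorem exists_coatom (hρ : Irred ρ) (h : ∃ e, Sys ρ e) :
    ∃ e, Sys ρ e ∧ IsCoatom (stabE ρ e) := by
  obtain ⟨e, he, hmax⟩ := Set.exists_max_image {e | Sys ρ e} (fun e => Nat.card (stabE ρ e))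
    (Set.Finite.subset (Set.finite_univ_iff.mpr
      (Finite.of_injective _ DFunLike.coe_injective)) (Set.subset_univ _)) h
  refine ⟨e, he, fun h1 => ?_, fun M hM => ?_⟩
  · rcases hρ.2 (LinearMap.range e) (by
      rintro g _ ⟨v, rfl⟩
      refine ⟨ρ g v, ?_⟩
      rw [← cf_apply, mem_stabE.mp (h1 ▸ mem_top g)]) with h2 | h2
    · exact he.ne_zero (LinearMap.range_eq_bot.mp h2)
    · exact he.ne_one (eq_one_of_idem he.idem h2)
  have := Fintype.ofFinite G
  let Ω : Finset (Module.End ℤ V) := (Finset.univ.filter (· ∈ M)).image fun g => cf ρ g e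
  have hΩ : ∀ g, cf ρ g e ∈ Ω ↔ g ∈ M := fun g => by
    simp only [Ω, Finset.mem_image, Finset.mem_filter, Finset.mem_univ, true_and]
    refine ⟨fun ⟨a, ha, h2⟩ => ?_, fun hg => ⟨g, hg, rfl⟩⟩
    simpa using M.mul_mem ha (M.inv_mem (hM.le (cf_eq_iff.mp h2)))
  have hΩ' : ∀ f ∈ Ω, ∃ g ∈ M, f = cf ρ g e := fun f hf => by
    obtain ⟨g, hg, rfl⟩ := Finset.mem_image.mp hf
    exact ⟨g, (Finset.mem_filter.mp hg).2, rfl⟩
  have h1 : ∀ g, cf ρ g e * ∑ f ∈ Ω, f = if g ∈ M then cf ρ g e else 0 := fun g => by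
    rw [Finset.mul_sum, Finset.sum_congr rfl (g := fun f => if f = cf ρ g e then f else 0)]
    · simp [hΩ]
    · intro f hf
      obtain ⟨a, -, rfl⟩ := hΩ' f hf
      rw [he.mul]
      simp only [← cf_eq_iff, eq_comm (a := cf ρ a e)]
      split_ifs with h2
      · exact h2
      · rfl
  have h2 : ∀ g, cf ρ g (∑ f ∈ Ω, f) * ∑ f ∈ Ω, f = if g ∈ M then cf ρ g (∑ f ∈ Ω, f) else 0 := by
    intro g
    rw [map_sum, Finset.sum_mul]
    split_ifs with hg
    · refine Finset.sum_congr rfl fun f hf => ?_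
      obtain ⟨a, ha, rfl⟩ := hΩ' f hf
      rw [cf_cf, h1, if_pos (M.mul_mem hg ha)]
    · refine Finset.sum_eq_zero fun f hf => ?_
      obtain ⟨a, ha, rfl⟩ := hΩ' f hf
      rw [cf_cf, h1, if_neg (by rwa [M.mul_mem_cancel_right ha])]
  have h3 : M ≤ stabE ρ (∑ f ∈ Ω, f) := fun g hg => by
    rw [mem_stabE, map_sum]
    refine Finset.sum_bij (fun f _ => cf ρ g f) ?_ (fun _ _ _ _ h => cf_inj g h) ?_
      (fun _ _ => rfl)
    · intro f hf
      obtain ⟨a, ha, rfl⟩ := hΩ' f hf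
      rw [cf_cf, hΩ]; exact M.mul_mem hg ha
    · intro f hf
      obtain ⟨a, ha, rfl⟩ := hΩ' f hf
      exact ⟨cf ρ (g⁻¹ * a) e, (hΩ _).mpr (M.mul_mem (M.inv_mem hg) ha), by simp [cf_cf]⟩
  by_cases h4 : ∑ f ∈ Ω, f = 1
  · rw [eq_top_iff]
    intro g _
    by_contra hg
    have := h1 g
    rw [h4, mul_one, if_neg hg] at this
    exact he.cf_ne g this
  · have h5 : Sys ρ (∑ f ∈ Ω, f) := by
      refine ⟨by simpa [cf_one, M.one_mem] using h2 1, fun h0 => ?_, h4, fun g => ?_⟩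
      · have := h1 1
        rw [h0, mul_zero, if_pos M.one_mem] at this
        exact he.cf_ne 1 this.symm
      · by_cases hg : g ∈ M
        · exact Or.inl (h3 hg)
        · exact Or.inr (by rw [h2, if_neg hg])
    have h6 := hmax _ h5
    have h7 := two_mul_card_le hM
    have h8 := card_le_of_le h3
    have h9 : 0 < Nat.card (stabE ρ e) := Nat.card_pos
    omega

/-- The action of the stabiliser on the block. -/
def blk (ρ : G →* Module.End ℤ V) (e : Module.End ℤ V) :
    stabE ρ e →* Module.End ℤ (LinearMap.range e) where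
  toFun g := (ρ g).restrict (by
    rintro _ ⟨v, rfl⟩
    exact ⟨ρ g v, by rw [← cf_apply, mem_stabE.mp g.2]⟩)
  map_one' := by ext; simp
  map_mul' g h := by ext; simp

theorem blk_apply (g : stabE ρ e) (w : LinearMap.range e) : (blk ρ e g w : V) = ρ g w := rfl

theorem Sys.fix (h : Sys ρ e) (w : LinearMap.range e) : e w = w := by
  obtain ⟨_, v, rfl⟩ := w
  exact congrArg (fun x => x v) h.idem

theorem Sys.cf_rho_apply (h : Sys ρ e) (g g' : G) (w : LinearMap.range e) :
    cf ρ g e (ρ g' w) = if g'⁻¹ * g ∈ stabE ρ e then ρ g' w else 0 := by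
  have h1 : ρ g' w = cf ρ g' e (ρ g' w) := by rw [cf_apply, h.fix]
  conv_lhs => rw [h1, ← Module.End.mul_apply, h.mul]
  split_ifs with h2
  · rw [cf_eq_iff.mpr h2, ← h1]
  · rfl

theorem Sys.irred (h : Sys ρ e) (hρ : Irred ρ) : Irred (blk ρ e) := by
  refine ⟨Submodule.nontrivial_iff_ne_bot.mpr fun h0 => h.ne_zero (LinearMap.range_eq_bot.mp h0),
    fun U hU => ?_⟩
  let U' : Submodule ℤ V :=
    ⨅ g, (U.map (LinearMap.range e).subtype).comap (e * ρ g)
  have hU' : ∀ v, v ∈ U' ↔ ∀ g, e (ρ g v) ∈ U.map (LinearMap.range e).subtype := fun v => by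
    simp only [U', Submodule.mem_iInf, Submodule.mem_comap, Module.End.mul_apply]
  rcases hρ.2 U' (fun g v hv => (hU' _).mpr fun g' => by
    rw [rho_mul]; exact (hU' v).mp hv _) with h1 | h1
  · refine Or.inl (eq_bot_iff.mpr fun u hu => ?_)
    have : (u : V) ∈ U' := (hU' _).mpr fun g => by
      have := h.cf_rho_apply 1 g u
      rw [cf_one] at this
      rw [this]
      split_ifs with h2
      · exact ⟨_, hU ⟨g, by simpa using h2⟩ u hu, rfl⟩
      · exact zero_mem _
    rw [h1, Submodule.mem_bot] at this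
    exact Subtype.ext this
  · refine Or.inr (eq_top_iff.mpr fun w _ => ?_)
    have := (hU' w).mp (h1 ▸ Submodule.mem_top) 1
    rw [map_one, Module.End.one_apply, h.fix] at this
    obtain ⟨u, hu, h2⟩ := this
    exact (Subtype.ext h2 : u = w) ▸ hu

theorem out_mem_iff {M : Subgroup G} (q q' : G ⧸ M) : q'.out⁻¹ * q.out ∈ M ↔ q = q' := by
  rw [← QuotientGroup.eq, QuotientGroup.out_eq', QuotientGroup.out_eq', eq_comm]

theorem cf_out_smul (g : G) (q : G ⧸ stabE ρ e) : cf ρ (g • q).out e = cf ρ g (cf ρ q.out e) := by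
  rw [cf_cf, cf_eq_iff, ← QuotientGroup.eq, QuotientGroup.out_eq']
  conv_rhs => rw [← q.out_eq']
  rfl

theorem Sys.two_pow_le (h : Sys ρ e) :
    2 ^ (stabE ρ e).index ≤ (stabE ρ e).normalCore.index * no ρ := by
  have := Fintype.ofFinite (G ⧸ stabE ρ e)
  have : Nontrivial (LinearMap.range e) :=
    Submodule.nontrivial_iff_ne_bot.mpr fun h0 => h.ne_zero (LinearMap.range_eq_bot.mp h0)
  obtain ⟨w, hw⟩ := exists_ne (0 : LinearMap.range e)
  have h1 : ∀ (A : Finset (G ⧸ stabE ρ e)) (q : G ⧸ stabE ρ e),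
      cf ρ q.out e (∑ r ∈ A, ρ r.out w) ≠ 0 ↔ q ∈ A := fun A q => by
    simp only [map_sum, h.cf_rho_apply, out_mem_iff, Finset.sum_ite_eq]
    split_ifs with h2
    · simp [h2, rho_eq_zero, hw]
    · simp [h2]
  have h2 := card_le_no ρ (α := Finset (G ⧸ stabE ρ e)) (β := G ⧸ (stabE ρ e).normalCore)
    (fun A => ∑ r ∈ A, ρ r.out w) fun A => ⟨fun k => A.image (k.out • ·), by
      rintro B ⟨g, hg⟩
      refine ⟨QuotientGroup.mk g, ?_⟩
      have h3 : ∀ q : G ⧸ stabE ρ e,
          (QuotientGroup.mk g : G ⧸ (stabE ρ e).normalCore).out • q = g • q := fun q => by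
        obtain ⟨k, hk⟩ := QuotientGroup.mk_out_eq_mul (stabE ρ e).normalCore g
        have h4 := (normalCore_eq_ker (stabE ρ e)).le k.2
        rw [hk, mul_smul, show (k : G) • q = q from congrArg (fun x : Equiv.Perm _ => x q) h4]
      ext q
      simp only [h3, Finset.mem_image]
      obtain ⟨q, rfl⟩ := MulAction.surjective g q
      rw [← h1 B, ← hg, cf_out_smul, cf_apply, Ne, rho_eq_zero, ← Ne, h1]
      simp⟩
  rwa [Nat.card_eq_fintype_card, Fintype.card_finset, ← Nat.card_eq_fintype_card] at h2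

theorem pair_iff {α : Type} {a b c d : α} :
    ({a, b} : Multiset α) = {c, d} ↔ a = c ∧ b = d ∨ a = d ∧ b = c := by
  simp only [Multiset.insert_eq_cons, Multiset.cons_eq_cons, Multiset.singleton_inj,
    Multiset.singleton_eq_cons_iff]
  grind

theorem Sys.choose_le (h : Sys ρ e) (hM : stabE ρ e ≠ ⊤) :
    (no (blk ρ e) + 1).choose 2 ≤ no ρ := by
  have := Fintype.ofFinite (G ⧸ stabE ρ e)
  have := Fintype.ofFinite (Quotient (orb (blk ρ e)))
  obtain ⟨a, ha⟩ : ∃ a, a ∉ stabE ρ e := by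
    by_contra hc
    push Not at hc
    exact hM (eq_top_iff.mpr fun x _ => hc x)
  let μ : V → Multiset (Quotient (orb ρ)) := fun v =>
    Finset.univ.val.map fun q : G ⧸ stabE ρ e => Quotient.mk _ (cf ρ q.out e v)
  have hμ : ∀ g v, μ (ρ g v) = μ v := fun g v => by
    simp only [μ]
    rw [← Multiset.map_univ_val_equiv (MulAction.toPerm g), Multiset.map_map,
      Multiset.map_univ_val_equiv]
    refine Multiset.map_congr rfl fun q _ => ?_
    simp only [Function.comp, MulAction.toPerm_apply, cf_out_smul, cf_apply]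
    exact Quotient.sound ⟨g⁻¹, rho_inv ρ g _⟩
  let q₀ : G ⧸ stabE ρ e := QuotientGroup.mk 1
  let q₁ : G ⧸ stabE ρ e := QuotientGroup.mk a
  have hne : q₁ ≠ q₀ := fun h0 => ha (by simpa using QuotientGroup.eq.mp h0.symm)
  have hμ' : ∀ u v : LinearMap.range e, μ (ρ q₀.out u + ρ q₁.out v) =
      {Quotient.mk _ (u : V), Quotient.mk _ (v : V)} +
        ((Finset.univ.erase q₀).erase q₁).val.map fun _ => Quotient.mk _ 0 := fun u v => by
    simp only [μ, map_add, h.cf_rho_apply, out_mem_iff]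
    have h0 : (Finset.univ : Finset (G ⧸ stabE ρ e)).val =
        q₀ ::ₘ q₁ ::ₘ ((Finset.univ.erase q₀).erase q₁).val := by
      rw [← Finset.insert_val_of_notMem (by simp), Finset.insert_erase (by simp [hne]),
        ← Finset.insert_val_of_notMem (by simp), Finset.insert_erase (by simp)]
    conv_lhs => rw [h0, Multiset.map_cons, Multiset.map_cons]
    simp only [hne, hne.symm, if_true, if_false, add_zero, zero_add, Multiset.insert_eq_cons,
      Multiset.cons_add, Multiset.singleton_add]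
    rw [show Quotient.mk (orb ρ) (ρ q₀.out u) = Quotient.mk _ (u : V) from
        Quotient.sound ⟨_, rho_inv ρ _ _⟩,
      show Quotient.mk (orb ρ) (ρ q₁.out v) = Quotient.mk _ (v : V) from
        Quotient.sound ⟨_, rho_inv ρ _ _⟩]
    congr 2
    · refine Multiset.map_congr rfl fun q hq => ?_
      simp only [Finset.mem_val, Finset.mem_erase] at hq
      simp [hq.1, hq.2.1]
  have hτ : ∀ u v : LinearMap.range e, Quotient.mk (orb ρ) (u : V) = Quotient.mk _ (v : V) →
      Quotient.mk (orb (blk ρ e)) u = Quotient.mk _ v := fun u v huv => by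
    obtain ⟨g, hg⟩ := Quotient.exact huv
    have h1 := h.cf_rho_apply 1 g u
    rw [cf_one, hg, h.fix] at h1
    split_ifs at h1 with h2
    · exact Quotient.sound ⟨⟨g, by simpa using h2⟩, Subtype.ext hg⟩
    · rw [h1, rho_eq_zero] at hg
      rw [show u = v from Subtype.ext (hg.trans h1.symm)]
  rw [no, Nat.card_eq_fintype_card, ← Sym2.card, ← Nat.card_eq_fintype_card]
  refine Nat.card_le_card_of_injective (fun s => Quotient.mk (orb ρ)
    (ρ q₀.out (s.out.1.out : LinearMap.range e) + ρ q₁.out (s.out.2.out : LinearMap.range e))) ?_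
  intro s t hst
  obtain ⟨g, hg⟩ := Quotient.exact hst
  have h1 := congrArg μ hg
  rw [hμ, hμ', hμ', add_left_inj, pair_iff] at h1
  have hτ' : ∀ a b : Quotient (orb (blk ρ e)), Quotient.mk (orb ρ) (a.out : LinearMap.range e) =
      Quotient.mk _ ((b.out : LinearMap.range e) : V) → a = b := fun a b h => by
    simpa using hτ _ _ h
  rw [← s.out_eq, ← t.out_eq]
  apply Sym2.eq_iff.mpr
  rcases h1 with ⟨h2, h3⟩ | ⟨h2, h3⟩
  · exact Or.inl ⟨hτ' _ _ h2, hτ' _ _ h3⟩
  · exact Or.inr ⟨hτ' _ _ h2, hτ' _ _ h3⟩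

end Pool.Agent.P.MP_530519_al
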