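import Pool.Agent.P.MP_530519_al.Lin

/-! Solvable linear groups with few orbits have very small derived length. -/

namespace Pool.Agent.P.MP_530519_al

open Subgroup
open scoped Classical

variable {G : Type} [Group G] [Finite G] {V : Type} [AddCommGroup V] [Finite V]
  {ρ : G →* Module.End ℤ V}

/-- The ring generated by the image of a subgroup. -/
def rk (ρ : G →* Module.End ℤ V) (B : Subgroup G) : Subring (Module.End ℤ V) :=
  Subring.closure (ρ '' B)

instance end_finite : Finite (Module.End ℤ V) := Finite.of_injective _ DFunLike.coe_injective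

theorem rk_comm {B : Subgroup G} {g : G} (hg : ∀ b ∈ B, g * b = b * g) :
    ∀ x ∈ rk ρ B, ρ g * x = x * ρ g := by
  have : rk ρ B ≤ Subring.centralizer {ρ g} := Subring.closure_le.mpr (by
    rintro _ ⟨b, hb, rfl⟩ _ rfl
    rw [← map_mul, hg b hb, map_mul])
  exact fun x hx => this hx _ rfl

theorem rk_mul_comm {B : Subgroup G} (hB : ∀ x ∈ B, ∀ y ∈ B, x * y = y * x) :
    ∀ x ∈ rk ρ B, ∀ y ∈ rk ρ B, x * y = y * x := by
  intro x hx
  have : rk ρ B ≤ Subring.centralizer {x} := Subring.closure_le.mpr (by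
    rintro _ ⟨b, hb, rfl⟩ _ rfl
    exact (rk_comm (hB b hb) _ hx).symm)
  exact fun y hy => this hy _ rfl

theorem rk_cf {B : Subgroup G} [hB : B.Normal] (g : G) : ∀ x ∈ rk ρ B, cf ρ g x ∈ rk ρ B := by
  have : rk ρ B ≤ (rk ρ B).comap (cf ρ g) := Subring.closure_le.mpr (by
    rintro _ ⟨b, hb, rfl⟩
    exact Subring.subset_closure ⟨_, hB.conj_mem b hb g, (cf_rho g b).symm⟩)
  exact this

theorem range_eq_of_card {x y : Module.End ℤ V} (h : LinearMap.range x ≤ LinearMap.range y)
    (h' : Nat.card (LinearMap.range y) ≤ Nat.card (LinearMap.range x)) :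
    LinearMap.range x = LinearMap.range y :=
  SetLike.coe_injective <| Set.Finite.eq_of_subset_of_card_le (Set.toFinite _) h h'

theorem card_range_cf (g : G) (x : Module.End ℤ V) :
    Nat.card (LinearMap.range (cf ρ g x)) ≤ Nat.card (LinearMap.range x) := by
  refine Nat.card_le_card_of_surjective
    (fun w : LinearMap.range x => (⟨ρ g w, ?_⟩ : LinearMap.range (cf ρ g x))) ?_
  · obtain ⟨_, v, rfl⟩ := w
    exact ⟨ρ g v, cf_apply g x v⟩
  · rintro ⟨_, v, rfl⟩
    exact ⟨⟨_, ρ g⁻¹ v, rfl⟩, rfl⟩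

theorem rk_inj (hρ : Irred ρ) (hs : ¬ ∃ e, Sys ρ e) {B : Subgroup G} [B.Normal]
    (hB : ∀ x ∈ B, ∀ y ∈ B, x * y = y * x) : ∀ x ∈ rk ρ B, x ≠ 0 → Function.Injective x := by
  have := hρ.1
  have hc := rk_mul_comm (ρ := ρ) hB
  have hidem : ∀ f ∈ rk ρ B, f * f = f → f ≠ 0 → f = 1 := by
    obtain ⟨e, ⟨he, he1, he0⟩, hmin⟩ := Set.exists_min_image
      {f | f ∈ rk ρ B ∧ f * f = f ∧ f ≠ 0} (fun f => Nat.card (LinearMap.range f))
      (Set.toFinite _) ⟨1, one_mem _, one_mul _, one_ne_zero⟩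
    have h1 : e = 1 := by
      by_contra hne
      refine hs ⟨e, he1, he0, hne, fun g => ?_⟩
      rw [or_iff_not_imp_right]
      intro h0
      have h2 := rk_cf g e he
      have h3 : cf ρ g e * cf ρ g e = cf ρ g e := by rw [← map_mul, he1]
      have h4 := hmin (cf ρ g e * e) ⟨mul_mem h2 he, by
        rw [mul_assoc, ← mul_assoc e, ← hc _ h2 _ he, mul_assoc, he1, ← mul_assoc, h3], h0⟩
      have h5 : LinearMap.range (cf ρ g e * e) = LinearMap.range e :=
        range_eq_of_card (by rw [hc _ h2 _ he]; exact LinearMap.range_comp_le_range _ _) h4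
      have h6 : LinearMap.range (cf ρ g e * e) = LinearMap.range (cf ρ g e) :=
        range_eq_of_card (LinearMap.range_comp_le_range _ _) ((card_range_cf g e).trans h4)
      have key : ∀ a b : Module.End ℤ V, a * a = a → LinearMap.range b ≤ LinearMap.range a →
          a * b = b := fun a b ha hb => by
        ext v
        obtain ⟨w, hw⟩ := hb ⟨v, rfl⟩
        rw [Module.End.mul_apply, ← hw]
        exact congrArg (fun x => x w) ha
      rw [← key _ _ he1 (h6.symm.trans h5).le, ← hc _ h2 _ he, key _ _ h3 (h5.symm.trans h6).le]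
    intro f hf h2 h3
    have h4 := hmin f ⟨hf, h2, h3⟩
    rw [h1] at h4
    have h5 : LinearMap.range (1 : Module.End ℤ V) = ⊤ := LinearMap.range_id
    exact eq_one_of_idem h2 ((range_eq_of_card (y := 1) (h5 ▸ le_top) h4).trans h5)
  have hnil : ∀ x ∈ rk ρ B, IsNilpotent x → x = 0 := by
    obtain ⟨y, ⟨hy, hy0⟩, hmin⟩ := Set.exists_min_image
      {f | f ∈ rk ρ B ∧ f ≠ 0} (fun f => Nat.card (LinearMap.range f))
      (Set.toFinite _) ⟨1, one_mem _, one_ne_zero⟩
    have h1 : ∀ x ∈ rk ρ B, IsNilpotent x → x * y = 0 := by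
      rintro x hx ⟨n, hn⟩
      by_contra h0
      have h2 : LinearMap.range (x * y) = LinearMap.range y := range_eq_of_card
        (by rw [hc _ hx _ hy]; exact LinearMap.range_comp_le_range _ _)
        (hmin _ ⟨mul_mem hx hy, h0⟩)
      have h3 : ∀ j, LinearMap.range (x ^ j * y) = LinearMap.range y := by
        intro j
        induction j with
        | zero => simp
        | succ j ih =>
          rw [pow_succ', mul_assoc, Module.End.mul_eq_comp, LinearMap.range_comp, ih,
            ← LinearMap.range_comp, ← Module.End.mul_eq_comp, h2]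
      have h4 := h3 n
      rw [hn, zero_mul, LinearMap.range_zero] at h4
      exact hy0 (LinearMap.range_eq_bot.mp h4.symm)
    let W : Submodule ℤ V := ⨅ x ∈ {x | x ∈ rk ρ B ∧ IsNilpotent x}, LinearMap.ker x
    have hW : ∀ v, v ∈ W ↔ ∀ x ∈ rk ρ B, IsNilpotent x → x v = 0 := fun v => by
      simp [W, Submodule.mem_iInf]
    rcases hρ.2 W (fun g v hv => (hW _).mpr fun x hx hn => by
      have := (hW v).mp hv _ (rk_cf g⁻¹ x hx) (hn.map _)
      rw [← rho_inv ρ g v, cf_apply, rho_eq_zero] at this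
      exact this) with h2 | h2
    · refine absurd (LinearMap.ext fun v => ?_) hy0
      have : y v ∈ W := (hW _).mpr fun x hx hn => congrArg (fun x => x v) (h1 x hx hn)
      rwa [h2] at this
    · exact fun x hx hn => LinearMap.ext fun v => (hW v).mp (h2 ▸ Submodule.mem_top) x hx hn
  intro x hx h0
  obtain ⟨N, hN, h1⟩ := exists_idem_pow x
  have h2 := hidem _ (pow_mem hx N) h1 fun h => h0 (hnil x hx ⟨N, h⟩)
  obtain ⟨N, rfl⟩ := Nat.exists_eq_succ_of_ne_zero hN.ne'
  intro u v huv
  have : (x ^ N * x) u = (x ^ N * x) v := by simp [huv]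
  rwa [← pow_succ, h2] at this

theorem prim_structure [Group.IsSolvable G] (hρ : Irred ρ) (hs : ¬ ∃ e, Sys ρ e)
    (hinj : Function.Injective ρ) : ∃ (Z C : Subgroup G) (q D y r : ℕ), Z.Normal ∧
      (∀ x ∈ Z, ∀ y ∈ Z, x * y = y * x) ∧ derivedSeries G 1 ≤ C ∧ Z ≤ C ∧ C.index ≤ q ∧
      Nat.card Z ≤ q ∧ 2 ≤ q ∧ Nat.card V = q ^ D ∧ y ≤ D * D ∧ 2 ^ r ≤ y ∧
      Z.relIndex C ≤ (y * y) ^ r := by
  have := hρ.1
  obtain ⟨Z, ⟨hZ, hZc⟩, hZm⟩ := Set.exists_max_image
    {Z : Subgroup G | Z.Normal ∧ ∀ x ∈ Z, ∀ y ∈ Z, x * y = y * x} (fun Z => Nat.card Z)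
    (Set.toFinite _) ⟨⊥, inferInstance, by simp⟩
  set C := centralizer (Z : Set G) with hC
  have hCn : C.Normal := inferInstance
  have hZC : Z ≤ C := fun x hx y hy => hZc y hy x hx
  have hCZ : ∀ c ∈ C, ∀ z ∈ Z, c * z = z * c := fun c hc z hz => (hc z hz).symm
  obtain ⟨E, ⟨hE, hZE, hEC, hEE⟩, hEm⟩ := Set.exists_max_image
    {E : Subgroup G | E.Normal ∧ Z ≤ E ∧ E ≤ C ∧ ⁅E, E⁆ ≤ Z} (fun Z => Nat.card Z)
    (Set.toFinite _) ⟨Z, hZ, le_rfl, hZC, commutator_le_left _ _⟩
  have hZE' : E ⊓ centralizer (E : Set G) ≤ Z := by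
    have h1 : Z ≤ centralizer (E : Set G) := fun z hz x hx => hCZ x (hEC hx) z hz
    exact (eq_of_le_of_card_ge (le_inf hZE h1)
      (hZm (E ⊓ centralizer (E : Set G)) ⟨inferInstance, fun x hx y hy => hy.2 x hx.1⟩)).ge
  have hC2 : C ⊓ centralizer (E : Set G) ≤ Z := by
    by_contra hc
    obtain ⟨j, h1, h2⟩ := exists_dser _ _ hc
    set A := dser (C ⊓ centralizer (E : Set G)) j
    have h3 : A ≤ C ⊓ centralizer (E : Set G) := dser_le _ _
    have h4 : E = E ⊔ A := eq_of_le_of_card_ge le_sup_left (hEm _ ⟨inferInstance,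
      hZE.trans le_sup_left, sup_le hEC (h3.trans inf_le_left), by
        have h5 : ⁅A, E⁆ ≤ Z := by
          rw [commutator_eq_bot_iff_le_centralizer.mpr (h3.trans inf_le_right)]; exact bot_le
        rw [commutator_le]
        intro a ha b hb
        rw [← QuotientGroup.eq_one_iff, ← QuotientGroup.mk'_apply, map_commutatorElement,
          commutatorElement_eq_one_iff_mul_comm]
        have h6 : ∀ X Y : Subgroup G, ⁅X, Y⁆ ≤ Z → ∀ x ∈ X, ∀ y ∈ Y,
            QuotientGroup.mk' Z x * QuotientGroup.mk' Z y =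
              QuotientGroup.mk' Z y * QuotientGroup.mk' Z x := fun X Y h x hx y hy => by
          rw [← commutatorElement_eq_one_iff_mul_comm, ← map_commutatorElement,
            QuotientGroup.mk'_apply, QuotientGroup.eq_one_iff]
          exact h (commutator_mem_commutator hx hy)
        obtain ⟨a₁, ha₁, a₂, ha₂, rfl⟩ := mem_sup_of_normal_right.mp ha
        obtain ⟨b₁, hb₁, b₂, hb₂, rfl⟩ := mem_sup_of_normal_right.mp hb
        simp only [map_mul]
        exact (Commute.mul_left
          (Commute.mul_right (h6 E E hEE _ ha₁ _ hb₁) (h6 A E h5 _ hb₂ _ ha₁).symm)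
          (Commute.mul_right (h6 A E h5 _ ha₂ _ hb₁) (h6 A A h2 _ ha₂ _ hb₂)) :)⟩)
    exact h1 ((le_inf (h4 ▸ le_sup_right) (h3.trans inf_le_right)).trans hZE')
  -- the field
  letI : CommRing (rk ρ Z) := { (inferInstance : Ring (rk ρ Z)) with
    mul_comm := fun a b => Subtype.ext (rk_mul_comm (ρ := ρ) hZc a.1 a.2 b.1 b.2) }
  have : NoZeroDivisors (rk ρ Z) := ⟨fun {a b} hab => by
    rw [or_iff_not_imp_left]
    intro ha
    refine Subtype.ext (LinearMap.ext fun v => rk_inj hρ hs hZc a a.2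
      (fun h => ha (Subtype.ext h)) ?_)
    simpa using congrArg (fun x : rk ρ Z => (x : Module.End ℤ V) v) hab⟩
  have : IsDomain (rk ρ Z) := NoZeroDivisors.to_isDomain _
  let ι : Z →* rk ρ Z :=
    { toFun := fun z => ⟨ρ z, Subring.subset_closure ⟨z, z.2, rfl⟩⟩
      map_one' := Subtype.ext (by simp)
      map_mul' := fun a b => Subtype.ext (by simp) }
  have hι : Function.Injective ι := fun a b h => Subtype.ext (hinj (congrArg Subtype.val h))
  have hcyc : IsCyclic Z := isCyclic_of_injective_ringHom ι hι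
  let R : E →* Module.End (rk ρ Z) V :=
    { toFun := fun g =>
        { toFun := ρ g
          map_add' := map_add _
          map_smul' := fun x v => congrArg (fun x => x v) (rk_comm (hCZ g (hEC g.2)) x x.2) }
      map_one' := LinearMap.ext fun v => by simp
      map_mul' := fun a b => LinearMap.ext fun v => by simp }
  have hcomm : ∀ g x : E, (g : G) * x * (g : G)⁻¹ * (x : G)⁻¹ ∈ Z := fun g x =>
    hEE (commutator_mem_commutator g.2 x.2)
  let χ : E → E →* rk ρ Z := fun x =>
    { toFun := fun g => ι ⟨_, hcomm g x⟩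
      map_one' := by rw [← ι.map_one]; congr 1; ext; simp
      map_mul' := fun a b => by
        rw [← ι.map_mul]; congr 1; ext
        have := hCZ a (hEC a.2) _ (hcomm b x)
        have h2 := hZc _ (hcomm a x) _ (hcomm b x)
        simp only [Subgroup.coe_mul]
        rw [h2]
        calc (a : G) * b * x * ((a : G) * b)⁻¹ * (x : G)⁻¹
            = (a * (b * x * (b : G)⁻¹ * (x : G)⁻¹)) * (x * (a : G)⁻¹ * (x : G)⁻¹) := by group
          _ = _ := by rw [this]; group }
  have hNE : (Z.subgroupOf E).Normal := inferInstance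
  obtain ⟨D, h1, h2⟩ := dim_bound (k := rk ρ Z) (ι := E ⧸ Z.subgroupOf E) (fun i => R i.out)
    (fun i h0 => by
      obtain ⟨v, hv⟩ := exists_ne (0 : V)
      exact hv ((rho_eq_zero ρ _ v).mp (congrArg (fun x => x v) h0)))
    R (fun i => χ i.out) (fun i j hij => by
      rw [← out_mem_iff]
      refine hZE' ⟨(j.out⁻¹ * i.out).2, fun g hg => ?_⟩
      have : g * (i.out : G) * g⁻¹ * (i.out : G)⁻¹ = g * (j.out : G) * g⁻¹ * (j.out : G)⁻¹ :=
        congrArg Subtype.val (hι (congrArg (fun f : E →* _ => f ⟨g, hg⟩) hij))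
      change g * ((j.out : G)⁻¹ * i.out) = (j.out : G)⁻¹ * i.out * g
      generalize (i.out : G) = x at this ⊢
      generalize (j.out : G) = y at this ⊢
      calc g * (y⁻¹ * x) = g * y⁻¹ * g⁻¹ * (g * x * g⁻¹ * x⁻¹) * x * g := by group
        _ = _ := by rw [this]; group)
    (fun i g => LinearMap.ext fun v => by
      change ρ g (ρ i.out (ρ (g : G)⁻¹ v)) =
        ρ ((g : G) * i.out * (g : G)⁻¹ * (i.out : G)⁻¹) (ρ i.out v)
      rw [rho_mul, rho_mul, rho_mul, inv_mul_cancel_right])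
  obtain ⟨S, h3, h4, h5⟩ := exists_gens E Z hZE
  have hcard : Nat.card Z ≤ Nat.card (rk ρ Z) := Nat.card_le_card_of_injective ι hι
  let f : G →* MulAut Z := MulAut.conjNormal
  have hker : f.ker ≤ C := fun g hg z hz => by
    have := congrArg (fun φ : MulAut Z => (φ ⟨z, hz⟩ : G)) (MonoidHom.mem_ker.mp hg)
    simp only [f, MulAut.conjNormal_apply, MulAut.one_apply] at this
    exact (mul_inv_eq_iff_eq_mul.mp this).symm
  refine ⟨Z, C, Nat.card (rk ρ Z), D, Z.relIndex E, S.card, hZ, hZc, ?_, hZC, ?_, hcard,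
    Finite.one_lt_card, h1, h2, h5, ?_⟩
  · refine le_trans (commutator_le.mpr fun a _ b _ => ?_) hker
    rw [MonoidHom.mem_ker, map_commutatorElement, commutatorElement_eq_one_iff_mul_comm]
    apply (IsCyclic.mulAutMulEquiv Z).injective
    rw [map_mul, map_mul, mul_comm]
  · refine (index_antitone hker).trans ?_
    rw [index_ker]
    refine (card_le_card_group _).trans ?_
    rw [IsCyclic.card_mulAut]
    exact (Nat.totient_le _).trans hcard
  · set y := Z.relIndex E
    have hy : 0 < y := Nat.pos_of_ne_zero FiniteIndex.index_ne_zero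
    have h6 : ∀ w : G, Nat.card {x : E // (x : G) ^ y = w} ≤ y * y := by
      intro w
      have := Fintype.ofFinite Z
      have h7 : ∀ u : G, Nat.card {z : Z // (z : G) ^ y = u} ≤ y := by
        intro u
        rcases isEmpty_or_nonempty {z : Z // (z : G) ^ y = u} with h0 | ⟨⟨z₀, h0⟩⟩
        · simp
        refine le_trans ?_ (IsCyclic.card_pow_eq_one_le (α := Z) hy)
        rw [← Fintype.card_subtype, ← Nat.card_eq_fintype_card]
        refine Nat.card_le_card_of_injective (fun z => ⟨z₀⁻¹ * z.1, Subtype.ext ?_⟩) ?_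
        · simp only [SubgroupClass.coe_pow, Subgroup.coe_mul, Subgroup.coe_inv, OneMemClass.coe_one]
          rw [Commute.mul_pow (hZc _ (Z.inv_mem z₀.2) _ z.1.2), z.2, inv_pow, h0, inv_mul_cancel]
        · intro a b hab
          exact Subtype.ext (mul_left_cancel (congrArg Subtype.val hab))
      have := Fintype.ofFinite (E ⧸ Z.subgroupOf E)
      have h8 : ∀ x : E,
          ((((QuotientGroup.mk x : E ⧸ Z.subgroupOf E).out⁻¹ * x : E)) : G) ∈ Z := fun x =>
        mem_subgroupOf.mp (QuotientGroup.eq.mp (QuotientGroup.out_eq' _))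
      let F : {x : E // (x : G) ^ y = w} → Σ i : E ⧸ Z.subgroupOf E,
          {z : Z // (z : G) ^ y = ((i.out : G) ^ y)⁻¹ * w} := fun x =>
        ⟨QuotientGroup.mk x.1, ⟨_, h8 x.1⟩, by
          rw [eq_inv_mul_iff_mul_eq,
            ← Commute.mul_pow (hCZ _ (hEC (Subtype.property _)) _ (h8 x.1))]
          simpa using x.2⟩
      have hF : Function.Injective F := by
        intro a b hab
        have h8 := congrArg (fun s : Σ i : E ⧸ Z.subgroupOf E,
          {z : Z // (z : G) ^ y = ((i.out : G) ^ y)⁻¹ * w} => (s.1.out : G) * s.2.1) hab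
        simp only [F, Subgroup.coe_mul, Subgroup.coe_inv, mul_inv_cancel_left] at h8
        exact Subtype.ext (Subtype.ext h8)
      refine (Nat.card_le_card_of_injective F hF).trans ?_
      rw [Nat.card_sigma]
      exact (Finset.sum_le_card_nsmul _ _ y fun i _ => h7 _).trans (by
        rw [Finset.card_univ, ← Nat.card_eq_fintype_card]; rfl)
    let F : C ⧸ Z.subgroupOf C → ∀ s : S, {x : E // (x : G) ^ y = (s : G) ^ y} := fun c s =>
      ⟨⟨c.out * s * (c.out : G)⁻¹, hE.conj_mem _ (h3 s.2) _⟩, by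
        simp only [conj_pow]
        rw [hCZ _ c.out.2 _ (Z.pow_relIndex_mem (h3 s.2)), mul_inv_cancel_right]⟩
    have hF : Function.Injective F := by
      intro c c' h
      rw [← out_mem_iff]
      refine hC2 ⟨(c'.out⁻¹ * c.out).2, ?_⟩
      have h7 : E ≤ centralizer {((c'.out⁻¹ * c.out : C) : G)} := by
        refine h4.trans (sup_le (fun z hz => ?_) ((closure_le _).mpr fun s hs => ?_))
        · exact mem_centralizer_singleton_iff.mpr (hCZ _ (Subtype.property _) z hz).symm
        · have := congrArg (fun x => (x.1 : G)) (congrFun h ⟨s, hs⟩)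
          simp only [F] at this
          simp only [SetLike.mem_coe, mem_centralizer_singleton_iff, Subgroup.coe_mul,
            Subgroup.coe_inv]
          generalize (c.out : G) = a at this ⊢
          generalize (c'.out : G) = b at this ⊢
          calc s * (b⁻¹ * a) = b⁻¹ * (b * s * b⁻¹) * a := by group
            _ = _ := by rw [← this]; group
      exact fun x hx => mem_centralizer_singleton_iff.mp (h7 hx)
    refine (Nat.card_le_card_of_injective F hF).trans ?_
    rw [Nat.card_pi]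
    exact (Finset.prod_le_pow_card _ _ _ fun s _ => h6 _).trans (by simp)

theorem prim_derived [Group.IsSolvable G] (hρ : Irred ρ) (hs : ¬ ∃ e, Sys ρ e)
    (hinj : Function.Injective ρ) {A b : ℕ} (hA : no ρ ≤ 2 ^ A)
    (hb : ∀ x, x ≤ A + 2 + 8 * (Nat.log 2 x + 1) ^ 2 → Nat.log 2 x + 1 ≤ b) :
    derivedSeries G (8 * b ^ 2 + 2) = ⊥ := by
  obtain ⟨Z, C, q, D, y, r, hZ, hZc, h1, hZC, h2, h3, h4, h5, h6, h7, h8⟩ :=
    prim_structure hρ hs hinj
  have := Fintype.ofFinite G
  set L := Nat.log 2 D + 1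
  have h9 : D < 2 ^ L := Nat.lt_pow_succ_log_self (by norm_num) D
  have h10 : y ≤ 2 ^ (2 * L) := h6.trans (by rw [two_mul, pow_add]; exact Nat.mul_le_mul h9.le h9.le)
  have h11 : r ≤ 2 * L := (Nat.pow_le_pow_iff_right (by norm_num)).mp (h7.trans h10)
  have h12 : Z.relIndex C ≤ 2 ^ (8 * L ^ 2) := h8.trans (by
    calc (y * y) ^ r ≤ (2 ^ (2 * L) * 2 ^ (2 * L)) ^ (2 * L) :=
          (Nat.pow_le_pow_left (Nat.mul_le_mul h10 h10) _).trans
            (Nat.pow_le_pow_right (by positivity) h11)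
      _ = _ := by rw [← pow_add, ← pow_mul]; congr 1; ring)
  have h13 : Nat.card V ≤ Nat.card G * no ρ :=
    card_le_no ρ id fun a => ⟨fun g => ρ g a, fun _ h => h⟩
  have h14 : Nat.card G ≤ q * 2 ^ (8 * L ^ 2) * q := by
    rw [← C.card_mul_index, ← card_mul_rel hZC]
    exact Nat.mul_le_mul (Nat.mul_le_mul h3 h12) h2
  have h15 : D ≤ A + 2 + 8 * L ^ 2 := by
    rcases le_or_gt D 2 with h | h
    · omega
    obtain ⟨k, rfl⟩ : ∃ k, D = k + 2 := ⟨D - 2, by omega⟩
    have h16 : q * q * q ^ k ≤ q * q * 2 ^ (A + 8 * L ^ 2) := by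
      calc q * q * q ^ k = Nat.card V := by rw [h5]; ring
        _ ≤ q * 2 ^ (8 * L ^ 2) * q * 2 ^ A := h13.trans (Nat.mul_le_mul h14 hA)
        _ = _ := by ring
    have h17 := (Nat.pow_le_pow_iff_right (by norm_num)).mp
      ((Nat.pow_le_pow_left h4 k).trans (Nat.le_of_mul_le_mul_left h16 (by positivity)))
    omega
  have h16 := derived_le Z h1 (h12.trans (Nat.pow_le_pow_right (by norm_num)
    (Nat.mul_le_mul_left 8 (Nat.pow_le_pow_left (hb D h15) 2))))
  rw [show 8 * b ^ 2 + 2 = 1 + 8 * b ^ 2 + 1 by ring, derivedSeries_succ, eq_bot_iff,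
    commutator_le]
  exact fun x hx y hy => commutatorElement_eq_one_iff_mul_comm.mpr (hZc x (h16 hx) y (h16 hy))

def tau : ℕ → ℕ
  | 0 => 2
  | j + 1 => (tau j + 1).choose 2

theorem le_tau (j : ℕ) : 2 * 2 ^ 2 ^ j ≤ tau (j + 2) := by
  induction j with
  | zero => decide
  | succ j ih =>
    rw [tau, Nat.choose_two_right, Nat.le_div_iff_mul_le (by norm_num), pow_succ, pow_mul,
      Nat.add_sub_cancel]
    nlinarith [Nat.mul_le_mul ih ih]

theorem derived_le_ker {A b : ℕ}
    (hb : ∀ x, x ≤ A + 2 + 8 * (Nat.log 2 x + 1) ^ 2 → Nat.log 2 x + 1 ≤ b) (j : ℕ) :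
    ∀ (G : Type) [Group G] [Finite G] [Group.IsSolvable G] (V : Type) [AddCommGroup V] [Finite V]
      (ρ : G →* Module.End ℤ V), Irred ρ → no ρ ≤ 2 ^ A → no ρ < tau j →
      derivedSeries G (j * b ^ 2 + (8 * b ^ 2 + 2)) ≤ ρ.ker := by
  induction j with
  | zero =>
    intro G _ _ _ V _ _ ρ h _ h2
    exact absurd (two_le_no h) (not_le.mpr h2)
  | succ j ih =>
    suffices key : ∀ (G : Type) [Group G] [Finite G] [Group.IsSolvable G] (V : Type)
        [AddCommGroup V] [Finite V] (ρ : G →* Module.End ℤ V), Function.Injective ρ → Irred ρ →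
        no ρ ≤ 2 ^ A → no ρ < tau (j + 1) →
        derivedSeries G ((j + 1) * b ^ 2 + (8 * b ^ 2 + 2)) ≤ ρ.ker by
      intro G _ _ _ V _ _ ρ h h1 h2
      let π := QuotientGroup.mk' ρ.ker
      have hπ : Function.Surjective π := QuotientGroup.mk'_surjective _
      let ρ' : G ⧸ ρ.ker →* Module.End ℤ V := QuotientGroup.lift ρ.ker ρ fun _ h => h
      have h3 : orb ρ' = orb ρ := Setoid.ext fun u v =>
        ⟨fun ⟨g, hg⟩ => by obtain ⟨g, rfl⟩ := hπ g; exact ⟨g, hg⟩, fun ⟨g, hg⟩ => ⟨π g, hg⟩⟩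
      have h4 : no ρ' = no ρ := by unfold no; rw [h3]
      have h5 := key (G ⧸ ρ.ker) V ρ' (by
        rw [injective_iff_map_eq_one]
        intro g hg
        obtain ⟨g, rfl⟩ := hπ g
        exact (QuotientGroup.eq_one_iff g).mpr hg)
        ⟨h.1, fun W hW => h.2 W fun g => hW (π g)⟩ (h4 ▸ h1) (h4 ▸ h2)
      rw [← map_derivedSeries_eq hπ, map_le_iff_le_comap] at h5
      exact h5
    intro G _ _ _ V _ _ ρ hinj h h1 h2
    by_cases hs : ∃ e, Sys ρ e
    swap
    · exact (derivedSeries_antitone G (Nat.le_add_left _ _)).trans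
        ((prim_derived h hs hinj h1 hb).le.trans bot_le)
    obtain ⟨e, he, hM⟩ := exists_coatom h hs
    have h3 := he.choose_le hM.1
    have h4 : no (blk ρ e) < tau j := by
      by_contra h5
      have := Nat.choose_le_choose 2 (Nat.succ_le_succ (not_lt.mp h5))
      exact absurd (this.trans h3) (not_le.mpr h2)
    have h5 : no (blk ρ e) ≤ 2 ^ A := by
      refine le_trans ?_ (h3.trans h1)
      rw [Nat.choose_two_right, Nat.le_div_iff_mul_le (by norm_num), Nat.add_sub_cancel]
      nlinarith [two_le_no (he.irred h)]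
    have h6 := ih _ _ _ (he.irred h) h5 h4
    set n := (stabE ρ e).index
    set L := Nat.log 2 n + 1
    have h7 : n < 2 ^ L := Nat.lt_pow_succ_log_self (by norm_num) n
    have h8 : (stabE ρ e).normalCore.index ≤ 2 ^ L ^ 2 := (index_core_le hM).trans (by
      rw [sq, pow_mul]; exact Nat.pow_le_pow_left h7.le _)
    have h9 : n ≤ L ^ 2 + A := (Nat.pow_le_pow_iff_right (by norm_num)).mp
      (he.two_pow_le.trans (by rw [pow_add]; exact Nat.mul_le_mul h8 h1))
    have h10 : derivedSeries G (0 + b ^ 2) ≤ (stabE ρ e).normalCore :=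
      derived_le (X := ⊤) _ le_top (by
        rw [relIndex_top_right]
        exact h8.trans (Nat.pow_le_pow_right (by norm_num)
          (Nat.pow_le_pow_left (hb n (by change n ≤ A + 2 + 8 * L ^ 2; omega)) 2)))
    have h11 := (derived_sub (h10.trans (normalCore_le _)) _).trans (map_mono h6)
    rw [show 0 + b ^ 2 + (j * b ^ 2 + (8 * b ^ 2 + 2)) = (j + 1) * b ^ 2 + (8 * b ^ 2 + 2) by ring]
      at h11
    set N := derivedSeries G ((j + 1) * b ^ 2 + (8 * b ^ 2 + 2))
    have hN : N.Normal := inferInstance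
    let W : Submodule ℤ V := ⨅ x ∈ N, LinearMap.ker (ρ x - 1)
    have hW : ∀ v, v ∈ W ↔ ∀ x ∈ N, ρ x v = v := fun v => by
      simp [W, Submodule.mem_iInf, sub_eq_zero]
    rcases h.2 W (fun g v hv => (hW _).mpr fun x hx => by
      have := (hW v).mp hv _ (hN.conj_mem x hx g⁻¹)
      conv_rhs => rw [← this]
      rw [rho_mul, rho_mul, inv_inv, mul_assoc g⁻¹, mul_inv_cancel_left]) with h12 | h12
    · refine absurd (LinearMap.ext fun v => ?_) he.ne_zero
      have : e v ∈ W := (hW _).mpr fun x hx => by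
        obtain ⟨y, hy, rfl⟩ := h11 hx
        exact congrArg (fun f => ((f ⟨e v, v, rfl⟩ : LinearMap.range e) : V))
          (MonoidHom.mem_ker.mp hy)
      rwa [h12] at this
    · exact fun x hx => LinearMap.ext fun v => (hW v).mp (h12 ▸ Submodule.mem_top) x hx

end Pool.Agent.P.MP_530519_al
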