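import Pool.Agent.P.MP_530519_al.Dual
import Pool.Agent.P.MP_530519_al.Prim

/-! The near-logarithmic bound for solvable groups. -/

namespace Pool.Agent.P.MP_530519_al

open Subgroup
open scoped Classical

variable {G : Type} [Group G] [Fintype G] {m : ℕ} {B : Subgroup G}

/-- The dual group, written additively. -/
def DV (B : Subgroup G) : Type := Additive (B →* ℂˣ)

noncomputable instance (B : Subgroup G) : AddCommGroup (DV B) :=
  inferInstanceAs (AddCommGroup (Additive (B →* ℂˣ)))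

instance [h : Finite (B →* ℂˣ)] : Finite (DV B) := h

/-- The action on the dual group, as a module. -/
noncomputable def rhoD (B : Subgroup G) [B.Normal] :
    G →* Module.End ℤ (DV B) where
  toFun y := AddMonoidHom.toIntLinearMap
    { toFun := fun φ => Additive.ofMul (letI := dualAct B; y • φ.toMul)
      map_zero' := rfl
      map_add' := fun _ _ => rfl }
  map_one' := by
    ext φ : 1
    exact congrArg Additive.ofMul ((dualAct B).one_smul φ.toMul)
  map_mul' y z := by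
    ext φ : 1
    exact congrArg Additive.ofMul ((dualAct B).mul_smul y z φ.toMul)

/-- A minimal normal subgroup that is elementary abelian of exponent `l`. -/
structure MinN (B : Subgroup G) (l : ℕ) : Prop where
  prime : l.Prime
  normal : B.Normal
  ne_bot : B ≠ ⊥
  comm : ∀ x ∈ B, ∀ y ∈ B, x * y = y * x
  pow : ∀ x ∈ B, x ^ l = 1
  min : ∀ W : Subgroup G, W.Normal → W ≤ B → W = ⊥ ∨ W = B

theorem exists_minN [Group.IsSolvable G] (X : Subgroup G) [hX : X.Normal] (h : X ≠ ⊥) :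
    ∃ B l, B ≤ X ∧ MinN B l := by
  obtain ⟨B, ⟨h1, h2, h3⟩, hmin⟩ := Set.exists_min_image
    {B : Subgroup G | B.Normal ∧ B ≠ ⊥ ∧ B ≤ X} (fun B => Nat.card B) (Set.toFinite _)
    ⟨X, hX, h, le_rfl⟩
  have hm : ∀ W : Subgroup G, W.Normal → W ≤ B → W = ⊥ ∨ W = B := fun W hW hWB => by
    rw [or_iff_not_imp_left]
    exact fun h0 => eq_of_le_of_card_ge hWB (hmin W ⟨hW, h0, hWB.trans h3⟩)
  obtain ⟨l, A, hl, hA, h4, h5, h6, h7⟩ := exists_elem_ab B h2
  obtain rfl := (hm A hA h4).resolve_left h5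
  exact ⟨A, l, h3, hl, hA, h5, h6, h7, hm⟩

theorem MinN.irred {l : ℕ} (h : MinN B l) : haveI := h.normal; Irred (rhoD B) := by
  have := h.normal
  have := finite_dual h.comm
  letI := commB h.comm
  refine ⟨?_, fun W hW => ?_⟩
  · have : Nontrivial (B →* ℂˣ) := by
      rw [← Finite.one_lt_card_iff_nontrivial, card_dual h.comm]
      exact (one_lt_card_iff_ne_bot B).mpr h.ne_bot
    exact this
  let Φ : Subgroup (B →* ℂˣ) := AddSubgroup.toSubgroup' W.toAddSubgroup
  let H : Subgroup B := (CommGroup.subgroupOrderIsoSubgroupMonoidHom B ℂ).symm (OrderDual.toDual Φ)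
  have hH : ∀ x, x ∈ H ↔ ∀ φ ∈ Φ, φ x = 1 :=
    CommGroup.mem_subgroupOrderIsoSubgroupMonoidHom_symm_iff ℂ Φ
  have hΦ : ∀ φ, φ ∈ Φ ↔ ∀ x ∈ H, φ x = 1 := fun φ => by
    rw [← CommGroup.mem_subgroupOrderIsoSubgroupMonoidHom_iff, OrderIso.apply_symm_apply]; rfl
  rcases h.min (H.map B.subtype) ⟨by
    rintro _ ⟨x, hx, rfl⟩ g
    refine ⟨MulAut.conjNormal g x, (hH _).mpr fun φ hφ => ?_, rfl⟩
    have := (hH x).mp hx _ (hW g⁻¹ (Additive.ofMul φ) hφ)
    change φ (MulAut.conjNormal g⁻¹⁻¹ x) = 1 at this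
    rwa [inv_inv] at this⟩ (map_subtype_le _) with h1 | h1
  · refine Or.inr (eq_top_iff.mpr fun φ _ => (hΦ φ.toMul).mpr fun x hx => ?_)
    have : (x : G) ∈ (⊥ : Subgroup G) := h1 ▸ ⟨x, hx, rfl⟩
    rw [show x = 1 from Subtype.ext this, map_one]
  · refine Or.inl (eq_bot_iff.mpr fun φ hφ => ?_)
    change φ.toMul = 1
    ext x
    obtain ⟨y, hy, h2⟩ : (x : G) ∈ H.map B.subtype := h1.symm ▸ x.2
    rw [← show y = x from Subtype.ext h2, (hH y).mp hy φ.toMul hφ]; rfl

theorem MinN.no_le [Group.IsSolvable G] {l : ℕ} (h : MinN B l) (hm : Hyp m G) :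
    haveI := h.normal; haveI := finite_dual h.comm; no (rhoD B) ≤ 4 * m * m := by
  have := h.normal
  have := finite_dual h.comm
  have he : Nat.card G ≠ 0 := Nat.card_pos.ne'
  have hG : ∀ g : G, g ^ Nat.card G = 1 := fun _ => pow_card_eq_one'
  refine le_trans ?_ (hm.card_XS h.prime he hG)
  choose F hF hF' using exists_XS_over h.prime he hG h.pow
  rw [← Nat.card_eq_card_toFinset']
  refine Nat.card_le_card_of_injective
    (fun q : Quotient (orb (rhoD B)) => (⟨F q.out.toMul, hF _⟩ : XS l (Nat.card G) G)) ?_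
  intro q q' hq
  have h1 : F q.out.toMul = F q'.out.toMul := congrArg Subtype.val hq
  obtain ⟨y, hy⟩ := over_rel (mem_XS.mp (hF q.out.toMul)).1 (hF' _) (h1 ▸ hF' q'.out.toMul)
  rw [← q.out_eq, ← q'.out_eq]
  exact Quotient.sound ⟨y, congrArg Additive.ofMul hy⟩
  where Nat.card_eq_card_toFinset' {s : Finset (G → ℂ)} : Nat.card s = s.card := by simp

theorem log_bound (β : ℕ) {a : ℕ} (ha : a ≤ 2 ^ β) (ha1 : 1 ≤ a) (x : ℕ)
    (hx : x ≤ 2 * a + 2 + 2 + 8 * (Nat.log 2 x + 1) ^ 2) : Nat.log 2 x + 1 ≤ β + 12 := by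
  by_contra hc
  obtain ⟨k, hk⟩ : ∃ k, Nat.log 2 x = k + 12 := ⟨Nat.log 2 x - 12, by omega⟩
  have h1 : 2 ^ Nat.log 2 x ≤ x := Nat.pow_log_le_self 2 (by rintro rfl; simp at hk)
  have h2 : ∀ k, 8 * (k + 12 + 1) ^ 2 ≤ 2 ^ (k + 11) := by
    intro k
    induction k with
    | zero => norm_num
    | succ k ih => 
      rw [show k + 1 + 11 = k + 11 + 1 by ring, pow_succ 2 (k + 11)]
      have : 8 * (k + 1 + 12 + 1) ^ 2 ≤ 8 * (k + 12 + 1) ^ 2 * 2 := by ring_nf; omega
      omega
  have h3 := h2 k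
  have h4 : 2 ^ β ≤ 2 ^ k := Nat.pow_le_pow_right (by norm_num) (by omega)
  rw [hk] at h1 hx
  rw [pow_add] at h1 h3
  omega

/-- The length of the derived series that is used. -/
def dd (β : ℕ) : ℕ := (β + 12) ^ 3 + 2

section

variable {a β : ℕ} (hma : m < 2 ^ a) (ha : a ≤ 2 ^ β)
include hma

theorem Hyp.one_le (h : Hyp m G) : 1 ≤ a := by
  rcases Nat.eq_zero_or_pos a with rfl | h0
  · have := h.pos; omega
  · exact h0

theorem Hyp.index_le (h : Hyp m G) (d : ℕ) :
    (derivedSeries G d).index ≤ 2 ^ (a * (20 * a) ^ d) := by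
  have : Fintype (G ⧸ derivedSeries G d) := Fintype.ofFinite _
  exact card_le_of_derived hma d _ (h.of_surj _ (QuotientGroup.mk'_surjective _)) (by
    rw [← map_derivedSeries_eq (QuotientGroup.mk'_surjective _), Subgroup.map_eq_bot_iff,
      QuotientGroup.ker_mk'])

include ha

theorem MinN.central [Group.IsSolvable G] {l : ℕ} (h : MinN B l) (hm : Hyp m G) :
    ∀ x ∈ derivedSeries G (dd β), ∀ v ∈ B, x * v = v * x := by
  have := h.normal
  have := finite_dual h.comm
  letI := commB h.comm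
  have ha1 := hm.one_le hma
  have h1 : no (rhoD B) ≤ 2 ^ (2 * a + 2) := (h.no_le hm).trans (by
    rw [pow_add, two_mul, pow_add]; nlinarith)
  have h2 : 2 ^ (2 * a + 2) ≤ 2 ^ 2 ^ (β + 2) :=
    Nat.pow_le_pow_right (by norm_num) (by rw [pow_add]; omega)
  have h3 := le_tau (β + 2)
  have h4 := derived_le_ker (log_bound β ha ha1) (β + 2 + 2) G _ (rhoD B) h.irred h1
    (by have : 0 < 2 ^ 2 ^ (β + 2) := by positivity
        omega)
  rw [show (β + 2 + 2) * (β + 12) ^ 2 + (8 * (β + 12) ^ 2 + 2) = dd β by unfold dd; ring] at h4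
  intro x hx v hv
  have h5 : MulAut.conjNormal x⁻¹ (⟨v, hv⟩ : B) = ⟨v, hv⟩ := by
    rw [← CommGroup.forall_apply_eq_apply_iff B (M := ℂ)]
    intro φ
    exact congrArg (fun f => (f (Additive.ofMul φ)).toMul ⟨v, hv⟩) (MonoidHom.mem_ker.mp (h4 hx))
  have h6 := congrArg Subtype.val h5
  simp only [MulAut.conjNormal_apply, inv_inv] at h6
  conv_lhs => rw [← h6]
  simp [mul_assoc]

theorem MinN.card_le [Group.IsSolvable G] {l : ℕ} (h : MinN B l) (hm : Hyp m G) :
    Nat.card B ≤ 2 ^ (a * (20 * a) ^ dd β + (2 * a + 2)) := by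
  have := h.normal
  have := finite_dual h.comm
  have : Fintype (B →* ℂˣ) := Fintype.ofFinite _
  have he : Nat.card G ≠ 0 := Nat.card_pos.ne'
  have hG : ∀ g : G, g ^ Nat.card G = 1 := fun _ => pow_card_eq_one'
  have h1 := card_le_over (h.central hma ha hm) Finset.univ (XS l (Nat.card G) G)
    (fun χ hχ => (mem_XS.mp hχ).1) fun φ _ => exists_XS_over h.prime he hG h.pow φ
  rw [Finset.card_univ, ← Nat.card_eq_fintype_card, card_dual h.comm] at h1
  rw [pow_add]
  refine h1.trans (Nat.mul_le_mul (hm.index_le hma _) ((hm.card_XS h.prime he hG).trans ?_))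
  rw [pow_add, two_mul, pow_add]; nlinarith

omit hma ha in
theorem card_quot_lt [B.Normal] (h : B ≠ ⊥) : Nat.card (G ⧸ B) < Nat.card G := by
  have h1 := B.card_mul_index
  have h2 := (one_lt_card_iff_ne_bot B).mpr h
  have h3 : 0 < B.index := Nat.pos_of_ne_zero FiniteIndex.index_ne_zero
  change B.index < _
  nlinarith

theorem log_le_wt {e : ℕ} (he : e ≠ 0) (c : ℕ → ℕ) (hc : ∀ p, p.Prime → Gen p e (c p)) (n : ℕ) :
    ∀ (G : Type) [Group G] [Fintype G] [Group.IsSolvable G], Nat.card G = n → Hyp m G →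
      (∀ g : G, g ^ e = 1) → Real.log (Nat.card G) ≤ (∑ p ∈ e.primeFactors, wt p e (c p) G) *
        ((a * (20 * a) ^ dd β + (2 * a + 2) : ℕ) : ℝ) := by
  induction n using Nat.strong_induction_on with
  | _ n ih =>
  intro G _ _ _ hn hm hG
  by_cases h0 : (⊤ : Subgroup G) = ⊥
  · rw [← card_top, h0, card_bot, Nat.cast_one, Real.log_one]
    exact mul_nonneg (Finset.sum_nonneg fun _ _ => Finset.sum_nonneg fun _ _ => by positivity)
      (by positivity)
  obtain ⟨B, l, -, hB⟩ := exists_minN (⊤ : Subgroup G) h0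
  have := hB.normal
  have : Fintype (G ⧸ B) := Fintype.ofFinite _
  have hπ := QuotientGroup.mk'_surjective B
  have h1 := ih _ (hn ▸ card_quot_lt hB.ne_bot) (G ⧸ B) rfl (hm.of_surj _ hπ) (fun g => by
    obtain ⟨g, rfl⟩ := hπ g
    rw [← map_pow, hG, map_one])
  have hl : l ∈ e.primeFactors := by
    have := Fact.mk hB.prime
    obtain ⟨x, hx, hx1⟩ := (bot_or_exists_ne_one B).resolve_left hB.ne_bot
    exact hB.prime.mem_primeFactors
      (orderOf_eq_prime (hB.pow x hx) hx1 ▸ orderOf_dvd_of_pow_eq_one (hG x)) he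
  have h2 : ∑ p ∈ e.primeFactors, wt p e (c p) (G ⧸ B) + 1 ≤
      ∑ p ∈ e.primeFactors, wt p e (c p) G := by
    rw [← Finset.add_sum_erase _ _ hl, ← Finset.add_sum_erase _ _ hl, add_right_comm]
    exact add_le_add (wt_succ _ hπ hm hB.prime he hG (hc l hB.prime) hB.comm hB.pow hB.ne_bot
      fun x hx => (QuotientGroup.eq_one_iff x).mpr hx)
      (Finset.sum_le_sum fun p _ => wt_mono _ hπ _ _ _)
  have h3 := hB.card_le hma ha hm
  generalize a * (20 * a) ^ dd β + (2 * a + 2) = y at h1 h3 ⊢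
  have h4 : Real.log (Nat.card B) ≤ y := by
    refine (Real.log_le_log (by exact_mod_cast Nat.card_pos)
      (show (Nat.card B : ℝ) ≤ (2 : ℝ) ^ y from by exact_mod_cast h3)).trans ?_
    rw [Real.log_pow]
    have := Real.log_two_lt_d9
    have : (0 : ℝ) ≤ y := by positivity
    nlinarith
  rw [card_eq_card_quotient_mul_card_subgroup B, Nat.cast_mul,
    Real.log_mul (by exact_mod_cast Nat.card_pos.ne') (by exact_mod_cast Nat.card_pos.ne')]
  have : (0 : ℝ) ≤ y := by positivity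
  nlinarith

theorem exists_central {p : ℕ} (hp : p.Prime) (n : ℕ) :
    ∀ (G : Type) [Group G] [Fintype G] [Group.IsSolvable G], Nat.card G = n → Hyp m G →
      p ∣ Nat.card (derivedSeries G (dd β)) → ∃ z ∈ derivedSeries G (dd β), z ≠ 1 ∧ z ^ p = 1 ∧
        ∀ y ∈ derivedSeries G (dd β), y * z = z * y := by
  induction n using Nat.strong_induction_on with
  | _ n ih =>
  intro G _ _ _ hn hm hd
  set N := derivedSeries G (dd β)
  have h0 : N ≠ ⊥ := fun h0 => by
    rw [h0, card_bot, Nat.dvd_one] at hd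
    exact hp.one_lt.ne' hd
  obtain ⟨B, l, hBN, hB⟩ := exists_minN N h0
  have hc := hB.central hma ha hm
  by_cases hl : l = p
  · obtain ⟨x, hx, hx1⟩ := (bot_or_exists_ne_one B).resolve_left hB.ne_bot
    exact ⟨x, hBN hx, hx1, hl ▸ hB.pow x hx, fun y hy => hc y hy x hx⟩
  have hco : l.Coprime p := (Nat.coprime_primes hB.prime hp).mpr hl
  have := hB.normal
  have : Fintype (G ⧸ B) := Fintype.ofFinite _
  have hπ := QuotientGroup.mk'_surjective B
  obtain ⟨z, h1, h2, h3, h4⟩ := ih _ (hn ▸ card_quot_lt hB.ne_bot) (G ⧸ B) rfl (hm.of_surj _ hπ) (by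
    rw [← map_derivedSeries_eq hπ, ← relIndex_ker, QuotientGroup.ker_mk']
    rw [← card_mul_rel hBN] at hd
    have := Fact.mk hB.prime
    obtain ⟨k, hk⟩ := IsPGroup.iff_card.mp
      (show IsPGroup l B from fun x => ⟨1, Subtype.ext (by simpa using hB.pow x x.2)⟩)
    exact (hk ▸ hco.symm.pow_right k).dvd_of_dvd_mul_left hd)
  rw [← map_derivedSeries_eq hπ] at h1 h4
  obtain ⟨x, hx, rfl⟩ := h1
  have h5 : x ^ p ∈ B := by rwa [← map_pow, QuotientGroup.mk'_apply, QuotientGroup.eq_one_iff] at h3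
  have h6 : (x ^ l) ^ p = 1 := by rw [← pow_mul, mul_comm, pow_mul, hB.pow _ h5]
  refine ⟨x ^ l, N.pow_mem hx l, fun h7 => h2 ?_, h6, fun y hy => ?_⟩
  · exact (pow_eq_one_iff_of_coprime hco).mp ⟨by rw [← map_pow, h7, map_one], h3⟩
  · have h7 : x⁻¹ * (y * x * y⁻¹) ∈ B := by
      have := h4 _ (mem_map_of_mem _ hy)
      rw [← QuotientGroup.eq_one_iff, ← QuotientGroup.mk'_apply]
      simp only [map_mul, map_inv, this]
      group
    have h8 : y * x ^ l * y⁻¹ = x ^ l := by
      rw [← conj_pow, ← mul_inv_cancel_left x (y * x * y⁻¹), Commute.mul_pow (hc x hx _ h7),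
        hB.pow _ h7, mul_one]
    exact mul_inv_eq_iff_eq_mul.mp h8

theorem Hyp.omega_card [Group.IsSolvable G] (hm : Hyp m G) :
    (Nat.card G).primeFactors.card ≤ a * (20 * a) ^ dd β + a + 1 + a * (20 * a) ^ dd β := by
  set N := derivedSeries G (dd β)
  have h1 := hm.index_le hma (dd β)
  have h2 := hm.omega_le (B := N ⊓ centralizer (N : Set G)) (C := N)
    (fun x hx y hy => hy.2 x hx.1) (fun x hx y hy => hy.2 x hx)
  have h3 : (Nat.card N).primeFactors ⊆
      (Nat.card (N ⊓ centralizer (N : Set G) : Subgroup G)).primeFactors := by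
    intro p hp
    have hp' := Nat.prime_of_mem_primeFactors hp
    have := Fact.mk hp'
    obtain ⟨z, h4, h5, h6, h7⟩ := exists_central hma ha hp' _ G rfl hm
      (Nat.dvd_of_mem_primeFactors hp)
    exact hp'.mem_primeFactors (orderOf_eq_prime h6 h5 ▸ orderOf_dvd_natCard _ ⟨h4, h7⟩)
      Nat.card_pos.ne'
  rw [← N.card_mul_index]
  refine omega_mul_le Nat.card_pos.ne' FiniteIndex.index_ne_zero ?_ h1
  refine (Nat.pow_le_pow_right (by norm_num) (Finset.card_le_card h3)).trans (h2.trans ?_)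
  rw [pow_succ', pow_add]
  exact Nat.mul_le_mul_left _ (Nat.mul_le_mul h1 hma.le)

theorem Hyp.log_card_le [Group.IsSolvable G] (hm : Hyp m G) :
    Real.log (Nat.card G) ≤ m * 2 ^ (4 * (β + 12) ^ 4) := by
  have he : Nat.card G ≠ 0 := Nat.card_pos.ne'
  have hG : ∀ g : G, g ^ Nat.card G = 1 := fun _ => pow_card_eq_one'
  choose! c hc using fun (p : ℕ) (hp : p.Prime) => exists_gen hp he
  have h1 := log_le_wt hma ha he c hc _ G rfl hm hG
  have h2 := hm.omega_card hma ha
  have ha1 := hm.one_le hma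
  have h3 : Real.log m ≤ a := by
    refine (Real.log_le_log (by exact_mod_cast hm.pos)
      (show (m : ℝ) ≤ (2 : ℝ) ^ a from by exact_mod_cast hma.le)).trans ?_
    rw [Real.log_pow]
    have := Real.log_two_lt_d9
    have : (0 : ℝ) ≤ a := by positivity
    nlinarith
  have h4 : ∑ p ∈ (Nat.card G).primeFactors, wt p (Nat.card G) (c p) G ≤
      (Nat.card G).primeFactors.card * (4 * m * (2 * a)) := by
    rw [← nsmul_eq_mul]
    refine Finset.sum_le_card_nsmul _ _ _ fun p hp =>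
      (hm.wt_le he hG (hc p (Nat.prime_of_mem_primeFactors hp))).trans ?_
    have : (1 : ℝ) ≤ a := by exact_mod_cast ha1
    gcongr
    linarith
  have hx : a ≤ a * (20 * a) ^ dd β := Nat.le_mul_of_pos_right _ (by positivity)
  have h5 : a * (20 * a) ^ dd β ≤ 2 ^ ((β + 5) * (dd β + 1)) := by
    rw [pow_mul, pow_succ']
    have : 20 * a ≤ 2 ^ (β + 5) := by rw [pow_add]; omega
    exact Nat.mul_le_mul (by omega) (Nat.pow_le_pow_left this _)
  generalize a * (20 * a) ^ dd β = x at *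
  have h6 : (Nat.card G).primeFactors.card * (4 * m * (2 * a)) * (x + (2 * a + 2)) ≤
      m * 2 ^ (4 * (β + 12) ^ 4) := by
    calc _ ≤ (4 * x) * (4 * m * (2 * x)) * (8 * x) :=
          Nat.mul_le_mul (Nat.mul_le_mul (by omega) (by gcongr)) (by omega)
      _ = m * (2 ^ 8 * x ^ 3) := by ring
      _ ≤ m * (2 ^ 8 * (2 ^ ((β + 5) * (dd β + 1))) ^ 3) := by gcongr
      _ ≤ _ := by
        rw [← pow_mul, ← pow_add]
        refine Nat.mul_le_mul_left _ (Nat.pow_le_pow_right (by norm_num) ?_)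
        unfold dd
        ring_nf
        omega
  refine h1.trans ((mul_le_mul_of_nonneg_right h4 (Nat.cast_nonneg _)).trans ?_)
  have h7 := (Nat.cast_le (α := ℝ)).mpr h6
  generalize 4 * (β + 12) ^ 4 = z at h7 ⊢
  push_cast at h7 ⊢
  exact h7

end

end Pool.Agent.P.MP_530519_al
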