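import Pool.Agent.P.MP_530519_al.Amb

/-! Group theoretic lemmas: Sylow subgroups, abelian sections. -/

namespace Pool.Agent.P.MP_530519_al

open Set Subgroup
open scoped Classical

variable {G : Type} [Group G]

/-- Derived series of a subgroup, inside the ambient group. -/
def dser (X : Subgroup G) : ℕ → Subgroup G
  | 0 => X
  | n + 1 => ⁅dser X n, dser X n⁆

theorem dser_le_derived (X : Subgroup G) (n : ℕ) : dser X n ≤ derivedSeries G n := by
  induction n with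
  | zero => exact le_top
  | succ n ih => exact commutator_mono ih ih

theorem dser_succ_le (X : Subgroup G) (n : ℕ) : dser X (n + 1) ≤ dser X n :=
  commutator_le.mpr fun _ ha _ hb =>
    (dser X n).mul_mem ((dser X n).mul_mem ((dser X n).mul_mem ha hb) ((dser X n).inv_mem ha))
      ((dser X n).inv_mem hb)

theorem dser_le (X : Subgroup G) (n : ℕ) : dser X n ≤ X := by
  induction n with
  | zero => exact le_rfl
  | succ n ih => exact (dser_succ_le X n).trans ih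

instance dser_normal (X : Subgroup G) [X.Normal] (n : ℕ) : (dser X n).Normal := by
  induction n with
  | zero => assumption
  | succ n ih => exact commutator_normal _ _

theorem exists_dser [Group.IsSolvable G] (X Y : Subgroup G) (h : ¬ X ≤ Y) :
    ∃ n, ¬ dser X n ≤ Y ∧ dser X (n + 1) ≤ Y := by
  obtain ⟨n, hn⟩ := Group.IsSolvable.solvable (G := G)
  have : ∃ n, dser X n ≤ Y := ⟨n, (dser_le_derived X n).trans (hn ▸ bot_le)⟩
  have h1 := Nat.find_spec this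
  cases h2 : Nat.find this with
  | zero => rw [h2] at h1; exact absurd h1 h
  | succ k => exact ⟨k, Nat.find_min this (by omega), h2 ▸ h1⟩

theorem exists_elem_ab [Finite G] [Group.IsSolvable G] (X : Subgroup G) [X.Normal] (h : X ≠ ⊥) :
    ∃ (l : ℕ) (A : Subgroup G), l.Prime ∧ A.Normal ∧ A ≤ X ∧ A ≠ ⊥ ∧
      (∀ x ∈ A, ∀ y ∈ A, x * y = y * x) ∧ ∀ x ∈ A, x ^ l = 1 := by
  obtain ⟨n, h1, h2⟩ := exists_dser X ⊥ (by simpa using h)
  have hc : ∀ x ∈ dser X n, ∀ y ∈ dser X n, x * y = y * x := fun x hx y hy =>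
    commutatorElement_eq_one_iff_mul_comm.mp (h2 (commutator_mem_commutator hx hy))
  obtain ⟨l, hl, hd⟩ := Nat.exists_prime_and_dvd (n := Nat.card (dser X n))
    (by rw [Ne, Subgroup.card_eq_one]; simpa using h1)
  have := Fact.mk hl
  obtain ⟨g, hg⟩ := exists_prime_orderOf_dvd_card' l hd
  let A : Subgroup G :=
    { carrier := {x | x ∈ dser X n ∧ x ^ l = 1}
      one_mem' := ⟨one_mem _, one_pow _⟩
      mul_mem' := fun {a b} ha hb => ⟨mul_mem ha.1 hb.1, by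
        rw [Commute.mul_pow (hc a ha.1 b hb.1), ha.2, hb.2, one_mul]⟩
      inv_mem' := fun {a} ha => ⟨inv_mem ha.1, by rw [inv_pow, ha.2, inv_one]⟩ }
  refine ⟨l, A, hl, ⟨fun a ha g => ⟨(dser_normal X n).conj_mem a ha.1 g, by
    rw [conj_pow, ha.2]; simp⟩⟩, fun a ha => dser_le X n ha.1, fun h0 => ?_,
    fun x hx y hy => hc x hx.1 y hy.1, fun x hx => hx.2⟩
  have : (g : G) ∈ A := ⟨g.2, by rw [← hg, ← Subgroup.coe_pow, pow_orderOf_eq_one]; rfl⟩
  rw [h0, mem_bot] at this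
  have : g = 1 := Subtype.ext this
  rw [this, orderOf_one] at hg
  exact hl.one_lt.ne hg

variable [Fintype G] {N M H S : Subgroup G} {l : ℕ}

theorem card_mul_rel (h : N ≤ M) : Nat.card N * N.relIndex M = Nat.card M := by
  rw [← relIndex_bot_left, ← relIndex_bot_left, relIndex_mul_relIndex _ _ _ bot_le h]

theorem Nm.normal (h : Nm N M) : (N.subgroupOf M).Normal :=
  ⟨fun x hx g => h.2 g g.2 x hx⟩

/-- `M / N` is abelian of exponent dividing `l`. -/
def Ab (N M : Subgroup G) (l : ℕ) : Prop :=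
  N ≤ M ∧ (∀ x ∈ M, x ^ l ∈ N) ∧ ∀ x ∈ M, ∀ y ∈ M, x * y * x⁻¹ * y⁻¹ ∈ N

theorem Ab.nm (h : Ab N M l) : Nm N M :=
  ⟨h.1, fun g hg x hx => by simpa using N.mul_mem (h.2.2 g hg x (h.1 hx)) hx⟩

theorem Ab.mono {N₁ : Subgroup G} (h : Ab N M l) (h1 : N ≤ N₁) (h2 : N₁ ≤ M) : Ab N₁ M l :=
  ⟨h2, fun x hx => h1 (h.2.1 x hx), fun x hx y hy => h1 (h.2.2 x hx y hy)⟩

theorem Ab.rel (h : Ab N M l) (hl : l.Prime) : ∃ k, N.relIndex M = l ^ k := by
  have := h.nm.normal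
  have := Fact.mk hl
  have : IsPGroup l (M ⧸ N.subgroupOf M) := by
    intro x
    obtain ⟨x, rfl⟩ := QuotientGroup.mk_surjective x
    refine ⟨1, ?_⟩
    rw [pow_one, ← QuotientGroup.mk_pow, QuotientGroup.eq_one_iff]
    exact h.2.1 x x.2
  exact IsPGroup.iff_card.mp this

theorem exists_ab [Group.IsSolvable G] (h : Nm N H) (hne : N ≠ H) :
    ∃ (l : ℕ) (M : Subgroup G), l.Prime ∧ Nm M H ∧ N ≠ M ∧ Ab N M l := by
  have := h.normal
  obtain ⟨l, A, hl, hA, -, h0, hc, hp⟩ := exists_elem_ab (G := H ⧸ N.subgroupOf H) ⊤ (by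
    intro h1
    apply hne
    refine le_antisymm h.1 fun x hx => ?_
    have : (QuotientGroup.mk ⟨x, hx⟩ : H ⧸ N.subgroupOf H) ∈ (⊥ : Subgroup _) := h1 ▸ mem_top _
    exact (QuotientGroup.eq_one_iff (N := N.subgroupOf H) ⟨x, hx⟩).mp (mem_bot.mp this))
  refine ⟨l, (A.comap (QuotientGroup.mk' _)).map H.subtype, hl, ⟨map_subtype_le _, ?_⟩, ?_, ?_,
    ?_, ?_⟩
  · rintro g hg _ ⟨x, hx, rfl⟩
    exact ⟨⟨g, hg⟩ * x * ⟨g, hg⟩⁻¹, (hA.comap _).conj_mem x hx _, rfl⟩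
  · intro h1
    apply h0
    rw [eq_bot_iff]
    intro x hx
    obtain ⟨x, rfl⟩ := QuotientGroup.mk_surjective x
    have : (x : G) ∈ N := h1 ▸ ⟨x, hx, rfl⟩
    exact (QuotientGroup.eq_one_iff _).mpr this
  · intro x hx
    refine ⟨⟨x, h.1 hx⟩, ?_, rfl⟩
    have : (QuotientGroup.mk ⟨x, h.1 hx⟩ : H ⧸ N.subgroupOf H) = 1 :=
      (QuotientGroup.eq_one_iff _).mpr hx
    change (QuotientGroup.mk ⟨x, h.1 hx⟩ : H ⧸ N.subgroupOf H) ∈ A
    rw [this]; exact A.one_mem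
  · rintro _ ⟨x, hx, rfl⟩
    exact (QuotientGroup.eq_one_iff (x ^ l)).mp (hp _ hx)
  · rintro _ ⟨x, hx, rfl⟩ _ ⟨y, hy, rfl⟩
    refine mem_subgroupOf.mp
      ((QuotientGroup.eq_one_iff (N := N.subgroupOf H) (x * y * x⁻¹ * y⁻¹)).mp ?_)
    have := hc _ hx _ hy
    simp only [QuotientGroup.mk'_apply] at this
    simp [this]

/-- A linear character of `M` of order `l` with kernel `N`. -/
structure Lin (N M : Subgroup G) (l : ℕ) (β : G → ℂ) : Prop where
  mul : ∀ x ∈ M, ∀ y ∈ M, β (x * y) = β x * β y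
  ker : ∀ x ∈ M, β x = 1 ↔ x ∈ N
  pow : ∀ x ∈ M, β x ^ l = 1

theorem Ab.exists_step (h : Ab N M l) (hl : l.Prime) (hne : N ≠ M) :
    ∃ (N₂ : Subgroup G) (β : G → ℂ), N ≤ N₂ ∧ N₂ ≤ M ∧ N.relIndex N₂ = l ∧ Lin N N₂ l β := by
  have := h.nm.normal
  have := Fact.mk hl
  obtain ⟨g, hg, hgN⟩ := exists_of_ssubset (SetLike.coe_ssubset_coe.mpr (lt_of_le_of_ne h.1 hne))
  let Q := M ⧸ N.subgroupOf M
  letI : CommGroup Q := { (inferInstance : Group Q) with
    mul_comm := fun a b => by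
      obtain ⟨a, rfl⟩ := QuotientGroup.mk_surjective a
      obtain ⟨b, rfl⟩ := QuotientGroup.mk_surjective b
      rw [← commutatorElement_eq_one_iff_mul_comm]
      exact (QuotientGroup.eq_one_iff (a * b * a⁻¹ * b⁻¹)).mpr (h.2.2 a a.2 b b.2) }
  let π : M →* Q := QuotientGroup.mk' _
  let q : Q := π ⟨g, hg⟩
  have hq1 : q ≠ 1 := fun h1 =>
    hgN ((QuotientGroup.eq_one_iff (N := N.subgroupOf M) ⟨g, hg⟩).mp h1)
  have hpow : ∀ x : Q, x ^ l = 1 := fun x => by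
    obtain ⟨x, rfl⟩ := QuotientGroup.mk_surjective x
    exact (QuotientGroup.eq_one_iff (x ^ l)).mpr (h.2.1 x x.2)
  have hq : orderOf q = l := orderOf_eq_prime (hpow q) hq1
  have : NeZero ((Monoid.exponent Q : ℕ) : ℂ) := ⟨by exact_mod_cast Monoid.exponent_ne_zero_of_finite⟩
  obtain ⟨φ, hφ⟩ := CommGroup.exists_apply_ne_one_of_hasEnoughRootsOfUnity Q ℂ hq1
  have hφq : orderOf (φ q) = l := orderOf_eq_prime (by rw [← map_pow, hpow, map_one]) hφ
  have hle : N ≤ ((zpowers q).comap π).map M.subtype := fun x hx => by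
    refine ⟨⟨x, h.1 hx⟩, ?_, rfl⟩
    have : π ⟨x, h.1 hx⟩ = 1 := (QuotientGroup.eq_one_iff _).mpr hx
    change π ⟨x, h.1 hx⟩ ∈ zpowers q
    rw [this]; exact one_mem _
  refine ⟨((zpowers q).comap π).map M.subtype, fun x => if hx : x ∈ M then φ (π ⟨x, hx⟩) else 0,
    hle, map_subtype_le _, ?_, ?_, ?_, ?_⟩
  · have h1 := card_mul_rel hle
    rw [card_map_of_injective M.subtype_injective] at h1
    have h2 := QuotientGroup.card_preimage_mk (N.subgroupOf M) (zpowers q : Set Q)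
    have h3 : Nat.card (N.subgroupOf M) = Nat.card N :=
      Nat.card_congr (subgroupOfEquivOfLe h.1).toEquiv
    have h4 : Nat.card (zpowers q : Set Q) = l := by rw [← hq]; exact Nat.card_zpowers q
    rw [h3, h4] at h2
    exact Nat.eq_of_mul_eq_mul_left Nat.card_pos (h1.trans h2)
  · rintro _ ⟨x, -, rfl⟩ _ ⟨y, -, rfl⟩
    simp only [coe_subtype, ← Subgroup.coe_mul, SetLike.coe_mem, dite_true, Subtype.coe_eta,
      map_mul, Units.val_mul]
  · rintro _ ⟨x, hx, rfl⟩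
    simp only [coe_subtype, SetLike.coe_mem, dite_true, Subtype.coe_eta, Units.val_eq_one]
    obtain ⟨j, hj⟩ := hx
    simp only at hj
    have : (x : G) ∈ N ↔ π x = 1 := (QuotientGroup.eq_one_iff (N := N.subgroupOf M) x).symm
    rw [this, ← hj, map_zpow, ← orderOf_dvd_iff_zpow_eq_one, ← orderOf_dvd_iff_zpow_eq_one, hq, hφq]
  · rintro _ ⟨x, -, rfl⟩
    simp only [coe_subtype, SetLike.coe_mem, dite_true, Subtype.coe_eta]
    rw [← Units.val_pow_eq_pow_val, ← map_pow, hpow, map_one, Units.val_one]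

def Syl (l : ℕ) (N S : Subgroup G) : Prop := S ≤ N ∧ IsPGroup l S ∧ ¬ l ∣ S.relIndex N

theorem Syl.ext {S₀ : Subgroup G} (hl : l.Prime) (h : Syl l N S₀) (hM : N ≤ M) :
    ∃ S, Syl l M S ∧ S ⊓ N = S₀ := by
  have := Fact.mk hl
  obtain ⟨P, hP⟩ := IsPGroup.exists_le_sylow (h.2.1.comap_subtype (K := M))
  have hS : IsPGroup l (P.1.map M.subtype) := P.2.map _
  have hle : S₀ ≤ P.1.map M.subtype := fun x hx => ⟨⟨x, hM (h.1 hx)⟩, hP hx, rfl⟩
  refine ⟨P.1.map M.subtype, ⟨map_subtype_le _, hS, ?_⟩, ?_⟩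
  · rw [relIndex, subgroupOf, comap_map_eq_self_of_injective M.subtype_injective]
    exact P.not_dvd_index
  · refine le_antisymm (relIndex_eq_one.mp ?_) (le_inf hle h.1)
    obtain ⟨k, hk⟩ := IsPGroup.iff_card.mp (hS.to_inf_left (K := N))
    have h1 := card_mul_rel (le_inf hle h.1)
    have h2 := relIndex_mul_relIndex S₀ (P.1.map M.subtype ⊓ N) N (le_inf hle h.1) inf_le_right
    obtain ⟨j, -, hj⟩ := (Nat.dvd_prime_pow hl).mp (hk ▸ Dvd.intro_left _ h1)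
    rw [hj] at h2 ⊢
    cases j with
    | zero => rfl
    | succ j => exact absurd (h2 ▸ ((dvd_pow_self l j.succ_ne_zero).mul_right _)) h.2.2

theorem Syl.exists (hl : l.Prime) (M : Subgroup G) : ∃ S, Syl l M S := by
  obtain ⟨S, hS, -⟩ := Syl.ext (N := ⊥) (S₀ := ⊥) (M := M) hl
    ⟨le_rfl, IsPGroup.of_bot, by simpa using hl.one_lt.ne'⟩ bot_le
  exact ⟨S, hS⟩

theorem Syl.up (hl : l.Prime) (h : Syl l N S) (hM : N ≤ M) (hr : ¬ l ∣ N.relIndex M) :
    Syl l M S := by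
  refine ⟨h.1.trans hM, h.2.1, ?_⟩
  rw [← relIndex_mul_relIndex S N M h.1 hM, hl.dvd_mul]
  exact not_or.mpr ⟨h.2.2, hr⟩

theorem Syl.sup (hl : l.Prime) (h : Syl l M S) (hN : Ab N M l) : S ⊔ N = M := by
  obtain ⟨k, hk⟩ := hN.rel hl
  have hle : S ⊔ N ≤ M := sup_le h.1 hN.1
  refine le_antisymm hle (relIndex_eq_one.mp ?_)
  have h1 := relIndex_mul_relIndex S (S ⊔ N) M le_sup_left hle
  have h2 := relIndex_mul_relIndex N (S ⊔ N) M le_sup_right hle
  obtain ⟨j, -, hj⟩ := (Nat.dvd_prime_pow hl).mp (hk ▸ Dvd.intro_left _ h2)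
  rw [hj] at h1 ⊢
  cases j with
  | zero => rfl
  | succ j => exact absurd (h1 ▸ ((dvd_pow_self l j.succ_ne_zero).mul_left _)) h.2.2

theorem rel_of_sup (h : Nm N M) (hs : S ⊔ N = M) : (S ⊓ N).relIndex S = N.relIndex M := by
  have := h.normal
  have hS : S ≤ M := hs ▸ le_sup_left
  have h1 := relIndex_sup_right (S.subgroupOf M) (N.subgroupOf M)
  rw [← subgroupOf_sup hS h.1, hs, relIndex_subgroupOf hS, relIndex_subgroupOf le_rfl] at h1
  rw [inf_comm, inf_relIndex_right, h1]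

/-- If `S N = M` and `N ≤ N₂ ≤ M` then `(S ∩ N₂) N = N₂`. -/
theorem inf_sup_of_sup {N₂ : Subgroup G} (h : Nm N M) (hs : S ⊔ N = M) (h1 : N ≤ N₂)
    (h2 : N₂ ≤ M) : S ⊓ N₂ ⊔ N = N₂ := by
  have := h.normal
  have hS : S ≤ M := hs ▸ le_sup_left
  refine le_antisymm (sup_le inf_le_right h1) fun x hx => ?_
  have h3 : (⟨x, h2 hx⟩ : M) ∈ S.subgroupOf M ⊔ N.subgroupOf M := by
    rw [← subgroupOf_sup hS h.1, hs]; exact h2 hx
  obtain ⟨s, hs', n, hn, hsn⟩ := mem_sup_of_normal_right.mp h3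
  have h4 : (s : G) * n = x := congrArg Subtype.val hsn
  have h5 : (s : G) ∈ N₂ := by
    have := N₂.mul_mem hx (N₂.inv_mem (h1 (show (n : G) ∈ N from hn)))
    rwa [← h4, mul_inv_cancel_right] at this
  rw [← h4]
  exact mul_mem_sup ⟨hs', h5⟩ hn

end Pool.Agent.P.MP_530519_al
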